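import Pool.Agent.Helper14.DL.Fox

set_option autoImplicit false

/-!
Project DL: basic linear algebra over the Malcev-Neumann field, shared by the modules A, PI, JOIN, ...
-/

namespace DL

open scoped Classical

namespace MF

variable {G : Type} [Group G] {o : BO G} (M : MF o)

/-- constants -/
noncomputable def cst : ℚ →+* M.K where
  toFun c := M.mono 1 c
  map_one' := M.of_one
  map_mul' a b := M.ext' fun g => by
    rw [M.cf_mono_mul, M.cf_mono, M.cf_mono]
    split_ifs with h1 h2 h3
    · rfl
    · exact absurd (by simpa using h1) h2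
    · exact absurd (by simpa using h3) h1
    · simp
  map_zero' := M.ext' fun g => by
    rw [M.cf_mono, M.cf_zero]
    simp
  map_add' a b := M.ext' fun g => by
    rw [M.add, M.cf_mono, M.cf_mono, M.cf_mono]
    split_ifs <;> simp

instance charZero : CharZero M.K := by
  refine ⟨fun a b hab => ?_⟩
  have h1 : M.cst (a : ℚ) = M.cst (b : ℚ) := by
    rw [map_natCast, map_natCast]
    exact hab
  have h2 := congrArg (fun z => M.cf z 1) h1
  simp only [cst, RingHom.coe_mk, MonoidHom.coe_mk, OneHom.coe_mk] at h2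
  rw [M.cf_mono, M.cf_mono] at h2
  simpa using h2

theorem cf_rat_mul (c : ℚ) (a : M.K) (p : G) : M.cf ((c : M.K) * a) p = c * M.cf a p := by
  rw [← eq_ratCast M.cst c]
  change M.cf (M.mono 1 c * a) p = _
  rw [M.cf_mono_mul]
  simp

theorem cf_mul_io (a : M.K) (f : G →₀ ℤ) (p : G) :
    M.cf (a * M.io f) p = f.sum fun u m => (m : ℚ) * M.cf a (p * u⁻¹) := by
  unfold io Finsupp.sum
  rw [Finset.mul_sum, M.cf_sum]
  refine Finset.sum_congr rfl fun u _ => ?_
  rw [M.cf_mul_mono, mul_comm]

theorem of_ne (g : G) : M.of g ≠ 0 := by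
  intro h
  have := congrArg (fun z => M.cf z g) h
  simp [M.cf_of, M.cf_zero] at this

/-- the group element as an element of the division subring `M.sub E` -/
noncomputable def ofE {E : Subgroup G} (g : G) (h : g ∈ E) : M.sub E := ⟨M.of g, M.of_mem_sub h⟩

end MF

section

variable {n : ℕ} {o : BO (F n)} (M : MF o)

theorem nab_inv (g : F n) : nab M g⁻¹ = -(M.of g⁻¹ • nab M g) := by
  have h := nab_mul M g⁻¹ g
  rw [inv_mul_cancel, nab_one] at h
  exact eq_neg_of_add_eq_zero_left h.symm

/-- a `K_E`-subspace containing the gradients of a set `S ⊆ E` contains the gradients of the subgroup generated -/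
theorem nab_mem_of_closure {E : Subgroup (F n)} {S : Set (F n)} (hS : S ⊆ E)
    (W : Submodule (M.sub E) (Fin n → M.K)) (hW : ∀ x ∈ S, nab M x ∈ W) :
    ∀ x ∈ Subgroup.closure S, nab M x ∈ W := by
  have hE : Subgroup.closure S ≤ E := (Subgroup.closure_le E).2 hS
  intro x hx
  induction hx using Subgroup.closure_induction with
  | mem x hx => exact hW x hx
  | one =>
    rw [nab_one]
    exact W.zero_mem
  | mul x y hx hy ihx ihy =>
    rw [nab_mul]
    exact W.add_mem ihx (W.smul_mem (M.ofE x (hE hx)) ihy)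
  | inv x hx ihx =>
    rw [nab_inv]
    exact W.neg_mem (W.smul_mem (M.ofE x⁻¹ (hE ((Subgroup.closure S).inv_mem hx))) ihx)

/-- `V_E` of a subgroup generated by a set `S ⊆ E` -/
theorem V_closure {E : Subgroup (F n)} {S : Set (F n)} (hS : S ⊆ E) :
    V M E (Subgroup.closure S) = Submodule.span (M.sub E) (nab M '' S) := by
  apply le_antisymm
  · apply Submodule.span_le.2
    rintro _ ⟨x, hx, rfl⟩
    exact nab_mem_of_closure M hS _ (fun y hy => Submodule.subset_span (Set.mem_image_of_mem _ hy)) x hx
  · exact Submodule.span_mono (Set.image_mono Subgroup.subset_closure)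

theorem nab_mem_V {E L : Subgroup (F n)} {x : F n} (hx : x ∈ L) : nab M x ∈ V M E L :=
  Submodule.subset_span ⟨x, hx, rfl⟩

theorem V_mono {E L L' : Subgroup (F n)} (h : L ≤ L') : V M E L ≤ V M E L' :=
  Submodule.span_mono (Set.image_mono h)

/-- the closure as a subgroup -/
noncomputable def clS (E L : Subgroup (F n)) : Subgroup (F n) where
  carrier := {x | x ∈ E ∧ nab M x ∈ V M E L}
  mul_mem' := by
    rintro a b ⟨ha, ha'⟩ ⟨hb, hb'⟩
    refine ⟨E.mul_mem ha hb, ?_⟩
    rw [nab_mul]
    exact Submodule.add_mem _ ha' (Submodule.smul_mem _ (M.ofE a ha) hb')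
  one_mem' := by
    refine ⟨E.one_mem, ?_⟩
    rw [nab_one]
    exact Submodule.zero_mem _
  inv_mem' := by
    rintro a ⟨ha, ha'⟩
    refine ⟨E.inv_mem ha, ?_⟩
    rw [nab_inv]
    exact Submodule.neg_mem _ (Submodule.smul_mem _ (M.ofE a⁻¹ (E.inv_mem ha)) ha')

theorem mem_clS {E L : Subgroup (F n)} {x : F n} : x ∈ clS M E L ↔ x ∈ E ∧ nab M x ∈ V M E L :=
  Iff.rfl

theorem clS_le {E L : Subgroup (F n)} : clS M E L ≤ E := fun _ hx => hx.1

theorem le_clS {E L : Subgroup (F n)} (h : L ≤ E) : L ≤ clS M E L := fun _ hx => ⟨h hx, nab_mem_V M hx⟩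

theorem V_clS {E L : Subgroup (F n)} (h : L ≤ E) : V M E (clS M E L) = V M E L := by
  apply le_antisymm
  · apply Submodule.span_le.2
    rintro _ ⟨x, hx, rfl⟩
    exact hx.2
  · exact V_mono M (le_clS M h)

/-- a subgroup with the same span lies in the closure -/
theorem le_clS_of_V {E L L' : Subgroup (F n)} (h : L' ≤ E) (hV : V M E L' ≤ V M E L) :
    L' ≤ clS M E L := fun _ hx => ⟨h hx, hV (nab_mem_V M hx)⟩

/-- every subgroup generated by a family `b` : span of the gradients of the family -/
theorem V_range {E : Subgroup (F n)} {ι : Type*} (b : ι → F n) (hb : ∀ i, b i ∈ E) :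
    V M E (Subgroup.closure (Set.range b)) = Submodule.span (M.sub E) (Set.range fun i => nab M (b i)) := by
  rw [V_closure M (by rintro _ ⟨i, rfl⟩; exact hb i)]
  congr 1
  ext z
  constructor
  · rintro ⟨_, ⟨i, rfl⟩, rfl⟩
    exact ⟨i, rfl⟩
  · rintro ⟨i, rfl⟩
    exact ⟨_, ⟨i, rfl⟩, rfl⟩

/-- the rank `rho` is the dimension -/
theorem IsRho.finrank {E L : Subgroup (F n)} {r : ℕ} (h : IsRho M E L r) :
    Module.finrank (M.sub E) (V M E L) = r := by
  obtain ⟨x, hx, hli, hV⟩ := h
  rw [hV, finrank_span_eq_card hli]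
  simp

theorem IsRho.fd {E L : Subgroup (F n)} {r : ℕ} (h : IsRho M E L r) :
    Module.Finite (M.sub E) (V M E L) := by
  obtain ⟨x, hx, hli, hV⟩ := h
  rw [hV]
  exact Module.Finite.span_of_finite _ (Set.finite_range _)

/-- `rho` exists when `V_E(L)` is finite dimensional -/
theorem exists_isRho {E L : Subgroup (F n)} (h : Module.Finite (M.sub E) (V M E L)) :
    ∃ r, IsRho M E L r := by
  obtain ⟨b, hb, hspan, hli⟩ := exists_linearIndependent (M.sub E) (nab M '' (L : Set (F n)))
  have hfin : Finite b := by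
    have h1 : Submodule.span (M.sub E) (Set.range (Subtype.val : b → (Fin n → M.K))) = V M E L := by
      rw [Subtype.range_coe]
      exact hspan
    have h2 : Module.Finite (M.sub E) (Submodule.span (M.sub E) (Set.range (Subtype.val : b → (Fin n → M.K)))) := by
      rw [h1]
      exact h
    exact Module.Finite.finite_basis (Module.Basis.span hli)
  obtain ⟨r, ⟨e⟩⟩ := Finite.exists_equiv_fin b
  choose f hf1 hf2 using hb
  refine ⟨r, fun i => f (e.symm i).2, fun i => hf1 _, ?_, ?_⟩
  · have : (fun i => nab M (f (e.symm i).2)) = (Subtype.val : b → (Fin n → M.K)) ∘ e.symm := by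
      funext i
      exact hf2 _
    rw [this]
    exact hli.comp _ e.symm.injective
  · have : (Set.range fun i => nab M (f (e.symm i).2)) = b := by
      ext z
      constructor
      · rintro ⟨i, rfl⟩
        simp only [hf2]
        exact (e.symm i).2
      · intro hz
        refine ⟨e ⟨z, hz⟩, ?_⟩
        simp only [hf2, Equiv.symm_apply_apply]
    rw [this]
    exact hspan.symm

end

/-- a free basis generates -/
theorem closure_basis {ι G : Type} [Group G] (C : Subgroup G) (B : FreeGroupBasis ι C) :
    Subgroup.closure (Set.range fun i => (B i : G)) = C := by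
  apply le_antisymm
  · rw [Subgroup.closure_le]
    rintro _ ⟨i, rfl⟩
    exact (B i).2
  · intro x hx
    have h : ∀ w : FreeGroup ι, ((B.repr.symm w : C) : G) ∈ Subgroup.closure (Set.range fun i => (B i : G)) := by
      intro w
      induction w using FreeGroup.induction_on with
      | C1 =>
        simp only [map_one, Subgroup.coe_one]
        exact Subgroup.one_mem _
      | of i => exact Subgroup.subset_closure ⟨i, rfl⟩
      | inv_of i ih =>
        rw [map_inv, Subgroup.coe_inv]
        exact Subgroup.inv_mem _ ih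
      | mul x y ihx ihy =>
        rw [map_mul, Subgroup.coe_mul]
        exact Subgroup.mul_mem _ ihx ihy
    have := h (B.repr ⟨x, hx⟩)
    simpa using this

end DL
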