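import Pool.Agent.Helper14.DL.St
import Pool.Agent.Helper14.DL.Lin
import Mathlib.GroupTheory.FreeGroup.NielsenSchreier

set_option autoImplicit false

/-!
Project DL, module A: Theorem A from A1 - A4.
-/

namespace DL

open scoped Classical

section

variable {n : ℕ} {o : BO (F n)} (M : MF o) (E L : Subgroup (F n))

/-- the quotient space -/
def Om : Type := (Fin n → M.K) ⧸ V M E L

noncomputable instance omACG : AddCommGroup (Om M E L) := inferInstanceAs (AddCommGroup ((Fin n → M.K) ⧸ V M E L))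

noncomputable instance omMod : Module (M.sub E) (Om M E L) := inferInstanceAs (Module (M.sub E) ((Fin n → M.K) ⧸ V M E L))

/-- the rational structure of the quotient space -/
noncomputable instance ratOm : Module ℚ (Om M E L) := Module.compHom _ (Rat.castHom (M.sub E))

/-- the quotient map -/
noncomputable def omk : (Fin n → M.K) →ₗ[M.sub E] Om M E L := (V M E L).mkQ

theorem omk_zero (z : Fin n → M.K) : omk M E L z = 0 ↔ z ∈ V M E L :=
  Submodule.Quotient.mk_eq_zero _

theorem rat_smul (c : ℚ) (ω : Om M E L) : c • ω = (c : M.sub E) • ω := rfl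

/-- a basis of the quotient space -/
noncomputable def bOm : Module.Basis (Module.Basis.ofVectorSpaceIndex (M.sub E) (Om M E L)) (M.sub E) (Om M E L) :=
  Module.Basis.ofVectorSpace (M.sub E) (Om M E L)

end

/-- all the data of the rational module in one statement -/
theorem a_data {n : ℕ} {o : BO (F n)} (M : MF o) (E L : Subgroup (F n)) :
    ∃ (Ω : Type) (_ : AddCommGroup Ω) (_ : Module ℚ Ω) (π : (Fin n → M.K) →+ Ω)
      (act : F n → Ω →ₗ[ℚ] Ω) (Λ : Set (Ω →ₗ[ℚ] ℚ)),
      (∀ z, π z = 0 ↔ z ∈ V M E L) ∧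
      (∀ (c : ℚ) z, π ((c : M.K) • z) = c • π z) ∧
      (∀ e ∈ E, ∀ z, act e (π z) = π (M.of e • z)) ∧
      (∀ e ∈ E, ∀ f ∈ E, act (e * f) = (act e).comp (act f)) ∧ act 1 = LinearMap.id ∧
      (∀ ω, (∀ l ∈ Λ, l ω = 0) → ω = 0) ∧
      (∀ κ : M.K, (∀ g, M.cf κ g ≠ 0 → g ∈ E) → ∀ l ∈ Λ, ∀ ω,
        {f | M.cf κ f ≠ 0 ∧ l (act f ω) ≠ 0}.Finite) := by
  have hsm : ∀ (c : ℚ) (ω : Om M E L), c • ω = (c : M.sub E) • ω := rat_smul M E L
  let act : F n → Om M E L →ₗ[ℚ] Om M E L := fun g => if h : g ∈ E then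
    { toFun := fun ω => M.ofE g h • ω
      map_add' := fun a b => smul_add _ _ _
      map_smul' := fun c ω => by
        rw [RingHom.id_apply, hsm, hsm, smul_smul, smul_smul, (Rat.cast_commute c (M.ofE g h)).eq] } else 0
  have hact : ∀ g (h : g ∈ E) (ω : Om M E L), act g ω = M.ofE g h • ω := by
    intro g h ω
    simp only [act, dif_pos h]
    rfl
  let lf : (Module.Basis.ofVectorSpaceIndex (M.sub E) (Om M E L)) × F n → (Om M E L →ₗ[ℚ] ℚ) := fun q =>
    { toFun := fun ω => M.cf ((bOm M E L).repr ω q.1 : M.K) q.2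
      map_add' := fun a b => by
        rw [map_add, Finsupp.add_apply]
        exact M.add _ _ _
      map_smul' := fun c ω => by
        rw [RingHom.id_apply, hsm, map_smul, Finsupp.smul_apply, smul_eq_mul, Subfield.coe_mul]
        rw [show (((c : M.sub E)) : M.K) = (c : M.K) from by simp]
        rw [M.cf_rat_mul, smul_eq_mul] }
  have hlf : ∀ q ω, lf q ω = M.cf ((bOm M E L).repr ω q.1 : M.K) q.2 := fun q ω => rfl
  refine ⟨Om M E L, inferInstance, ratOm M E L, (omk M E L).toAddMonoidHom, act, Set.range lf,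
    ?_, ?_, ?_, ?_, ?_, ?_, ?_⟩
  · intro z
    exact omk_zero M E L z
  · intro c z
    change omk M E L ((c : M.K) • z) = (c : M.sub E) • omk M E L z
    rw [← map_smul]
    congr 1
  · intro e he z
    rw [hact e he]
    change _ • omk M E L z = omk M E L _
    rw [← map_smul]
    rfl
  · intro e he f hf
    ext ω
    rw [LinearMap.comp_apply, hact _ (E.mul_mem he hf), hact _ he, hact _ hf, smul_smul]
    congr 1
    exact Subtype.ext (M.of_mul e f)
  · ext ω
    rw [hact _ E.one_mem, LinearMap.id_apply]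
    have : M.ofE 1 E.one_mem = 1 := Subtype.ext M.of_one
    rw [this, one_smul]
  · intro ω hω
    have : (bOm M E L).repr ω = 0 := by
      ext j
      apply M.ext'
      intro p
      have := hω (lf (j, p)) ⟨_, rfl⟩
      rw [hlf] at this
      simpa [M.cf_zero] using this
    simpa using this
  · rintro κ hκ _ ⟨⟨j, p⟩, rfl⟩ ω
    refine (M.fin κ ((bOm M E L).repr ω j : M.K) p).subset ?_
    rintro f ⟨hf1, hf2⟩
    refine ⟨hf1, ?_⟩
    rw [hlf, hact f (hκ f hf1), map_smul, Finsupp.smul_apply, smul_eq_mul, Subfield.coe_mul] at hf2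
    change M.cf (M.of f * _) p ≠ 0 at hf2
    rwa [M.cf_of_mul] at hf2

/-- the relation between the coefficients -/
theorem a_rel {n : ℕ} {o : BO (F n)} (M : MF o) {I : Type} [Fintype I] (κ : I → M.K) (y : I → F n)
    (a : Fin n) (w : F n) :
    M.cf ((∑ i, κ i • nab M (y i)) a) w =
      ∑ i, (fox a (y i)).sum (fun u m => (m : ℚ) * M.cf (κ i) (w * u⁻¹)) := by
  rw [Finset.sum_apply, M.cf_sum]
  refine Finset.sum_congr rfl fun i _ => ?_
  rw [Pi.smul_apply, smul_eq_mul]
  exact M.cf_mul_io _ _ _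

theorem a (h1 : StA1) (h2 : StA2) (h3 : StA3) (h4 : StA4) : StA := by
  intro n o M E L hLE r hr
  obtain ⟨Ω, i1, i2, π, act, Λ, hπ0, hπc, hact, hactm, hact1, hsep, hfin⟩ := a_data M E L
  -- the cocycle
  let δ : F n → Ω := fun x => π (nab M x)
  have hδ0 : ∀ x, δ x = 0 ↔ nab M x ∈ V M E L := fun x => hπ0 _
  have hδmul : ∀ e ∈ E, ∀ f ∈ E, δ (e * f) = δ e + act e (δ f) := by
    intro e he f hf
    change π (nab M (e * f)) = π (nab M e) + act e (π (nab M f))
    rw [nab_mul, map_add, hact e he]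
  have hδ1 : δ 1 = 0 := by
    rw [hδ0, nab_one]
    exact Submodule.zero_mem _
  obtain ⟨x, hxL, hxli, hxV⟩ := hr
  -- Dedekind independence
  have hGL : ∀ b : F n →₀ ℚ, (∀ g, b g ≠ 0 → g ∈ E) → b.sum (fun g c => c • δ g) = 0 →
      ∀ ω : Ω, ω ≠ 0 → b.sum (fun g c => if δ g = ω then c else 0) = 0 := by
    refine h2 n E Ω δ Λ hδ1 hsep ?_
    intro a ha hsum0 hsumδ
    -- Σ a_g ∇g ∈ V
    have hmem : (a.sum fun g c => (c : M.K) • nab M g) ∈ V M E L := by
      rw [← hπ0]
      unfold Finsupp.sum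
      rw [map_sum]
      rw [← hsumδ]
      refine Finset.sum_congr rfl fun g _ => ?_
      rw [hπc]
    rw [hxV] at hmem
    obtain ⟨c, hc⟩ := (Submodule.mem_span_range_iff_exists_fun _).1 hmem
    refine h1 n E Ω act δ Λ (Fin r) (fun i => M.cf (c i : M.K)) x a hactm hact1 hδmul hsep
      (fun i g hg => (c i).2 g hg) (fun i l hl ω => hfin _ (fun g hg => (c i).2 g hg) l hl ω)
      (fun i => hLE (hxL i)) (fun i => (hδ0 _).2 (nab_mem_V M (hxL i))) ha hsum0 hsumδ ?_
    intro b w
    rw [← a_rel M (fun i => (c i : M.K)) x b w]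
    have hc' : (∑ i, (c i : M.K) • nab M (x i)) = a.sum fun g c => (c : M.K) • nab M g := hc
    rw [hc']
    unfold Finsupp.sum
    rw [Finset.sum_apply, M.cf_sum]
    refine Finset.sum_congr rfl fun g _ => ?_
    dsimp only
    rw [Pi.smul_apply, smul_eq_mul, M.cf_rat_mul, cf_nab]
  -- the closure and its basis
  obtain ⟨ι, ⟨B⟩⟩ := (inferInstance : IsFreeGroup (clS M E L)).nonempty_basis
  have hind : LinearIndependent (M.sub E) (fun i => nab M (B i : F n)) := by
    rw [linearIndependent_iff']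
    intro s k hk
    have hrel : ∀ b w, ∑ i : s, (fox b (B i : F n)).sum (fun u m => (m : ℚ) * M.cf (k i : M.K) (w * u⁻¹)) = 0 := by
      intro b w
      rw [← a_rel M (fun i : s => (k i : M.K)) (fun i : s => (B i : F n)) b w]
      have : (∑ i : s, (k i : M.K) • nab M (B i : F n)) = 0 := by
        rw [← hk]
        rw [← Finset.sum_coe_sort s]
        rfl
      rw [this, Pi.zero_apply, M.cf_zero]
    have h5 := h3 n E (clS M E L) Ω act δ Λ s (fun i => M.cf (k i : M.K)) (fun i => (B i : F n)) hactm hact1 hδmul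
      (fun x => by rw [mem_clS, hδ0]) hsep (fun i g hg => (k i).2 g hg)
      (fun i l hl ω => hfin _ (fun g hg => (k i).2 g hg) l hl ω) (fun i => (B i).2) hGL hrel
    have h6 := h4 n o M (clS M E L) ι B s (fun i => (k i : M.K)) (by
      intro b w u₀
      rw [← Finset.sum_coe_sort s]
      exact h5 b w u₀)
    intro i hi
    exact Subtype.ext (h6 i hi)
  have hBC : Subgroup.closure (Set.range fun i => (B i : F n)) = clS M E L := closure_basis _ B
  have hBE : ∀ i, (B i : F n) ∈ E := fun i => (B i).2.1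
  have hVB : V M E L = Submodule.span (M.sub E) (Set.range fun i => nab M (B i : F n)) := by
    rw [← V_range M (fun i => (B i : F n)) hBE, hBC, V_clS M hLE]
  have hrho : IsRho M E L r := ⟨x, hxL, hxli, hxV⟩
  have hfd := hrho.fd
  have hfr := hrho.finrank
  rw [hVB] at hfd hfr
  have hιfin : Finite ι := Module.Finite.finite_basis (Module.Basis.span hind)
  have := Fintype.ofFinite ι
  rw [finrank_span_eq_card hind] at hfr
  let e : ι ≃ Fin r := (Fintype.equivFin ι).trans (finCongr hfr)
  refine ⟨fun i => (B (e.symm i) : F n), ?_, hind.comp _ e.symm.injective⟩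
  have h7 : (Set.range fun i => (B (e.symm i) : F n)) = Set.range fun i => (B i : F n) :=
    e.symm.surjective.range_comp (fun i => (B i : F n))
  rw [h7, hBC]
  rfl

end DL
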