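import Pool.Agent.Helper14.DL.St

set_option autoImplicit false

namespace DL

open scoped Classical

section A1

variable {n : ℕ} {Ω : Type} [AddCommGroup Ω] [Module ℚ Ω]

theorem a1_eta (E : Subgroup (F n)) (act : F n → Ω →ₗ[ℚ] Ω) (δ : F n → Ω)
    (hδ : ∀ e ∈ E, ∀ f ∈ E, δ (e * f) = δ e + act e (δ f)) :
    ∃ η : F n → Ω, (∀ e ∈ E, ∀ w, η (e * w) = δ e + act e (η w)) ∧ (∀ e ∈ E, η e = δ e) := by
  let rep : F n → F n := fun w => if w ∈ E then 1 else
    Quotient.out (Quotient.mk (QuotientGroup.rightRel E) w)
  have hout : ∀ w, w * (Quotient.out (Quotient.mk (QuotientGroup.rightRel E) w))⁻¹ ∈ E := by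
    intro w
    have := Quotient.mk_out (s := QuotientGroup.rightRel E) w
    rwa [← QuotientGroup.rightRel_apply]
  have h1 : ∀ w, w * (rep w)⁻¹ ∈ E := by
    intro w
    by_cases hw : w ∈ E
    · simp only [rep, if_pos hw, inv_one, mul_one]
      exact hw
    · simp only [rep, if_neg hw]
      exact hout w
  have h2 : ∀ e ∈ E, ∀ w, rep (e * w) = rep w := by
    intro e he w
    by_cases hw : w ∈ E
    · simp only [rep, if_pos hw, if_pos (E.mul_mem he hw)]
    · have hw' : e * w ∉ E := fun h => hw ((E.mul_mem_cancel_left he).1 h)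
      simp only [rep, if_neg hw, if_neg hw']
      congr 1
      apply Quotient.sound
      change (QuotientGroup.rightRel E) (e * w) w
      rw [QuotientGroup.rightRel_apply]
      have : w * (e * w)⁻¹ = e⁻¹ := by group
      rw [this]
      exact E.inv_mem he
  refine ⟨fun w => δ (w * (rep w)⁻¹), ?_, ?_⟩
  · intro e he w
    simp only [h2 e he w]
    rw [mul_assoc, hδ e he _ (h1 w)]
  · intro e he
    simp only [rep, if_pos he, inv_one, mul_one]

/-- boundary of the Fox derivative at a point -/
theorem a1_bd (g w : F n) : ∑ x, ((fox x g (w * (gen x)⁻¹) : ℚ) - (fox x g w : ℚ)) =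
    (if g = w then 1 else 0) - (if (1 : F n) = w then 1 else 0) := by
  have h := path (fun v : F n => if v = w then (1 : ℚ) else 0) g
  rw [← h]
  refine Finset.sum_congr rfl fun x _ => ?_
  simp only [smul_sub, Finsupp.sum_sub]
  congr 1
  · rw [Finsupp.sum_eq_single (w * (gen x)⁻¹)]
    · simp
    · intro b _ hb
      rw [if_neg, smul_zero]
      rintro rfl
      apply hb
      simp
    · intro _
      simp
  · rw [Finsupp.sum_eq_single w]
    · simp
    · intro b _ hb
      rw [if_neg hb, smul_zero]
    · intro _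
      simp

end A1

theorem a1 : StA1 := by
  intro n E Ω _ _ act δ Λ I _ κ y a hact hact1 hδ hΛ hκ hfin hy hδy ha hsum hsumδ hrel l hl
  obtain ⟨η, hη, hηE⟩ := a1_eta E act δ hδ
  have hδ1 : δ 1 = 0 := by
    have := hδ 1 E.one_mem 1 E.one_mem
    rw [hact1, mul_one] at this
    simpa using this
  have hη1 : η 1 = 0 := by rw [hηE 1 E.one_mem, hδ1]
  have hηy : ∀ i, η (y i) = 0 := fun i => by rw [hηE _ (hy i), hδy]
  -- the chains
  let z : Fin n → F n → Ω := fun x w => ∑ i, (fox x (y i)).sum
    (fun u m => m • (κ i (w * u⁻¹) • δ (w * u⁻¹)))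
  let A : Fin n → F n → ℚ := fun x w => ∑ i, (fox x (y i)).sum
    (fun u m => (m : ℚ) * κ i (w * u⁻¹))
  let z' : Fin n → F n → Ω := fun x w => a.sum (fun g c => (c * (fox x g w : ℚ)) • δ g)
  have hzA : ∀ x w, z x w = A x w • η w - ∑ i, (fox x (y i)).sum
      (fun u m => m • (κ i (w * u⁻¹) • act (w * u⁻¹) (η u))) := by
    intro x w
    simp only [z, A, Finsupp.sum, Finset.sum_smul, ← Finset.sum_sub_distrib]
    refine Finset.sum_congr rfl fun i _ => Finset.sum_congr rfl fun u _ => ?_
    by_cases hk : κ i (w * u⁻¹) = 0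
    · simp [hk]
    · have h1 := hη _ (hκ i _ hk) u
      rw [inv_mul_cancel_right] at h1
      rw [h1, mul_smul, Int.cast_smul_eq_zsmul, smul_add, smul_add]
      simp
  -- finite support of `A`
  have hAeq : ∀ x w, A x w = a.sum (fun g c => c * (fox x g w : ℚ)) := fun x w => (hrel x w).symm
  have hAfin : ∀ x, (Function.support (A x)).Finite := by
    intro x
    refine Set.Finite.subset (a.support.biUnion fun g => (fox x g).support).finite_toSet ?_
    intro w hw
    by_contra hne
    apply hw
    rw [hAeq]
    apply Finset.sum_eq_zero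
    intro g hg
    have : fox x g w = 0 := by
      by_contra h0
      apply hne
      simp only [Finset.coe_biUnion, Set.mem_iUnion]
      exact ⟨g, hg, by simpa using h0⟩
    simp [this]
  have hzfin : ∀ l' ∈ Λ, ∀ x, (Function.support (fun w => l' (z x w))).Finite := by
    intro l' hl' x
    have hB : ∀ i, ∀ u, {w | κ i (w * u⁻¹) ≠ 0 ∧ l' (act (w * u⁻¹) (η u)) ≠ 0}.Finite := by
      intro i u
      have := (hfin i l' hl' (η u)).preimage
        (f := fun w : F n => w * u⁻¹) (Set.injOn_of_injective (mul_left_injective _))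
      exact this
    refine Set.Finite.subset ((hAfin x).union (Set.finite_iUnion fun i : I =>
      (Set.Finite.biUnion (fox x (y i)).support.finite_toSet fun u _ => hB i u))) ?_
    intro w hw
    by_contra hne
    apply hw
    simp only [Set.mem_union, Function.mem_support, Set.mem_iUnion, not_or, not_exists, not_not,
      Finset.mem_coe, Set.mem_ofPred_eq, not_and] at hne
    obtain ⟨h1, h2⟩ := hne
    simp only [hzA, h1, zero_smul, zero_sub, map_neg, map_sum, Finsupp.sum, neg_eq_zero]
    refine Finset.sum_eq_zero fun i _ => Finset.sum_eq_zero fun u hu => ?_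
    by_cases hk : κ i (w * u⁻¹) = 0
    · simp [hk]
    · rw [map_zsmul, map_smul, h2 i u hu hk]
      simp
  -- boundary of `z`
  have hAbd : ∀ w, ∑ i, (κ i (w * (y i)⁻¹) - κ i w) = a w := by
    intro w
    have h1 : ∀ i, κ i (w * (y i)⁻¹) - κ i w = ∑ x, ((fox x (y i)).sum
        (fun u m => (m : ℚ) * κ i (w * (gen x)⁻¹ * u⁻¹)) -
        (fox x (y i)).sum (fun u m => (m : ℚ) * κ i (w * u⁻¹))) := by
      intro i
      have := path (fun u => κ i (w * u⁻¹)) (y i)
      simp only [inv_one, mul_one] at this
      rw [← this]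
      refine Finset.sum_congr rfl fun x _ => ?_
      simp only [smul_sub, Finsupp.sum_sub, zsmul_eq_mul, mul_inv_rev, mul_assoc]
    rw [Finset.sum_congr rfl fun i _ => h1 i, Finset.sum_comm]
    have h2 : ∀ x, ∑ i, ((fox x (y i)).sum
        (fun u m => (m : ℚ) * κ i (w * (gen x)⁻¹ * u⁻¹)) -
        (fox x (y i)).sum (fun u m => (m : ℚ) * κ i (w * u⁻¹))) =
        a.sum (fun g c => c * ((fox x g (w * (gen x)⁻¹) : ℚ) - (fox x g w : ℚ))) := by
      intro x
      rw [Finset.sum_sub_distrib]
      change A x (w * (gen x)⁻¹) - A x w = _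
      rw [hAeq, hAeq, ← Finsupp.sum_sub]
      simp only [mul_sub]
    rw [Finset.sum_congr rfl fun x _ => h2 x]
    simp only [Finsupp.sum]
    rw [Finset.sum_comm]
    have h4 : ∀ g, ∑ x, a g * ((fox x g (w * (gen x)⁻¹) : ℚ) - (fox x g w : ℚ)) =
        a g * (if g = w then 1 else 0) - a g * (if (1 : F n) = w then 1 else 0) := by
      intro g
      rw [← Finset.mul_sum, a1_bd, mul_sub]
    rw [Finset.sum_congr rfl fun g _ => h4 g, Finset.sum_sub_distrib, ← Finset.sum_mul]
    have h3 : ∑ g ∈ a.support, a g = 0 := hsum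
    rw [h3, zero_mul, sub_zero]
    simp only [mul_ite, mul_one, mul_zero, Finset.sum_ite_eq']
    split_ifs with h
    · rfl
    · exact (by simpa using h : a w = 0).symm
  have hzbd : ∀ w, ∑ x, (z x (w * (gen x)⁻¹) - z x w) = a w • δ w := by
    intro w
    have h1 : ∀ i, κ i (w * (y i)⁻¹) • δ (w * (y i)⁻¹) - κ i w • δ w = ∑ x, ((fox x (y i)).sum
        (fun u m => m • (κ i (w * (gen x)⁻¹ * u⁻¹) • δ (w * (gen x)⁻¹ * u⁻¹))) -
        (fox x (y i)).sum (fun u m => m • (κ i (w * u⁻¹) • δ (w * u⁻¹)))) := by
      intro i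
      have := path (fun u => κ i (w * u⁻¹) • δ (w * u⁻¹)) (y i)
      simp only [inv_one, mul_one] at this
      rw [← this]
      refine Finset.sum_congr rfl fun x _ => ?_
      simp only [smul_sub, Finsupp.sum_sub, mul_inv_rev, mul_assoc]
    have h2 : ∀ i, κ i (w * (y i)⁻¹) • δ (w * (y i)⁻¹) - κ i w • δ w =
        (κ i (w * (y i)⁻¹) - κ i w) • δ w := by
      intro i
      rw [sub_smul]
      congr 1
      by_cases hk : κ i (w * (y i)⁻¹) = 0
      · simp [hk]
      · have hE := hκ i _ hk
        have hw : w ∈ E := (E.mul_mem_cancel_right (E.inv_mem (hy i))).1 hE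
        have h3 : δ (y i)⁻¹ = 0 := by
          have h4 := hδ _ (E.inv_mem (hy i)) _ (hy i)
          rw [inv_mul_cancel, hδ1, hδy, map_zero, add_zero] at h4
          exact h4.symm
        rw [hδ w hw _ (E.inv_mem (hy i)), h3, map_zero, add_zero]
    rw [← hAbd w, Finset.sum_smul, ← Finset.sum_congr rfl fun i _ => h2 i,
      Finset.sum_congr rfl fun i _ => h1 i, Finset.sum_comm]
    refine Finset.sum_congr rfl fun x _ => ?_
    rw [Finset.sum_sub_distrib]
  -- boundary of `z'`
  have hz'bd : ∀ w, ∑ x, (z' x (w * (gen x)⁻¹) - z' x w) = a w • δ w := by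
    intro w
    have h1 : ∀ x, z' x (w * (gen x)⁻¹) - z' x w = a.sum (fun g c =>
        (c * ((fox x g (w * (gen x)⁻¹) : ℚ) - (fox x g w : ℚ))) • δ g) := by
      intro x
      simp only [z', ← Finsupp.sum_sub, mul_sub, sub_smul]
    rw [Finset.sum_congr rfl fun x _ => h1 x]
    simp only [Finsupp.sum]
    rw [Finset.sum_comm]
    have h5 : ∀ g, ∑ x, (a g * ((fox x g (w * (gen x)⁻¹) : ℚ) - (fox x g w : ℚ))) • δ g =
        (a g * (if g = w then 1 else 0)) • δ g - (a g * (if (1 : F n) = w then 1 else 0)) • δ g := by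
      intro g
      rw [← Finset.sum_smul, ← Finset.mul_sum, a1_bd, mul_sub, sub_smul]
    rw [Finset.sum_congr rfl fun g _ => h5 g, Finset.sum_sub_distrib]
    have h3 : ∑ g ∈ a.support, (a g * (if (1 : F n) = w then (1 : ℚ) else 0)) • δ g = 0 := by
      have h4 : ∑ g ∈ a.support, a g • δ g = 0 := hsumδ
      split_ifs
      · simpa using h4
      · simp
    rw [h3, sub_zero]
    simp only [mul_ite, mul_one, mul_zero, ite_smul, zero_smul, Finset.sum_ite_eq']
    split_ifs with h
    · rfl
    · have : a w = 0 := by simpa using h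
      rw [this, zero_smul]
  have hz'fin : ∀ x, (Function.support (z' x)).Finite := by
    intro x
    refine Set.Finite.subset (a.support.biUnion fun g => (fox x g).support).finite_toSet ?_
    intro w hw
    by_contra hne
    apply hw
    apply Finset.sum_eq_zero
    intro g hg
    have : fox x g w = 0 := by
      by_contra h0
      apply hne
      simp only [Finset.coe_biUnion, Set.mem_iUnion]
      exact ⟨g, hg, by simpa using h0⟩
    simp [this]
  -- the two chains agree
  have hzz' : ∀ x w, z x w = z' x w := by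
    intro x w
    rw [← sub_eq_zero]
    apply hΛ
    intro l' hl'
    have := tree (fun x w => l' (z x w - z' x w)) (by
      intro x
      refine Set.Finite.subset ((hzfin l' hl' x).union (hz'fin x)) ?_
      intro w hw
      by_contra hne
      apply hw
      simp only [Set.mem_union, Function.mem_support, not_or, not_not] at hne
      simp only [hne.1, hne.2, sub_zero]) (by
      intro w
      simp only [← map_sub, ← map_sum]
      have h5 : ∑ x, ((z x (w * (gen x)⁻¹) - z' x (w * (gen x)⁻¹)) - (z x w - z' x w)) = 0 := by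
        have h6 : ∀ x, ((z x (w * (gen x)⁻¹) - z' x (w * (gen x)⁻¹)) - (z x w - z' x w)) =
          (z x (w * (gen x)⁻¹) - z x w) - (z' x (w * (gen x)⁻¹) - z' x w) := fun x => by abel
        rw [Finset.sum_congr rfl fun x _ => h6 x, Finset.sum_sub_distrib, hzbd, hz'bd, sub_self]
      rw [h5, map_zero])
    exact this x w
  -- the operators `T i`
  let T : I → Ω → Ω := fun i ω => ∑ᶠ f, (κ i f * l (act f ω)) • δ f
  have hTfin : ∀ i ω, (Function.support (fun f => (κ i f * l (act f ω)) • δ f)).Finite := by
    intro i ω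
    refine (hfin i l hl ω).subset ?_
    intro f hf
    constructor
    · intro h
      apply hf
      simp [h]
    · intro h
      apply hf
      simp [h]
  have hTsub : ∀ i ω ω', T i (ω - ω') = T i ω - T i ω' := by
    intro i ω ω'
    simp only [T]
    rw [← finsum_sub_distrib (hTfin i ω) (hTfin i ω')]
    refine finsum_congr fun f => ?_
    rw [map_sub, map_sub, mul_sub, sub_smul]
  have hT0 : ∀ i, T i 0 = 0 := by
    intro i
    have := hTsub i 0 0
    simpa using this
  -- main computation
  have hmain1 : a.sum (fun g c => (c * l (δ g)) • δ g) =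
      ∑ x, ∑ᶠ w, l (η (w * gen x) - η w) • z' x w := by
    have h1 : ∀ g ∈ a.support, (a g * l (δ g)) • δ g =
        ∑ x, ∑ᶠ w, l (η (w * gen x) - η w) • ((a g * (fox x g w : ℚ)) • δ g) := by
      intro g hg
      have hgE : g ∈ E := ha g (by simpa using hg)
      have h2 := congrArg l (path η g)
      rw [hη1, sub_zero, hηE g hgE, map_sum] at h2
      rw [← h2, Finset.mul_sum, Finset.sum_smul]
      refine Finset.sum_congr rfl fun x _ => ?_
      rw [finsum_eq_sum_of_support_subset (s := (fox x g).support)]
      · rw [map_finsuppSum]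
        simp only [Finsupp.sum, Finset.mul_sum, Finset.sum_smul]
        refine Finset.sum_congr rfl fun w _ => ?_
        rw [map_zsmul, smul_smul, zsmul_eq_mul]
        congr 1
        ring
      · intro w hw
        rw [Finset.mem_coe, Finsupp.mem_support_iff]
        intro h0
        apply hw
        simp [h0]
    simp only [Finsupp.sum]
    rw [Finset.sum_congr rfl h1, Finset.sum_comm]
    refine Finset.sum_congr rfl fun x _ => ?_
    rw [← finsum_sum_comm]
    · refine finsum_congr fun w => ?_
      simp only [z', Finsupp.sum, Finset.smul_sum]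
    · intro g _
      refine Set.Finite.subset (fox x g).support.finite_toSet ?_
      intro w hw
      rw [Finset.mem_coe, Finsupp.mem_support_iff]
      intro h0
      apply hw
      simp [h0]
  rw [hmain1]
  simp only [← hzz']
  have hmain2 : ∀ x, ∑ᶠ w, l (η (w * gen x) - η w) • z x w =
      ∑ i, (fox x (y i)).sum (fun u m => m • (T i (η (u * gen x)) - T i (η u))) := by
    intro x
    have hterm : ∀ i u w, l (η (w * gen x) - η w) • (κ i (w * u⁻¹) • δ (w * u⁻¹)) =
        (κ i (w * u⁻¹) * l (act (w * u⁻¹) (η (u * gen x) - η u))) • δ (w * u⁻¹) := by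
      intro i u w
      by_cases hk : κ i (w * u⁻¹) = 0
      · simp [hk]
      · have h1 := hη _ (hκ i _ hk) u
        have h2 := hη _ (hκ i _ hk) (u * gen x)
        rw [inv_mul_cancel_right] at h1
        rw [← mul_assoc, inv_mul_cancel_right] at h2
        rw [smul_smul, h1, h2, map_sub (act _)]
        congr 1
        rw [mul_comm]
        congr 2
        abel
    have hfs : ∀ i u, (Function.support (fun w =>
        (κ i (w * u⁻¹) * l (act (w * u⁻¹) (η (u * gen x) - η u))) • δ (w * u⁻¹))).Finite := by
      intro i u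
      exact (hTfin i (η (u * gen x) - η u)).preimage
        (f := fun w : F n => w * u⁻¹) (Set.injOn_of_injective (mul_left_injective _))
    have h3 : ∀ w, l (η (w * gen x) - η w) • z x w = ∑ i, ∑ u ∈ (fox x (y i)).support,
        (fox x (y i) u) • ((κ i (w * u⁻¹) * l (act (w * u⁻¹) (η (u * gen x) - η u))) •
          δ (w * u⁻¹)) := by
      intro w
      simp only [z, Finsupp.sum, Finset.smul_sum]
      refine Finset.sum_congr rfl fun i _ => Finset.sum_congr rfl fun u _ => ?_
      rw [← hterm, smul_comm]
    rw [finsum_congr h3, finsum_sum_comm]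
    · refine Finset.sum_congr rfl fun i _ => ?_
      rw [finsum_sum_comm]
      · simp only [Finsupp.sum]
        refine Finset.sum_congr rfl fun u _ => ?_
        rw [← hTsub, ← smul_finsum' _ (hfs i u)]
        congr 1
        exact finsum_comp_equiv (Equiv.mulRight u⁻¹)
          (f := fun f => (κ i f * l (act f (η (u * gen x) - η u))) • δ f)
      · intro u _
        refine (hfs i u).subset ?_
        intro w hw h0
        apply hw
        change (fox x (y i) u) • _ = (0 : Ω)
        simp only at h0
        rw [h0, smul_zero]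
    · intro i _
      refine Set.Finite.subset (Set.Finite.biUnion (fox x (y i)).support.finite_toSet
        fun u _ => hfs i u) ?_
      intro w hw
      by_contra hne
      apply hw
      simp only [Set.mem_iUnion, Function.mem_support, not_exists, not_not, Finset.mem_coe] at hne
      refine Finset.sum_eq_zero fun u hu => ?_
      rw [hne u hu, smul_zero]
  rw [Finset.sum_congr rfl fun x _ => hmain2 x, Finset.sum_comm]
  refine Finset.sum_eq_zero fun i _ => ?_
  rw [path (fun u => T i (η u)) (y i)]
  simp only [hηy, hη1, sub_self]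

end DL
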