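import Pool.Agent.Helper14.DL.St

set_option autoImplicit false

namespace DL

open scoped Classical

theorem a2 : StA2 := by
  intro n E Ω _ _ δ Λ hδ1 hsep hrel b hb hb0 ω₀ hω₀
  -- the relations are closed under multiplication by the functionals
  have hstar : ∀ b : F n →₀ ℚ, (∀ g, b g ≠ 0 → g ∈ E) → b.sum (fun g c => c • δ g) = 0 →
      ∀ l ∈ Λ, b.sum (fun g c => (c * l (δ g)) • δ g) = 0 := by
    intro b hb hb0 l hl
    set t : ℚ := b.sum (fun _ c => c) with ht
    have h1 := hrel (b - Finsupp.single 1 t) ?_ ?_ ?_ l hl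
    · rw [Finsupp.sum_sub_index (by intro g c d; rw [sub_mul, sub_smul])] at h1
      rw [Finsupp.sum_single_index (by simp), hδ1, smul_zero, sub_zero] at h1
      exact h1
    · intro g hg
      by_cases h : g = 1
      · rw [h]
        exact E.one_mem
      · apply hb
        rw [Finsupp.sub_apply, Finsupp.single_apply, if_neg (Ne.symm h), sub_zero] at hg
        exact hg
    · rw [Finsupp.sum_sub_index (by intro g c d; rfl), Finsupp.sum_single_index rfl, ← ht, sub_self]
    · rw [Finsupp.sum_sub_index (by intro g c d; rw [sub_smul]), Finsupp.sum_single_index (by simp),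
        hδ1, smul_zero, sub_zero, hb0]
  -- separation of values
  have hind : ∀ S : Finset Ω, ω₀ ∉ S → ∃ φ : Ω → ℚ, φ ω₀ ≠ 0 ∧ (∀ ω ∈ S, φ ω = 0) ∧
      ∀ b : F n →₀ ℚ, (∀ g, b g ≠ 0 → g ∈ E) → b.sum (fun g c => c • δ g) = 0 →
        b.sum (fun g c => (c * φ (δ g)) • δ g) = 0 := by
    intro S
    induction S using Finset.induction_on with
    | empty =>
      intro _
      refine ⟨fun _ => 1, one_ne_zero, fun ω hω => absurd hω (Finset.notMem_empty _), ?_⟩
      intro b _ hb0
      simp only [mul_one]
      exact hb0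
    | insert ω' S _ ih =>
      intro hS
      rw [Finset.mem_insert, not_or] at hS
      obtain ⟨φ, hφ0, hφS, hφ⟩ := ih hS.2
      obtain ⟨l, hl, hl'⟩ : ∃ l ∈ Λ, l (ω₀ - ω') ≠ 0 := by
        by_contra hcon
        push Not at hcon
        exact sub_ne_zero.2 hS.1 (hsep _ hcon)
      refine ⟨fun ω => φ ω * (l ω - l ω'), ?_, ?_, ?_⟩
      · refine mul_ne_zero hφ0 ?_
        rw [map_sub] at hl'
        exact hl'
      · intro ω hω
        rw [Finset.mem_insert] at hω
        rcases hω with rfl | hω
        · simp
        · simp [hφS ω hω]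
      · intro b hb hb0
        set b' : F n →₀ ℚ := Finsupp.onFinset b.support (fun g => b g * φ (δ g)) (by
          intro g hg
          rw [Finsupp.mem_support_iff]
          exact left_ne_zero_of_mul hg) with hb'
        have hb'a : ∀ g, b' g = b g * φ (δ g) := fun g => rfl
        have hs : ∀ f : F n → ℚ → Ω, (∀ g, f g 0 = 0) →
            b'.sum f = ∑ g ∈ b.support, f g (b g * φ (δ g)) := by
          intro f hf
          rw [hb', Finsupp.onFinset_sum _ hf]
        have h1 : b'.sum (fun g c => c • δ g) = 0 := by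
          rw [hs _ (by intro g; simp)]
          exact hφ b hb hb0
        have hbE : ∀ g, b' g ≠ 0 → g ∈ E := by
          intro g hg
          rw [hb'a] at hg
          exact hb g (left_ne_zero_of_mul hg)
        have h2 := hstar b' hbE h1 l hl
        rw [hs _ (by intro g; simp)] at h1 h2
        unfold Finsupp.sum
        have h3 : ∀ g ∈ b.support, (b g * (φ (δ g) * (l (δ g) - l ω'))) • δ g =
            (b g * φ (δ g) * l (δ g)) • δ g - l ω' • ((b g * φ (δ g)) • δ g) := by
          intro g _
          rw [smul_smul, ← sub_smul]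
          congr 1
          ring
        rw [Finset.sum_congr rfl h3, Finset.sum_sub_distrib, h2, ← Finset.smul_sum, h1, smul_zero,
          sub_zero]
  obtain ⟨φ, hφ0, hφS, hφ⟩ := hind ((b.support.image δ).erase ω₀) (Finset.notMem_erase _ _)
  have h1 := hφ b hb hb0
  have h2 : b.sum (fun g c => (c * φ (δ g)) • δ g) =
      (b.sum (fun g c => if δ g = ω₀ then c else 0) * φ ω₀) • ω₀ := by
    unfold Finsupp.sum
    rw [Finset.sum_mul, Finset.sum_smul]
    refine Finset.sum_congr rfl fun g hg => ?_
    beta_reduce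
    split_ifs with h
    · rw [h]
    · rw [hφS (δ g) (Finset.mem_erase.2 ⟨h, Finset.mem_image_of_mem δ hg⟩)]
      simp
  rw [h2] at h1
  rcases smul_eq_zero.1 h1 with h3 | h3
  · exact (mul_eq_zero.1 h3).resolve_right hφ0
  · exact absurd h3 hω₀

end DL
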