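import Pool.Agent.Helper14.DL.St

set_option autoImplicit false

namespace DL

open scoped Classical

/-- boundary of the chain -/
private theorem bdry_A3 {n : ℕ} {I : Type} [Fintype I] {A : Type} [AddCommGroup A]
    (y : I → F n) (ζ : I → F n → A) (w : F n) :
    ∑ a, ((∑ i, (fox a (y i)).sum (fun u m => m • ζ i (w * (gen a)⁻¹ * u⁻¹))) -
      (∑ i, (fox a (y i)).sum (fun u m => m • ζ i (w * u⁻¹)))) =
    ∑ i, (ζ i (w * (y i)⁻¹) - ζ i w) := by
  simp only [← Finset.sum_sub_distrib]
  rw [Finset.sum_comm]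
  refine Finset.sum_congr rfl fun i _ => ?_
  have h1 := path (fun u => ζ i (w * u⁻¹)) (y i)
  simp only [inv_one, mul_one] at h1
  rw [← h1]
  refine Finset.sum_congr rfl fun a _ => ?_
  unfold Finsupp.sum
  rw [← Finset.sum_sub_distrib]
  refine Finset.sum_congr rfl fun u _ => ?_
  beta_reduce
  rw [smul_sub, mul_inv_rev, mul_assoc]

theorem a3 : StA3 := by
  intro n E C Ω _ _ act δ Λ I _ κ y hact hact1 hδ hC hsep hκE hfin hy hGL hk x₀ w₁ u₀
  -- basic facts
  have hyE : ∀ i, y i ∈ E := fun i => ((hC _).1 (hy i)).1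
  have hyδ : ∀ i, δ (y i) = 0 := fun i => ((hC _).1 (hy i)).2
  have hinj : ∀ e ∈ E, ∀ ω, act e ω = 0 → ω = 0 := by
    intro e he ω h
    have h1 := congrArg (fun T => T ω) (hact e⁻¹ (E.inv_mem he) e he)
    simp only [inv_mul_cancel, hact1, LinearMap.comp_apply, LinearMap.id_apply, h, map_zero] at h1
    exact h1
  have hk' : ∀ x w, ∑ i, (fox x (y i)).sum (fun u m => m • κ i (w * u⁻¹)) = 0 := by
    intro x w
    rw [← hk x w]
    simp only [zsmul_eq_mul]
  have hδy : ∀ i w, κ i (w * (y i)⁻¹) ≠ 0 → δ (w * (y i)⁻¹) = δ w := by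
    intro i w h
    have h1 := hδ (w * (y i)⁻¹) (hκE i _ h) (y i) (hyE i)
    rw [inv_mul_cancel_right, hyδ i, map_zero, add_zero] at h1
    exact h1.symm
  set z : Fin n → F n → Ω := fun x w =>
    ∑ i, (fox x (y i)).sum (fun u m => m • (κ i (w * u⁻¹) • δ (w * u⁻¹))) with hz
  -- the boundary of z vanishes
  have hbd : ∀ w, ∑ a, (z a (w * (gen a)⁻¹) - z a w) = 0 := by
    intro w
    have h1 := bdry_A3 y (fun i f => κ i f • δ f) w
    have h2 := bdry_A3 y κ w
    rw [hz]
    refine h1.trans ?_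
    have h3 : ∑ i, (κ i (w * (y i)⁻¹) - κ i w) = 0 := by
      rw [← h2]
      refine Finset.sum_eq_zero fun a _ => ?_
      rw [hk', hk', sub_zero]
    have h4 : ∀ i, (κ i (w * (y i)⁻¹) • δ (w * (y i)⁻¹) - κ i w • δ w) =
        (κ i (w * (y i)⁻¹) - κ i w) • δ w := by
      intro i
      rw [sub_smul]
      by_cases h : κ i (w * (y i)⁻¹) = 0
      · rw [h, zero_smul, zero_smul]
      · rw [hδy i w h]
    rw [Finset.sum_congr rfl (fun i _ => h4 i), ← Finset.sum_smul, h3, zero_smul]
  -- finite support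
  have hfs : ∀ l ∈ Λ, ∀ x, (Function.support (fun w => l (z x w))).Finite := by
    intro l hl x
    set U : Finset (F n) := Finset.univ.biUnion (fun i => (fox x (y i)).support) with hU
    have hT : (⋃ w₀ ∈ U, ⋃ i : I, ⋃ u ∈ U, (fun f' => f' * u) ''
        {f | κ i f ≠ 0 ∧ l (act f (act (w₀ * u⁻¹)⁻¹ (δ (w₀ * u⁻¹)))) ≠ 0}).Finite := by
      refine U.finite_toSet.biUnion fun w₀ _ => Set.finite_iUnion fun i =>
        U.finite_toSet.biUnion fun u _ => Set.Finite.image _ ?_
      exact hfin i l hl _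
    refine hT.subset ?_
    intro w hw
    rw [Function.mem_support] at hw
    -- find w₀
    obtain ⟨w₀, hw₀U, hw₀E⟩ : ∃ w₀ ∈ U, w * w₀⁻¹ ∈ E := by
      by_contra hcon
      push Not at hcon
      apply hw
      have : z x w = 0 := by
        rw [hz]
        refine Finset.sum_eq_zero fun i _ => Finset.sum_eq_zero fun u hu => ?_
        have hu' : u ∈ U := by
          rw [hU, Finset.mem_biUnion]
          exact ⟨i, Finset.mem_univ i, hu⟩
        have h1 : κ i (w * u⁻¹) = 0 := by
          by_contra h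
          exact hcon u hu' (hκE i _ h)
        beta_reduce
        rw [h1, zero_smul, smul_zero]
      rw [this, map_zero]
    set f := w * w₀⁻¹ with hf
    have hterm : ∀ i u, κ i (w * u⁻¹) • δ (w * u⁻¹) =
        κ i (w * u⁻¹) • δ f + κ i (w * u⁻¹) • act f (δ (w₀ * u⁻¹)) := by
      intro i u
      by_cases h : κ i (w * u⁻¹) = 0
      · rw [h, zero_smul, zero_smul, zero_smul, add_zero]
      · rw [← smul_add]
        congr 1
        have h1 : w * u⁻¹ = f * (w₀ * u⁻¹) := by
          rw [hf]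
          group
        have h2 : w₀ * u⁻¹ ∈ E := by
          have : w₀ * u⁻¹ = f⁻¹ * (w * u⁻¹) := by
            rw [hf]
            group
          rw [this]
          exact E.mul_mem (E.inv_mem hw₀E) (hκE i _ h)
        rw [h1, hδ f hw₀E _ h2]
    have hzw : z x w = ∑ i, (fox x (y i)).sum
        (fun u m => m • (κ i (w * u⁻¹) • act f (δ (w₀ * u⁻¹)))) := by
      have h1 : z x w = (∑ i, (fox x (y i)).sum (fun u m => m • κ i (w * u⁻¹))) • δ f +
          ∑ i, (fox x (y i)).sum (fun u m => m • (κ i (w * u⁻¹) • act f (δ (w₀ * u⁻¹)))) := by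
        rw [hz, Finset.sum_smul, ← Finset.sum_add_distrib]
        refine Finset.sum_congr rfl fun i _ => ?_
        unfold Finsupp.sum
        rw [Finset.sum_smul, ← Finset.sum_add_distrib]
        refine Finset.sum_congr rfl fun u _ => ?_
        beta_reduce
        rw [hterm, smul_add, smul_assoc]
      rw [h1, hk', zero_smul, zero_add]
    rw [hzw] at hw
    -- find the nonzero term
    obtain ⟨i, u, hu, h1, h2⟩ : ∃ i, ∃ u ∈ U, κ i (w * u⁻¹) ≠ 0 ∧
        l (act f (δ (w₀ * u⁻¹))) ≠ 0 := by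
      by_contra hcon
      push Not at hcon
      apply hw
      rw [map_sum]
      refine Finset.sum_eq_zero fun i _ => ?_
      unfold Finsupp.sum
      rw [map_sum]
      refine Finset.sum_eq_zero fun u hu => ?_
      have hu' : u ∈ U := by
        rw [hU, Finset.mem_biUnion]
        exact ⟨i, Finset.mem_univ i, hu⟩
      rw [map_zsmul, map_smul]
      by_cases h : κ i (w * u⁻¹) = 0
      · rw [h, zero_smul, smul_zero]
      · rw [hcon i u hu' h, smul_zero, smul_zero]
    simp only [Set.mem_iUnion]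
    refine ⟨w₀, hw₀U, i, u, hu, w * u⁻¹, ⟨h1, ?_⟩, by group⟩
    have he : w₀ * u⁻¹ ∈ E := by
      have : w₀ * u⁻¹ = f⁻¹ * (w * u⁻¹) := by
        rw [hf]
        group
      rw [this]
      exact E.mul_mem (E.inv_mem hw₀E) (hκE i _ h1)
    have h3 : act f = (act (w * u⁻¹)).comp (act (w₀ * u⁻¹)⁻¹) := by
      rw [← hact _ (hκE i _ h1) _ (E.inv_mem he)]
      congr 1
      rw [hf]
      group
    rw [h3] at h2
    exact h2
  -- z vanishes
  have hz0 : ∀ x w, z x w = 0 := by
    intro x w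
    refine hsep _ fun l hl => ?_
    refine tree (fun x w => l (z x w)) (fun a => hfs l hl a) (fun w => ?_) x w
    have := congrArg l (hbd w)
    rw [map_sum, map_zero] at this
    simpa only [map_sub] using this
  -- the finitely supported function
  set b : F n →₀ ℚ := ∑ i, (fox x₀ (y i)).sum
    (fun u m => Finsupp.single (w₁ * u⁻¹) ((m : ℚ) * κ i (w₁ * u⁻¹))) with hb
  have hbsum : ∀ (A : Type) [AddCommGroup A] (H : F n → ℚ →+ A),
      b.sum (fun g c => H g c) = ∑ i, (fox x₀ (y i)).sum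
        (fun u m => H (w₁ * u⁻¹) ((m : ℚ) * κ i (w₁ * u⁻¹))) := by
    intro A _ H
    have h1 : b.sum (fun g c => H g c) = Finsupp.liftAddHom H b :=
      (Finsupp.liftAddHom_apply H b).symm
    rw [h1, hb, map_sum]
    refine Finset.sum_congr rfl fun i _ => ?_
    unfold Finsupp.sum
    rw [map_sum]
    refine Finset.sum_congr rfl fun u _ => ?_
    rw [Finsupp.liftAddHom_apply_single]
  have hbE : ∀ g, b g ≠ 0 → g ∈ E := by
    intro g hg
    by_contra hgE
    apply hg
    rw [hb, Finsupp.finsetSum_apply]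
    refine Finset.sum_eq_zero fun i _ => ?_
    unfold Finsupp.sum
    rw [Finsupp.finsetSum_apply]
    refine Finset.sum_eq_zero fun u _ => ?_
    rw [Finsupp.single_apply]
    split_ifs with h
    · have h1 : κ i (w₁ * u⁻¹) = 0 := by
        by_contra h2
        exact hgE (h ▸ hκE i _ h2)
      rw [h1, mul_zero]
    · rfl
  have hbδ : b.sum (fun g c => c • δ g) = 0 := by
    have h1 := hbsum Ω (fun g => (smulAddHom ℚ Ω).flip (δ g))
    have h2 : b.sum (fun g c => c • δ g) = b.sum (fun g c => (smulAddHom ℚ Ω).flip (δ g) c) := rfl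
    rw [h2, h1, ← hz0 x₀ w₁, hz]
    refine Finset.sum_congr rfl fun i _ => ?_
    unfold Finsupp.sum
    refine Finset.sum_congr rfl fun u _ => ?_
    change ((fox x₀ (y i) u : ℚ) * κ i (w₁ * u⁻¹)) • δ (w₁ * u⁻¹) = _
    rw [mul_smul, Int.cast_smul_eq_zsmul]
  have hb0 : b.sum (fun _ c => c) = 0 := by
    have h1 := hbsum ℚ (fun _ => AddMonoidHom.id ℚ)
    have h2 : b.sum (fun _ c => c) = b.sum (fun g c => (fun _ : F n => AddMonoidHom.id ℚ) g c) := rfl
    rw [h2, h1, ← hk x₀ w₁]
    rfl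
  have hS : ∀ ω : Ω, b.sum (fun g c => if δ g = ω then c else 0) = 0 := by
    intro ω
    by_cases hω : ω = 0
    · subst hω
      have h1 : ∑ ω ∈ insert 0 (b.support.image δ), ∑ g ∈ b.support with δ g = ω, b g =
          ∑ g ∈ b.support, b g :=
        Finset.sum_fiberwise_of_maps_to (fun g hg => Finset.mem_insert_of_mem
          (Finset.mem_image_of_mem δ hg)) _
      have h2 : ∀ ω, ∑ g ∈ b.support with δ g = ω, b g =
          b.sum (fun g c => if δ g = ω then c else 0) := by
        intro ω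
        unfold Finsupp.sum
        rw [Finset.sum_filter]
      rw [Finset.sum_eq_single 0] at h1
      · rw [← h2, h1]
        exact hb0
      · intro ω _ hω
        rw [h2]
        exact hGL b hbE hbδ ω hω
      · intro h
        exact absurd (Finset.mem_insert_self _ _) h
    · exact hGL b hbE hbδ ω hω
  have hS' : ∀ ω : Ω, ∑ i, (fox x₀ (y i)).sum
      (fun u m => if δ (w₁ * u⁻¹) = ω then (m : ℚ) * κ i (w₁ * u⁻¹) else 0) = 0 := by
    intro ω
    have h1 := hbsum ℚ (fun g => if δ g = ω then AddMonoidHom.id ℚ else 0)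
    refine Eq.trans ?_ (hS ω)
    have h2 : b.sum (fun g c => if δ g = ω then c else 0) =
        b.sum (fun g c => (if δ g = ω then AddMonoidHom.id ℚ else 0 : ℚ →+ ℚ) c) := by
      refine Finset.sum_congr rfl fun g _ => ?_
      beta_reduce
      split_ifs <;> rfl
    rw [h2, h1]
    refine Finset.sum_congr rfl fun i _ => Finset.sum_congr rfl fun u _ => ?_
    beta_reduce
    split_ifs <;> rfl
  by_cases hw : w₁ * u₀⁻¹ ∈ E
  · refine Eq.trans ?_ (hS' (δ (w₁ * u₀⁻¹)))
    refine Finset.sum_congr rfl fun i _ => Finset.sum_congr rfl fun u _ => ?_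
    beta_reduce
    by_cases h0 : κ i (w₁ * u⁻¹) = 0
    · rw [h0, mul_zero]
      split_ifs <;> rfl
    · have h1 : w₁ * u⁻¹ ∈ E := hκE i _ h0
      have h2 : u * u₀⁻¹ ∈ E := by
        have : u * u₀⁻¹ = (w₁ * u⁻¹)⁻¹ * (w₁ * u₀⁻¹) := by group
        rw [this]
        exact E.mul_mem (E.inv_mem h1) hw
      have h3 : δ (w₁ * u₀⁻¹) = δ (w₁ * u⁻¹) + act (w₁ * u⁻¹) (δ (u * u₀⁻¹)) := by
        rw [← hδ _ h1 _ h2]
        congr 1
        group
      have h4 : u * u₀⁻¹ ∈ C ↔ δ (w₁ * u⁻¹) = δ (w₁ * u₀⁻¹) := by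
        rw [hC, h3]
        constructor
        · rintro ⟨-, h⟩
          rw [h, map_zero, add_zero]
        · intro h
          exact ⟨h2, hinj _ h1 _ (left_eq_add.1 h)⟩
      simp only [h4]
  · refine Finset.sum_eq_zero fun i _ => Finset.sum_eq_zero fun u _ => ?_
    beta_reduce
    split_ifs with h
    · have h1 : κ i (w₁ * u⁻¹) = 0 := by
        by_contra h2
        apply hw
        have : w₁ * u₀⁻¹ = (w₁ * u⁻¹) * (u * u₀⁻¹) := by group
        rw [this]
        exact E.mul_mem (hκE i _ h2) ((hC _).1 h).1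
      rw [h1, mul_zero]
    · rfl

end DL
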