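import Pool.Agent.Helper14.DL.St

set_option autoImplicit false

namespace DL

open scoped Classical

/-- the action on the field -/
private noncomputable def act_A4 {n : ℕ} {o : BO (F n)} (M : MF o) :
    F n →* MulAut (Multiplicative M.K) where
  toFun g :=
    { toFun := fun y => Multiplicative.ofAdd (M.of g * Multiplicative.toAdd y)
      invFun := fun y => Multiplicative.ofAdd (M.of g⁻¹ * Multiplicative.toAdd y)
      left_inv := by
        intro y
        change Multiplicative.ofAdd (M.of g⁻¹ * (M.of g * Multiplicative.toAdd y)) = y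
        rw [← mul_assoc, ← M.of_mul, inv_mul_cancel, M.of_one, one_mul]
        rfl
      right_inv := by
        intro y
        change Multiplicative.ofAdd (M.of g * (M.of g⁻¹ * Multiplicative.toAdd y)) = y
        rw [← mul_assoc, ← M.of_mul, mul_inv_cancel, M.of_one, one_mul]
        rfl
      map_mul' := by
        intro y z
        change Multiplicative.ofAdd (M.of g * (Multiplicative.toAdd y + Multiplicative.toAdd z)) = _
        rw [mul_add]
        rfl }
  map_one' := by
    ext y
    change Multiplicative.ofAdd (M.of 1 * Multiplicative.toAdd y) = y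
    rw [M.of_one, one_mul]
    rfl
  map_mul' := by
    intro g h
    ext y
    change Multiplicative.ofAdd (M.of (g * h) * Multiplicative.toAdd y) =
      Multiplicative.ofAdd (M.of g * (M.of h * Multiplicative.toAdd y))
    rw [M.of_mul, mul_assoc]

/-- Fox derivatives with respect to a basis of a subgroup -/
private theorem der_A4 {n : ℕ} {o : BO (F n)} (M : MF o) (C : Subgroup (F n)) {ι : Type}
    (B : FreeGroupBasis ι C) (l : ι) : ∃ d : C → M.K,
    (∀ c c', d (c * c') = d c + M.of (c : F n) * d c') ∧ ∀ i, d (B i) = if i = l then 1 else 0 := by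
  set H : C →* SemidirectProduct (Multiplicative M.K) (F n) (act_A4 M) :=
    B.lift (fun i => ⟨Multiplicative.ofAdd (if i = l then 1 else 0), (B i : F n)⟩) with hH
  have hHB : ∀ i, H (B i) = ⟨Multiplicative.ofAdd (if i = l then 1 else 0), (B i : F n)⟩ := by
    intro i
    rw [hH]
    simp
  have hright : ∀ c : C, (H c).right = (c : F n) := by
    have h1 : SemidirectProduct.rightHom.comp H = C.subtype := by
      refine B.ext_hom _ _ fun i => ?_
      change (H (B i)).right = _
      rw [hHB]
      rfl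
    intro c
    exact DFunLike.congr_fun h1 c
  refine ⟨fun c => Multiplicative.toAdd (H c).left, ?_, ?_⟩
  · intro c c'
    beta_reduce
    rw [map_mul, SemidirectProduct.mul_left, hright]
    rfl
  · intro i
    beta_reduce
    rw [hHB]
    rfl

private theorem rep_A4 {n : ℕ} (C : Subgroup (F n)) : ∃ r : F n → F n,
    (∀ g, g * (r g)⁻¹ ∈ C) ∧ (∀ g g', g * g'⁻¹ ∈ C → r g = r g') ∧ r 1 = 1 := by
  set q : F n → F n := fun g => (Quotient.mk (QuotientGroup.rightRel C) g).out with hq
  have hq1 : ∀ g, g * (q g)⁻¹ ∈ C := by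
    intro g
    have h1 : (QuotientGroup.rightRel C) (q g) g := Quotient.mk_out (s := QuotientGroup.rightRel C) g
    exact QuotientGroup.rightRel_apply.1 h1
  have hq2 : ∀ g g', g * g'⁻¹ ∈ C → q g = q g' := by
    intro g g' h
    have h1 : Quotient.mk (QuotientGroup.rightRel C) g = Quotient.mk (QuotientGroup.rightRel C) g' := by
      apply Quotient.sound
      refine (QuotientGroup.rightRel C).symm ?_
      exact QuotientGroup.rightRel_apply.2 h
    rw [hq]
    beta_reduce
    rw [h1]
  refine ⟨fun g => (q 1)⁻¹ * q g, ?_, ?_, ?_⟩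
  · intro g
    have h1 : g * ((q 1)⁻¹ * q g)⁻¹ = (g * (q g)⁻¹) * (1 * (q 1)⁻¹)⁻¹ := by group
    rw [h1]
    exact C.mul_mem (hq1 g) (C.inv_mem (hq1 1))
  · intro g g' h
    beta_reduce
    rw [hq2 g g' h]
  · simp

theorem a4 : StA4 := by
  intro n o M C ι B s κ h l hl
  obtain ⟨d, hdmul, hdB⟩ := der_A4 M C B l
  obtain ⟨r, hr1, hr2, hr3⟩ := rep_A4 C
  have hd1 : d 1 = 0 := by
    have h1 := hdmul 1 1
    rw [mul_one, OneMemClass.coe_one, M.of_one, one_mul] at h1
    exact left_eq_add.1 h1
  set η : F n → M.K := fun g => d ⟨g * (r g)⁻¹, hr1 g⟩ with hη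
  have hηmul : ∀ c (hc : c ∈ C) g, η (c * g) = d ⟨c, hc⟩ + M.of c * η g := by
    intro c hc g
    have h1 : r (c * g) = r g := hr2 _ _ (by
      rw [mul_assoc, mul_inv_cancel, mul_one]
      exact hc)
    rw [hη]
    beta_reduce
    have h2 : (⟨c * g * (r (c * g))⁻¹, hr1 (c * g)⟩ : C) = ⟨c, hc⟩ * ⟨g * (r g)⁻¹, hr1 g⟩ := by
      apply Subtype.ext
      change c * g * (r (c * g))⁻¹ = c * (g * (r g)⁻¹)
      rw [h1, mul_assoc]
    rw [h2, hdmul]
  have hη1 : η 1 = 0 := by
    rw [hη]
    beta_reduce
    have h2 : (⟨1 * (r 1)⁻¹, hr1 1⟩ : C) = 1 := by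
      apply Subtype.ext
      change 1 * (r 1)⁻¹ = 1
      rw [hr3]
      simp
    rw [h2, hd1]
  have hηB : ∀ i, η (B i : F n) = if i = l then 1 else 0 := by
    intro i
    have h1 := hηmul (B i : F n) (B i).2 1
    rw [mul_one, hη1, mul_zero, add_zero] at h1
    rw [h1]
    exact hdB i
  set θ : Fin n → F n → M.K := fun x u => M.of u⁻¹ * (η (u * gen x) - η u) with hθ
  have hθC : ∀ x u u', u * u'⁻¹ ∈ C → θ x u = θ x u' := by
    intro x u u' hu
    have h1 : u = (u * u'⁻¹) * u' := by group
    have h2 : θ x ((u * u'⁻¹) * u') = θ x u' := by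
      rw [hθ]
      beta_reduce
      rw [mul_assoc (u * u'⁻¹) u' (gen x), hηmul _ hu, hηmul _ hu, add_sub_add_left_eq_sub,
        ← mul_sub, ← mul_assoc, ← M.of_mul]
      congr 2
      group
    rw [h1, h2]
  have hθη : ∀ x u, M.of u * θ x u = η (u * gen x) - η u := by
    intro x u
    rw [hθ]
    beta_reduce
    rw [← mul_assoc, ← M.of_mul, mul_inv_cancel, M.of_one, one_mul]
  -- the coefficient
  have hκ : κ l = ∑ i ∈ s, κ i * (η (B i : F n) - η 1) := by
    rw [Finset.sum_eq_single l]
    · rw [hηB, hη1, if_pos rfl, sub_zero, mul_one]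
    · intro i _ hi
      rw [hηB, hη1, if_neg hi, sub_zero, mul_zero]
    · intro h'
      exact absurd hl h'
  rw [hκ]
  have h1 : ∀ i ∈ s, κ i * (η (B i : F n) - η 1) = ∑ x, ∑ u ∈ (fox x (B i : F n)).support,
      (fox x (B i : F n) u) • (κ i * M.of u * θ x u) := by
    intro i _
    rw [← path η (B i : F n), Finset.mul_sum]
    refine Finset.sum_congr rfl fun x _ => ?_
    unfold Finsupp.sum
    rw [Finset.mul_sum]
    refine Finset.sum_congr rfl fun u _ => ?_
    rw [mul_smul_comm, mul_assoc, hθη]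
  rw [Finset.sum_congr rfl h1, Finset.sum_comm]
  refine Finset.sum_eq_zero fun x _ => ?_
  set U : Finset (F n) := s.biUnion (fun i => (fox x (B i : F n)).support) with hU
  have h2 : ∀ i ∈ s, ∑ u ∈ (fox x (B i : F n)).support,
      (fox x (B i : F n) u) • (κ i * M.of u * θ x u) =
      ∑ u ∈ U, (fox x (B i : F n) u) • (κ i * M.of u * θ x u) := by
    intro i hi
    refine Finset.sum_subset ?_ ?_
    · intro u hu
      rw [hU, Finset.mem_biUnion]
      exact ⟨i, hi, hu⟩
    · intro u _ hu
      rw [Finsupp.notMem_support_iff] at hu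
      rw [hu, zero_smul]
  rw [Finset.sum_congr rfl h2, Finset.sum_comm]
  rw [← Finset.sum_fiberwise_of_maps_to (s := U) (t := U.image r) (g := r)
    (fun u hu => Finset.mem_image_of_mem r hu)]
  refine Finset.sum_eq_zero fun v hv => ?_
  obtain ⟨v', hv', hvv⟩ := Finset.mem_image.1 hv
  have hrv : r v = v := by
    rw [← hvv]
    refine (hr2 _ _ ?_).symm
    exact hr1 v'
  have hiff : ∀ u, r u = v ↔ u * v⁻¹ ∈ C := by
    intro u
    constructor
    · rintro rfl
      exact hr1 u
    · intro h'
      rw [hr2 u v h', hrv]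
  have h3 : ∀ u ∈ U.filter (fun u => r u = v), ∑ i ∈ s,
      (fox x (B i : F n) u) • (κ i * M.of u * θ x u) =
      (∑ i ∈ s, (fox x (B i : F n) u) • (κ i * M.of u)) * θ x v := by
    intro u hu
    rw [Finset.mem_filter] at hu
    rw [hθC x u v ((hiff u).1 hu.2), Finset.sum_mul]
    refine Finset.sum_congr rfl fun i _ => ?_
    rw [smul_mul_assoc]
  rw [Finset.sum_congr rfl h3, ← Finset.sum_mul]
  have h4 : ∑ u ∈ U.filter (fun u => r u = v), ∑ i ∈ s,
      (fox x (B i : F n) u) • (κ i * M.of u) = 0 := by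
    apply M.ext'
    intro w
    rw [M.cf_zero, M.cf_sum, ← h x w v]
    have h5 : ∀ u ∈ U.filter (fun u => r u = v),
        M.cf (∑ i ∈ s, (fox x (B i : F n) u) • (κ i * M.of u)) w =
        ∑ i ∈ s, (fox x (B i : F n) u : ℚ) * M.cf (κ i) (w * u⁻¹) := by
      intro u _
      rw [M.cf_sum]
      refine Finset.sum_congr rfl fun i _ => ?_
      have h6 := map_zsmul (M.cfHom w) (fox x (B i : F n) u) (κ i * M.of u)
      change M.cf _ w = _ • M.cf _ w at h6
      rw [h6, M.cf_mul_of, zsmul_eq_mul]
    rw [Finset.sum_congr rfl h5, Finset.sum_comm]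
    refine Finset.sum_congr rfl fun i hi => ?_
    rw [Finset.sum_filter]
    unfold Finsupp.sum
    symm
    refine (Finset.sum_subset (s₂ := U) ?_ ?_).trans ?_
    · intro u hu
      rw [hU, Finset.mem_biUnion]
      exact ⟨i, hi, hu⟩
    · intro u _ hu
      rw [Finsupp.notMem_support_iff] at hu
      rw [hu]
      simp
    · refine Finset.sum_congr rfl fun u _ => ?_
      simp only [hiff u]
  rw [h4, zero_mul]

end DL
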