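import Pool.Agent.Helper14.DL.St

set_option autoImplicit false

namespace DL

open scoped Classical

namespace B1

variable {v : ℕ}

theorem ev_mul (g h : F v) : ev (g * h) = ev g + ev h := by
  unfold ev
  rw [map_mul]
  rfl

theorem ev_one : ev (1 : F v) = 0 := by
  unfold ev
  rw [map_one]
  rfl

theorem ev_inv (g : F v) : ev g⁻¹ = -ev g := by
  have h := ev_mul g⁻¹ g
  rw [inv_mul_cancel, ev_one] at h
  exact eq_neg_of_add_eq_zero_left h.symm

theorem ev_gen (a : Fin v) : ev (gen a) = Pi.single a (1 : ℤ) := by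
  unfold ev
  rw [FreeGroup.lift_apply_of]
  rfl

/-- the exponent sum vector determines the class in the abelianization -/
theorem ab_of_ev {g h : F v} (e : ev g = ev h) : Abelianization.of g = Abelianization.of h := by
  let Ψ : Multiplicative (Fin v → ℤ) →* Abelianization (F v) :=
    { toFun := fun u => ∏ a, (Abelianization.of (gen a)) ^ ((Multiplicative.toAdd u) a)
      map_one' := by simp
      map_mul' := by
        intro u w
        rw [← Finset.prod_mul_distrib]
        refine Finset.prod_congr rfl fun a _ => ?_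
        rw [← zpow_add]
        rfl }
  have key : Ψ.comp (FreeGroup.lift (fun a => Multiplicative.ofAdd (Pi.single a (1 : ℤ))) :
      F v →* Multiplicative (Fin v → ℤ)) = Abelianization.of := by
    apply FreeGroup.ext_hom
    intro a
    rw [MonoidHom.comp_apply, FreeGroup.lift_apply_of]
    change ∏ b, (Abelianization.of (gen b)) ^ ((Pi.single a (1 : ℤ) : Fin v → ℤ) b) = _
    rw [Finset.prod_eq_single a]
    · simp
    · intro b _ hb
      rw [Pi.single_eq_of_ne hb]
      simp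
    · intro h
      exact absurd (Finset.mem_univ a) h
  have h1 : ∀ g : F v, Abelianization.of g = Ψ (Multiplicative.ofAdd (ev g)) := by
    intro g
    rw [← key]
    rfl
  rw [h1 g, h1 h, e]

/-- the map induced by an automorphism on the exponent sum vectors -/
noncomputable def T (θ : MulAut (F v)) : (Fin v → ℤ) →+ (Fin v → ℤ) where
  toFun u := ∑ a, u a • ev (θ (gen a))
  map_zero' := by simp
  map_add' := by
    intro u w
    rw [← Finset.sum_add_distrib]
    refine Finset.sum_congr rfl fun a _ => ?_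
    rw [Pi.add_apply, add_smul]

theorem T_apply (θ : MulAut (F v)) (u : Fin v → ℤ) : T θ u = ∑ a, u a • ev (θ (gen a)) := rfl

theorem T_ev (θ : MulAut (F v)) (g : F v) : T θ (ev g) = ev (θ g) := by
  induction g using FreeGroup.induction_on with
  | C1 => rw [ev_one, map_zero, map_one, ev_one]
  | of b =>
    rw [ev_gen, T_apply, Finset.sum_eq_single b]
    · simp
    · intro a _ hab
      rw [Pi.single_eq_of_ne hab, zero_smul]
    · intro h
      exact absurd (Finset.mem_univ b) h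
  | inv_of b ih =>
    rw [map_inv, ev_inv, ev_inv, map_neg, ih]
  | mul g h ihg ihh =>
    rw [ev_mul, map_add, ihg, ihh, map_mul, ev_mul]

theorem ev_surj (u : Fin v → ℤ) : ∃ g : F v, ev g = u := by
  have h : u ∈ AddSubgroup.closure (Set.range fun a : Fin v => (Pi.single a (1 : ℤ) : Fin v → ℤ)) := by
    have h1 : u = ∑ a, u a • (Pi.single a (1 : ℤ) : Fin v → ℤ) := by
      funext b
      rw [Finset.sum_apply, Finset.sum_eq_single b]
      · simp
      · intro a _ hab
        rw [Pi.smul_apply, Pi.single_eq_of_ne (Ne.symm hab), smul_zero]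
      · intro h
        exact absurd (Finset.mem_univ b) h
    rw [h1]
    refine AddSubgroup.sum_mem _ fun a _ => ?_
    exact AddSubgroup.zsmul_mem _ (AddSubgroup.subset_closure (Set.mem_range_self a)) (u a)
  induction h using AddSubgroup.closure_induction with
  | mem x hx =>
    obtain ⟨a, rfl⟩ := hx
    exact ⟨gen a, ev_gen a⟩
  | zero => exact ⟨1, ev_one⟩
  | add x y _ _ hx hy =>
    obtain ⟨g, rfl⟩ := hx
    obtain ⟨h, rfl⟩ := hy
    exact ⟨g * h, ev_mul g h⟩
  | neg x _ hx =>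
    obtain ⟨g, rfl⟩ := hx
    exact ⟨g⁻¹, ev_inv g⟩

theorem T_mul (θ η : MulAut (F v)) (u : Fin v → ℤ) : T (θ * η) u = T θ (T η u) := by
  obtain ⟨g, rfl⟩ := ev_surj u
  rw [T_ev, T_ev, T_ev]
  rfl

theorem T_one (u : Fin v → ℤ) : T (1 : MulAut (F v)) u = u := by
  obtain ⟨g, rfl⟩ := ev_surj u
  rw [T_ev]
  rfl

theorem T_inv_T (θ : MulAut (F v)) (u : Fin v → ℤ) : T θ⁻¹ (T θ u) = u := by
  rw [← T_mul, inv_mul_cancel, T_one]

theorem T_T_inv (θ : MulAut (F v)) (u : Fin v → ℤ) : T θ (T θ⁻¹ u) = u := by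
  rw [← T_mul, mul_inv_cancel, T_one]

theorem exists_phi (v : ℕ) : ∃ φ : (Fin v → ℤ) →+ ℝ, Function.Injective φ := by
  obtain ⟨t, ht⟩ : ∃ t : ℝ, Transcendental ℤ t :=
    ⟨_, transcendental_liouvilleNumber (m := 2) le_rfl⟩
  let φ : (Fin v → ℤ) →+ ℝ :=
    { toFun := fun u => ∑ a, (u a : ℝ) * t ^ (a : ℕ)
      map_zero' := by simp
      map_add' := by
        intro u w
        rw [← Finset.sum_add_distrib]
        refine Finset.sum_congr rfl fun a _ => ?_
        rw [Pi.add_apply]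
        push_cast
        ring }
  refine ⟨φ, ?_⟩
  rw [injective_iff_map_eq_zero]
  intro u hu
  change ∑ a, (u a : ℝ) * t ^ (a : ℕ) = 0 at hu
  set p : Polynomial ℤ := ∑ a, Polynomial.C (u a) * Polynomial.X ^ (a : ℕ) with hpdef
  have hp : Polynomial.aeval t p = 0 := by
    rw [hpdef, map_sum, ← hu]
    refine Finset.sum_congr rfl fun a _ => ?_
    simp
  have hp0 : p = 0 := by
    by_contra hne
    exact ht ⟨p, hne, hp⟩
  funext a
  have h1 : p.coeff (a : ℕ) = u a := by
    rw [hpdef, Polynomial.finsetSum_coeff, Finset.sum_eq_single a]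
    · simp
    · intro b _ hb
      rw [Polynomial.coeff_C_mul_X_pow, if_neg]
      intro h
      exact hb (Fin.ext h).symm
    · intro h
      exact absurd (Finset.mem_univ a) h
  rw [← h1, hp0]
  simp

/-- first the additive character, then the old order -/
noncomputable def ord0 (φ : (Fin v → ℤ) →+ ℝ) (hφ : Function.Injective φ) (o : BO (F v)) :
    BO (F v) where
  lt g h := φ (ev g) < φ (ev h) ∨ (ev g = ev h ∧ o.lt g h)
  irr := by
    intro a h
    rcases h with h | h
    · exact lt_irrefl _ h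
    · exact o.irr _ h.2
  tr := by
    intro a b c h1 h2
    rcases h1 with h1 | ⟨e1, h1⟩
    · rcases h2 with h2 | ⟨e2, h2⟩
      · exact Or.inl (lt_trans h1 h2)
      · exact Or.inl (by rw [← e2]; exact h1)
    · rcases h2 with h2 | ⟨e2, h2⟩
      · exact Or.inl (by rw [e1]; exact h2)
      · exact Or.inr ⟨e1.trans e2, o.tr _ _ _ h1 h2⟩
  tri := by
    intro a b
    rcases lt_trichotomy (φ (ev a)) (φ (ev b)) with h | h | h
    · exact Or.inl (Or.inl h)
    · have e := hφ h
      rcases o.tri a b with h | h | h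
      · exact Or.inl (Or.inr ⟨e, h⟩)
      · exact Or.inr (Or.inl h)
      · exact Or.inr (Or.inr (Or.inr ⟨e.symm, h⟩))
    · exact Or.inr (Or.inr (Or.inl h))
  ml := by
    intro c a b h
    rw [ev_mul, ev_mul, map_add, map_add]
    rcases h with h | ⟨e, h⟩
    · exact Or.inl (by linarith)
    · exact Or.inr ⟨by rw [e], o.ml _ _ _ h⟩
  mr := by
    intro c a b h
    rw [ev_mul, ev_mul, map_add, map_add]
    rcases h with h | ⟨e, h⟩
    · exact Or.inl (by linarith)
    · exact Or.inr ⟨by rw [e], o.mr _ _ _ h⟩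

/-- the order transported by an automorphism -/
def tw (θ : MulAut (F v)) (o : BO (F v)) : BO (F v) where
  lt a b := o.lt (θ⁻¹ a) (θ⁻¹ b)
  irr a := o.irr _
  tr a b c := o.tr _ _ _
  tri a b := by
    rcases o.tri (θ⁻¹ a) (θ⁻¹ b) with h | h | h
    · exact Or.inl h
    · exact Or.inr (Or.inl (θ⁻¹.injective h))
    · exact Or.inr (Or.inr h)
  ml c a b h := by
    rw [map_mul, map_mul]
    exact o.ml _ _ _ h
  mr c a b h := by
    rw [map_mul, map_mul]
    exact o.mr _ _ _ h

/-- relabelled series -/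
theorem relabel (θ : MulAut (F v)) (o : BO (F v)) (M : MF o) (M' : MF (tw θ o)) (c : M.K) :
    ∃ c' : M'.K, ∀ g, M'.cf c' (θ g) = M.cf c g := by
  have hwf : (Function.support (fun g => M.cf c (θ⁻¹ g))).WellFoundedOn (tw θ o).lt := by
    have h := M.wf c
    rw [Set.wellFoundedOn_iff] at h ⊢
    exact InvImage.wf (fun g => θ⁻¹ g) h
  obtain ⟨c', hc'⟩ := M'.ex _ hwf
  refine ⟨c', fun g => ?_⟩
  rw [hc']
  simp

/-- the elements with periodic exponent sum vector -/
def per (θ : MulAut (F v)) : Subgroup (F v) where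
  carrier := {g | ∃ m, 1 ≤ m ∧ T (θ ^ m) (ev g) = ev g}
  one_mem' := ⟨1, le_rfl, by rw [ev_one, map_zero]⟩
  mul_mem' := by
    rintro a b ⟨m, hm, ha⟩ ⟨k, hk, hb⟩
    have hpow : ∀ (n : ℕ) (u : Fin v → ℤ), T (θ ^ n) u = u → ∀ l : ℕ, T (θ ^ (n * l)) u = u := by
      intro n u hu l
      induction l with
      | zero => rw [mul_zero, pow_zero, T_one]
      | succ l ih => rw [mul_add, mul_one, pow_add, T_mul, hu, ih]
    refine ⟨m * k, Nat.one_le_iff_ne_zero.mpr (by positivity), ?_⟩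
    rw [ev_mul, map_add, hpow m _ ha k]
    rw [mul_comm m k, hpow k _ hb m]
  inv_mem' := by
    rintro a ⟨m, hm, ha⟩
    exact ⟨m, hm, by rw [ev_inv, map_neg, ha]⟩

theorem mem_per {θ : MulAut (F v)} {g : F v} :
    g ∈ per θ ↔ ∃ m, 1 ≤ m ∧ T (θ ^ m) (ev g) = ev g := Iff.rfl

/-- bounded orbits are periodic -/
theorem per_of_bdd (θ : MulAut (F v)) (g : F v) (B : ℤ)
    (h : ∀ j : ℕ, ∀ a, |ev ((θ ^ j) g) a| ≤ B) : g ∈ per θ := by
  have hfin : (Set.univ.pi fun _ : Fin v => Set.Icc (-B) B).Finite :=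
    Set.Finite.pi' (fun _ => Set.finite_Icc _ _) |>.subset (by
      intro u hu a
      exact hu a (Set.mem_univ a))
  have hni : ¬ Function.Injective (fun j : ℕ => ev ((θ ^ j) g)) := by
    intro hinj
    refine Set.infinite_of_injective_forall_mem hinj (s := Set.univ.pi fun _ : Fin v => Set.Icc (-B) B)
      ?_ hfin
    intro j a _
    exact abs_le.mp (h j a)
  have hex : ∃ j k : ℕ, j < k ∧ ev ((θ ^ j) g) = ev ((θ ^ k) g) := by
    unfold Function.Injective at hni
    push Not at hni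
    obtain ⟨j, k, e, hne⟩ := hni
    rcases lt_or_gt_of_ne hne with hlt | hlt
    · exact ⟨j, k, hlt, e⟩
    · exact ⟨k, j, hlt, e.symm⟩
  obtain ⟨j, k, hjk, e⟩ := hex
  refine ⟨k - j, by omega, ?_⟩
  have hk : k = j + (k - j) := by omega
  rw [← T_ev, ← T_ev, hk, pow_add, T_mul] at e
  have e2 := congrArg (T (θ ^ j)⁻¹) e
  rw [T_inv_T, T_inv_T] at e2
  exact e2.symm

end B1

open B1 in
theorem b1 (h1 : StMNF) (h2 : StMord) (he : StEq) (ha : StB1a) (hb : StB1b) (hg : StG)
    (hs : StBas) : StB1 := by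
  intro v L hL hmin θ hθ
  obtain ⟨x, hxL, hxind⟩ := hs v L hL
  obtain ⟨φ, hφ⟩ := exists_phi v
  obtain ⟨oM, -⟩ := h2 v
  set o : BO (F v) := ord0 φ hφ oM with ho
  have hoj : ∀ j : ℕ, Nonempty (MF (tw (θ ^ j) o)) := fun j => h1 _ _
  obtain ⟨M⟩ := h1 (F v) o
  let Mj : ∀ j : ℕ, MF (tw (θ ^ j) o) := fun j => (hoj j).some
  -- powers of θ fix L
  have hfix : ∀ j : ℕ, ∀ y ∈ L, (θ ^ j) y = y := by
    intro j y hy
    induction j with
    | zero => rfl
    | succ j ih =>
      rw [pow_succ, MulAut.mul_apply, hθ y hy, ih]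
  -- the main claim
  have hmain : ∀ y ∈ L, ∃ c : Fin v → M.K, nab M y = ∑ i, c i • nab M (x i) ∧
      ∀ i, c i ∈ M.sub (per θ) := by
    intro y hy
    have hspan : Submodule.span M.K (Set.range fun i => nab M (x i)) = ⊤ := by
      apply (hxind o M).span_eq_top_of_card_eq_finrank'
      simp
    have hyspan : nab M y ∈ Submodule.span M.K (Set.range fun i => nab M (x i)) := by
      rw [hspan]
      trivial
    obtain ⟨c, hc⟩ := (Submodule.mem_span_range_iff_exists_fun M.K).mp hyspan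
    refine ⟨c, hc.symm, fun i => ?_⟩
    obtain ⟨d, hd⟩ := ha v x y
    rw [MF.mem_sub]
    intro g hgne
    -- relabelled coefficients
    have hc' : ∀ j : ℕ, ∃ c' : Fin v → (Mj j).K, ∀ i g, (Mj j).cf (c' i) ((θ ^ j) g) = M.cf (c i) g := by
      intro j
      choose c' hc' using fun i => relabel (θ ^ j) o M (Mj j) (c i)
      exact ⟨c', hc'⟩
    choose c' hc' using hc'
    have heq : ∀ j, nab (Mj j) y = ∑ i, c' j i • nab (Mj j) (x i) := by
      intro j
      refine he v o (tw (θ ^ j) o) M (Mj j) (θ ^ j) ?_ x y (fun i => hfix j _ (hxL i)) (hfix j y hy)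
        c (c' j) (hc' j) hc.symm
      intro a b
      change _ ↔ o.lt ((θ ^ j)⁻¹ ((θ ^ j) a)) ((θ ^ j)⁻¹ ((θ ^ j) b))
      rw [MulAut.inv_apply_self, MulAut.inv_apply_self]
    -- the number of smaller elements
    set A : Set (Fin v → ℤ) := {u | (∃ h, M.cf (c i) h ≠ 0 ∧ ev h = u) ∧ φ u < φ (ev g)} with hA
    apply per_of_bdd θ g (2 * d * (1 + A.ncard))
    intro j
    obtain ⟨Q, hQ0, hQ1, hQ2⟩ := hd _ (Mj j) (hxind _ (Mj j)) (c' j) (heq j)
    have hφj : Function.Injective (φ.comp (T (θ ^ j)⁻¹)) := by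
      intro u w huw
      have h3 : T (θ ^ j)⁻¹ u = T (θ ^ j)⁻¹ w := hφ huw
      rw [← T_T_inv (θ ^ j) u, h3, T_T_inv]
    have hlt : ∀ g h, (φ.comp (T (θ ^ j)⁻¹)) (ev g) < (φ.comp (T (θ ^ j)⁻¹)) (ev h) →
        (tw (θ ^ j) o).lt g h := by
      intro g h hgh
      rw [AddMonoidHom.comp_apply, AddMonoidHom.comp_apply, T_ev, T_ev] at hgh
      exact Or.inl hgh
    have hgj : (Mj j).cf (c' j i) ((θ ^ j) g) ≠ 0 := by
      rw [hc']
      exact hgne
    obtain ⟨-, hbd⟩ := hb v d (tw (θ ^ j) o) (Mj j) (φ.comp (T (θ ^ j)⁻¹)) hφj hlt Q (c' j i) hQ0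
      hQ1 (hQ2 i) ((θ ^ j) g) hgj
    have hset : {u | (∃ h, (Mj j).cf (c' j i) h ≠ 0 ∧ ev h = u) ∧
        (φ.comp (T (θ ^ j)⁻¹)) u < (φ.comp (T (θ ^ j)⁻¹)) (ev ((θ ^ j) g))} =
        (fun u => T (θ ^ j) u) '' A := by
      ext u
      constructor
      · rintro ⟨⟨h, hh1, hh2⟩, hu⟩
        refine ⟨T (θ ^ j)⁻¹ u, ⟨⟨(θ ^ j)⁻¹ h, ?_, ?_⟩, ?_⟩, T_T_inv _ _⟩
        · rw [← hc' j, MulAut.apply_inv_self]
          exact hh1
        · rw [← hh2, T_ev]
        · rw [AddMonoidHom.comp_apply, AddMonoidHom.comp_apply, ← T_ev (θ ^ j) g, T_inv_T] at hu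
          exact hu
      · rintro ⟨w, ⟨⟨h, hh1, hh2⟩, hu⟩, rfl⟩
        refine ⟨⟨(θ ^ j) h, ?_, ?_⟩, ?_⟩
        · rw [hc']
          exact hh1
        · change ev ((θ ^ j) h) = T (θ ^ j) w
          rw [← hh2, T_ev]
        · change φ (T (θ ^ j)⁻¹ (T (θ ^ j) w)) < φ (T (θ ^ j)⁻¹ (ev ((θ ^ j) g)))
          rw [T_inv_T, ← T_ev (θ ^ j) g, T_inv_T]
          exact hu
    rw [hset, Set.ncard_image_of_injective] at hbd
    · intro a
      exact hbd a
    · intro u w huw
      have h3 := congrArg (T (θ ^ j)⁻¹) huw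
      simp only [T_inv_T] at h3
      exact h3
  have htop : per θ = ⊤ := by
    refine hg v L (per θ) ?_ hL hmin o M x hxL (hxind o M) hmain
    intro y hy
    refine ⟨1, le_rfl, ?_⟩
    rw [T_ev, hfix 1 y hy]
  have hgen : ∀ a : Fin v, ∃ m, 1 ≤ m ∧ T (θ ^ m) (ev (gen a)) = ev (gen a) := by
    intro a
    have : gen a ∈ per θ := by
      rw [htop]
      trivial
    exact this
  choose m hm1 hm2 using hgen
  have hpow : ∀ (n : ℕ) (u : Fin v → ℤ), T (θ ^ n) u = u → ∀ l : ℕ, T (θ ^ (n * l)) u = u := by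
    intro n u hu l
    induction l with
    | zero => rw [mul_zero, pow_zero, T_one]
    | succ l ih => rw [mul_add, mul_one, pow_add, T_mul, hu, ih]
  refine ⟨∏ a, m a, Nat.one_le_iff_ne_zero.mpr (Finset.prod_ne_zero_iff.mpr fun a _ => by
    have := hm1 a
    omega), ?_⟩
  intro y
  apply ab_of_ev
  have hall : ∀ y : F v, T (θ ^ (∏ a, m a)) (ev y) = ev y := by
    intro y
    induction y using FreeGroup.induction_on with
    | C1 => rw [ev_one, map_zero]
    | of b =>
      obtain ⟨l, hl⟩ := Finset.dvd_prod_of_mem m (Finset.mem_univ b)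
      rw [hl]
      exact hpow _ _ (hm2 b) l
    | inv_of b ih => rw [ev_inv, map_neg, ih]
    | mul g h ihg ihh => rw [ev_mul, map_add, ihg, ihh]
  rw [← T_ev, hall]

end DL
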