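import Pool.Agent.Helper14.DL.St

set_option autoImplicit false

/-!
Module B1a of project DL: the uniform Ore representation.
-/

namespace DL

open scoped Classical

section B1a

variable {v : ℕ}

private theorem ev_mul_B1a (g h : F v) : ev (g * h) = ev g + ev h := by
  unfold ev
  rw [map_mul]
  rfl

private theorem ev_inv_B1a (g : F v) : ev g⁻¹ = -ev g := by
  unfold ev
  rw [map_inv]
  rfl

private theorem ev_one_B1a : ev (1 : F v) = 0 := by
  unfold ev
  rw [map_one]
  rfl

private theorem ev_gen_B1a (a : Fin v) : ev (gen a) = Pi.single a 1 := by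
  unfold ev
  rw [FreeGroup.lift_apply_of]
  rfl

/-- `ev` as a homomorphism -/
private noncomputable def evh (v : ℕ) : F v →* Multiplicative (Fin v → ℤ) :=
  FreeGroup.lift (fun a => Multiplicative.ofAdd (Pi.single a (1 : ℤ)))

private theorem ev_surj_B1a : Function.Surjective (ev : F v → (Fin v → ℤ)) := by
  intro u
  have h : ∀ z : Fin v → ℤ, Multiplicative.ofAdd z ∈ (evh v).range := by
    intro z
    have hz : z = ∑ a, Pi.single a (z a) := by
      rw [Finset.univ_sum_single]
    rw [hz, ofAdd_sum]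
    refine Subgroup.prod_mem _ fun a _ => ?_
    have h1 : Multiplicative.ofAdd (Pi.single a (z a) : Fin v → ℤ) =
        (Multiplicative.ofAdd (Pi.single a (1 : ℤ) : Fin v → ℤ)) ^ (z a) := by
      rw [← ofAdd_zsmul]
      congr 1
      funext b
      by_cases hb : b = a
      · subst hb
        simp
      · simp [hb]
    rw [h1]
    refine Subgroup.zpow_mem _ ?_ _
    exact ⟨gen a, by unfold evh; rw [FreeGroup.lift_apply_of]⟩
  obtain ⟨g, hg⟩ := h u
  exact ⟨g, by
    unfold ev
    change Multiplicative.toAdd (evh v g) = u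
    rw [hg]
    rfl⟩

/-- representative -/
private noncomputable def rp (u : Fin v → ℤ) : F v := Function.surjInv ev_surj_B1a u

private theorem ev_rp (u : Fin v → ℤ) : ev (rp u) = u := Function.surjInv_eq ev_surj_B1a u

/-- the kernel -/
private def ke (v : ℕ) : Subgroup (F v) where
  carrier := {g | ev g = 0}
  mul_mem' := by
    intro a b ha hb
    simp only [Set.mem_ofPred_eq] at *
    rw [ev_mul_B1a, ha, hb, add_zero]
  one_mem' := ev_one_B1a
  inv_mem' := by
    intro a ha
    simp only [Set.mem_ofPred_eq] at *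
    rw [ev_inv_B1a, ha, neg_zero]

private theorem mem_ke {g : F v} : g ∈ ke v ↔ ev g = 0 := Iff.rfl

/-- box -/
private noncomputable def bX (v d : ℕ) : Finset (Fin v → ℤ) := Fintype.piFinset (fun _ => Finset.Icc (-(d : ℤ)) d)

private theorem mem_bX {d : ℕ} {u : Fin v → ℤ} : u ∈ bX v d ↔ ∀ a, |u a| ≤ (d : ℤ) := by
  unfold bX
  rw [Fintype.mem_piFinset]
  simp only [Finset.mem_Icc, abs_le]

private theorem card_bX (d : ℕ) : (bX v d).card = (2 * d + 1) ^ v := by
  unfold bX
  rw [Fintype.card_piFinset]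
  simp only [Int.card_Icc, Finset.prod_const, Finset.card_univ, Fintype.card_fin]
  congr 1
  omega

variable {o : BO (F v)} (M : MF o)

/-- restriction of the support to exponent vector `μ` -/
private noncomputable def rs (μ : Fin v → ℤ) (a : M.K) : M.K :=
  Classical.choose (M.restrict_ex a {g | ev g = μ})

private theorem cf_rs (μ : Fin v → ℤ) (a : M.K) (g : F v) :
    M.cf (rs M μ a) g = if ev g = μ then M.cf a g else 0 := by
  have h := Classical.choose_spec (M.restrict_ex a {g | ev g = μ}) g
  change M.cf (rs M μ a) g = _ at h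
  rw [h]
  by_cases hg : ev g = μ
  · rw [if_pos hg, if_pos (show g ∈ {g | ev g = μ} from hg)]
  · rw [if_neg hg, if_neg (show g ∉ {g | ev g = μ} from hg)]

/-- component, as an element of `K_0` -/
private noncomputable def cp (μ : Fin v → ℤ) : M.K →ₗ[M.sub (ke v)] (M.sub (ke v)) where
  toFun a := ⟨rs M μ a * M.of (rp μ)⁻¹, by
    rw [M.mem_sub]
    intro g hg
    rw [M.cf_mul_of, inv_inv, cf_rs] at hg
    rw [mem_ke]
    by_contra hne
    apply hg
    rw [if_neg]
    intro h
    rw [ev_mul_B1a, ev_rp] at h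
    exact hne (by simpa using h)⟩
  map_add' a b := by
    apply Subtype.ext
    apply M.ext'
    intro g
    change M.cf (rs M μ (a + b) * M.of (rp μ)⁻¹) g =
      M.cf (rs M μ a * M.of (rp μ)⁻¹ + rs M μ b * M.of (rp μ)⁻¹) g
    rw [M.add, M.cf_mul_of, M.cf_mul_of, M.cf_mul_of, cf_rs, cf_rs, cf_rs]
    split_ifs
    · rw [M.add]
    · rw [add_zero]
  map_smul' κ a := by
    apply Subtype.ext
    change rs M μ ((κ : M.K) * a) * M.of (rp μ)⁻¹ = (κ : M.K) * (rs M μ a * M.of (rp μ)⁻¹)
    rw [← mul_assoc]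
    congr 1
    apply M.ext'
    intro p
    rw [cf_rs, M.mul, M.mul]
    have hκ : ∀ f, M.cf (κ : M.K) f ≠ 0 → ev f = 0 := fun f hf => κ.2 f hf
    by_cases hp : ev p = μ
    · rw [if_pos hp]
      apply finsum_congr
      intro f
      rw [cf_rs]
      by_cases hf : M.cf (κ : M.K) f = 0
      · rw [hf, zero_mul, zero_mul]
      · have h1 : ev (f⁻¹ * p) = μ := by
          rw [ev_mul_B1a, ev_inv_B1a, hκ f hf, hp, neg_zero, zero_add]
        rw [if_pos h1]
    · rw [if_neg hp]
      symm
      apply finsum_eq_zero_of_forall_eq_zero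
      intro f
      rw [cf_rs]
      by_cases hf : M.cf (κ : M.K) f = 0
      · rw [hf, zero_mul]
      · have h1 : ev (f⁻¹ * p) ≠ μ := by
          rw [ev_mul_B1a, ev_inv_B1a, hκ f hf, neg_zero, zero_add]
          exact hp
        rw [if_neg h1, mul_zero]

private theorem cp_apply (μ : Fin v → ℤ) (a : M.K) :
    ((cp M μ a : M.sub (ke v)) : M.K) = rs M μ a * M.of (rp μ)⁻¹ := rfl

/-- series with exponents in a finite set, from coefficients in `K_0` -/
private noncomputable def sr (B : Finset (Fin v → ℤ)) : (B → M.sub (ke v)) →ₗ[M.sub (ke v)] M.K where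
  toFun k := ∑ u : B, (k u : M.K) * M.of (rp (u : Fin v → ℤ))
  map_add' k l := by
    rw [← Finset.sum_add_distrib]
    refine Finset.sum_congr rfl fun u _ => ?_
    rw [Pi.add_apply]
    push_cast
    rw [add_mul]
  map_smul' κ k := by
    change _ = (κ : M.K) * _
    rw [Finset.mul_sum]
    refine Finset.sum_congr rfl fun u _ => ?_
    rw [Pi.smul_apply]
    change (κ : M.K) * (k u : M.K) * _ = _
    rw [mul_assoc]

private theorem sr_apply (B : Finset (Fin v → ℤ)) (k : B → M.sub (ke v)) :
    sr M B k = ∑ u : B, (k u : M.K) * M.of (rp (u : Fin v → ℤ)) := rfl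

private theorem sr_supp (B : Finset (Fin v → ℤ)) (k : B → M.sub (ke v)) (g : F v)
    (hg : M.cf (sr M B k) g ≠ 0) : ev g ∈ B := by
  by_contra hne
  apply hg
  rw [sr_apply, M.cf_sum]
  apply Finset.sum_eq_zero
  intro u _
  rw [M.cf_mul_of]
  by_contra h
  have h1 := (k u).2 _ h
  rw [mem_ke, ev_mul_B1a, ev_inv_B1a, ev_rp] at h1
  apply hne
  rw [show ev g = (u : Fin v → ℤ) from by
    rw [← sub_eq_zero, sub_eq_add_neg]
    exact h1]
  exact u.2

private theorem sr_inj (B : Finset (Fin v → ℤ)) (k : B → M.sub (ke v)) (h : sr M B k = 0) : k = 0 := by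
  funext u
  have h1 : rs M (u : Fin v → ℤ) (sr M B k) = (k u : M.K) * M.of (rp (u : Fin v → ℤ)) := by
    apply M.ext'
    intro g
    rw [cf_rs, sr_apply, M.cf_sum]
    have h2 : ∀ w : B, w ≠ u → ev g = (u : Fin v → ℤ) →
        M.cf ((k w : M.K) * M.of (rp (w : Fin v → ℤ))) g = 0 := by
      intro w hw hg
      rw [M.cf_mul_of]
      by_contra hne
      have h3 := (k w).2 _ hne
      rw [mem_ke, ev_mul_B1a, ev_inv_B1a, ev_rp, hg] at h3
      apply hw
      apply Subtype.ext
      have h4 : (u : Fin v → ℤ) - (w : Fin v → ℤ) = 0 := by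
        rw [sub_eq_add_neg]
        exact h3
      exact (sub_eq_zero.mp h4).symm
    by_cases hg : ev g = (u : Fin v → ℤ)
    · rw [if_pos hg]
      exact Finset.sum_eq_single u (fun w _ hw => h2 w hw hg) (fun h => absurd (Finset.mem_univ u) h)
    · rw [if_neg hg, M.cf_mul_of]
      by_contra hne
      have h3 := (k u).2 _ (Ne.symm hne)
      rw [mem_ke, ev_mul_B1a, ev_inv_B1a, ev_rp] at h3
      apply hg
      rw [← sub_eq_zero, sub_eq_add_neg]
      exact h3
  rw [h] at h1
  have h5 : rs M (u : Fin v → ℤ) (0 : M.K) = 0 := by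
    apply M.ext'
    intro g
    rw [cf_rs, M.cf_zero, ite_self]
  rw [h5] at h1
  have h6 : (k u : M.K) = 0 := by
    have h7 : (k u : M.K) * M.of (rp (u : Fin v → ℤ)) * M.of (rp (u : Fin v → ℤ))⁻¹ = 0 := by
      rw [← h1, zero_mul]
    rwa [mul_assoc, ← M.of_mul, mul_inv_cancel, M.of_one, mul_one] at h7
  exact Subtype.ext h6

/-- the growth inequality -/
private theorem growth (v d0 : ℕ) : ∃ d : ℕ, d0 ≤ d ∧
    v * (2 * (d + d0) + 1) ^ v < (v + 1) * (2 * d + 1) ^ v := by
  have key : ∀ n : ℕ, ∃ T : ℕ, ∀ m : ℕ, T ≤ m → v * (m + 2 * d0) ^ n < (v + 1) * m ^ n := by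
    -- by continuity: ratio tends to one
    intro n
    have h1 : Filter.Tendsto (fun m : ℕ => (1 + (2 * d0 : ℝ) / (m : ℝ)) ^ n) Filter.atTop
        (nhds ((1 + 0) ^ n)) := by
      apply Filter.Tendsto.pow
      apply Filter.Tendsto.add tendsto_const_nhds
      exact tendsto_const_div_atTop_nhds_zero_nat _
    have h2 : Filter.Tendsto (fun m : ℕ => (v : ℝ) * (1 + (2 * d0 : ℝ) / (m : ℝ)) ^ n) Filter.atTop
        (nhds ((v : ℝ) * (1 + 0) ^ n)) := h1.const_mul _
    have h3 : (v : ℝ) * (1 + 0) ^ n < (v : ℝ) + 1 := by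
      rw [add_zero, one_pow, mul_one]
      linarith
    have h4 := h2.eventually (gt_mem_nhds h3)
    obtain ⟨T, hT⟩ := (h4.and (Filter.eventually_ge_atTop 1)).exists_forall_of_atTop
    refine ⟨T, fun m hm => ?_⟩
    obtain ⟨h5, h6⟩ := hT m hm
    have hm0 : (0 : ℝ) < (m : ℝ) := by exact_mod_cast h6
    have h7 : ((m : ℝ) + 2 * d0) ^ n = (m : ℝ) ^ n * (1 + (2 * d0 : ℝ) / (m : ℝ)) ^ n := by
      rw [← mul_pow]
      congr 1
      field_simp
    have h8 : (v : ℝ) * ((m : ℝ) + 2 * d0) ^ n < ((v : ℝ) + 1) * (m : ℝ) ^ n := by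
      rw [h7]
      have h9 : (0 : ℝ) < (m : ℝ) ^ n := by positivity
      nlinarith
    exact_mod_cast h8
  obtain ⟨T, hT⟩ := key v
  refine ⟨T + d0, by omega, ?_⟩
  have h := hT (2 * (T + d0) + 1) (by omega)
  have e : 2 * (T + d0) + 1 + 2 * d0 = 2 * (T + d0 + d0) + 1 := by ring
  rw [e] at h
  exact h

/-- right multiplication -/
private noncomputable def rm (r : M.K) : M.K →ₗ[M.sub (ke v)] M.K where
  toFun x := x * r
  map_add' a b := add_mul a b r
  map_smul' κ a := smul_mul_assoc κ a r

private theorem rm_apply (r x : M.K) : rm M r x = x * r := rfl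

end B1a

theorem b1a : StB1a := by
  intro v x y
  -- the box of the Fox derivatives
  obtain ⟨d0, hd0x, hd0y⟩ : ∃ d0 : ℕ, (∀ i a g, fox a (x i) g ≠ 0 → ∀ b, |ev g b| ≤ (d0 : ℤ)) ∧
      (∀ a g, fox a y g ≠ 0 → ∀ b, |ev g b| ≤ (d0 : ℤ)) := by
    let S : Finset (F v) := (Finset.univ.biUnion fun i : Fin v => Finset.univ.biUnion fun a : Fin v =>
      (fox a (x i)).support) ∪ (Finset.univ.biUnion fun a : Fin v => (fox a y).support)
    refine ⟨S.sup (fun g => Finset.univ.sup fun b => (ev g b).natAbs), ?_, ?_⟩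
    · intro i a g hg b
      have hgS : g ∈ S := by
        refine Finset.mem_union_left _ (Finset.mem_biUnion.mpr ⟨i, Finset.mem_univ i,
          Finset.mem_biUnion.mpr ⟨a, Finset.mem_univ a, ?_⟩⟩)
        exact Finsupp.mem_support_iff.mpr hg
      have h1 : (ev g b).natAbs ≤ Finset.univ.sup fun b => (ev g b).natAbs :=
        Finset.le_sup (f := fun b => (ev g b).natAbs) (Finset.mem_univ b)
      have h2 : (Finset.univ.sup fun b => (ev g b).natAbs) ≤
          S.sup (fun g => Finset.univ.sup fun b => (ev g b).natAbs) :=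
        Finset.le_sup (f := fun g => Finset.univ.sup fun b => (ev g b).natAbs) hgS
      have h3 := h1.trans h2
      rw [Int.abs_eq_natAbs]
      exact_mod_cast h3
    · intro a g hg b
      have hgS : g ∈ S := by
        refine Finset.mem_union_right _ (Finset.mem_biUnion.mpr ⟨a, Finset.mem_univ a, ?_⟩)
        exact Finsupp.mem_support_iff.mpr hg
      have h1 : (ev g b).natAbs ≤ Finset.univ.sup fun b => (ev g b).natAbs :=
        Finset.le_sup (f := fun b => (ev g b).natAbs) (Finset.mem_univ b)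
      have h2 : (Finset.univ.sup fun b => (ev g b).natAbs) ≤
          S.sup (fun g => Finset.univ.sup fun b => (ev g b).natAbs) :=
        Finset.le_sup (f := fun g => Finset.univ.sup fun b => (ev g b).natAbs) hgS
      have h3 := h1.trans h2
      rw [Int.abs_eq_natAbs]
      exact_mod_cast h3
  obtain ⟨d, hd, hgr⟩ := growth v d0
  refine ⟨d, ?_⟩
  intro o M hLI c hc
  -- the linear map
  let W := Option (Fin v)
  let rw' : W → Fin v → M.K := fun w a => match w with
    | some i => nab M (x i) a
    | none => - nab M y a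
  let Ψ : Fin v → ((W → (bX v d) → M.sub (ke v)) →ₗ[M.sub (ke v)] M.K) := fun a =>
    ∑ w : W, (rm M (rw' w a)).comp ((sr M (bX v d)).comp (LinearMap.proj w))
  let Φ : (W → (bX v d) → M.sub (ke v)) →ₗ[M.sub (ke v)] (Fin v → (bX v (d + d0)) → M.sub (ke v)) :=
    LinearMap.pi fun a => LinearMap.pi fun μ => (cp M (μ : Fin v → ℤ)).comp (Ψ a)
  have hfr1 : Module.finrank (M.sub (ke v)) (W → (bX v d) → M.sub (ke v)) =
      (v + 1) * (2 * d + 1) ^ v := by
    rw [Module.finrank_pi_fintype]
    simp only [Module.finrank_fintype_fun_eq_card, Finset.sum_const, Finset.card_univ,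
      Fintype.card_coe, card_bX, smul_eq_mul]
    congr 1
    simp [W]
  have hfr2 : Module.finrank (M.sub (ke v)) (Fin v → (bX v (d + d0)) → M.sub (ke v)) =
      v * (2 * (d + d0) + 1) ^ v := by
    rw [Module.finrank_pi_fintype]
    simp only [Module.finrank_fintype_fun_eq_card, Finset.sum_const, Finset.card_univ,
      Fintype.card_coe, card_bX, smul_eq_mul, Fintype.card_fin]
  have hker : LinearMap.ker Φ ≠ ⊥ := by
    apply LinearMap.ker_ne_bot_of_finrank_lt
    rw [hfr1, hfr2]
    exact hgr
  obtain ⟨k, hk, hkne⟩ := Submodule.exists_mem_ne_zero_of_ne_bot hker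
  rw [LinearMap.mem_ker] at hk
  -- the series
  set P : W → M.K := fun w => sr M (bX v d) (k w) with hP
  have hΨ : ∀ a, Ψ a k = ∑ w : W, P w * rw' w a := by
    intro a
    simp only [Ψ, LinearMap.sum_apply, LinearMap.comp_apply, LinearMap.proj_apply, rm_apply, hP]
  have hPsupp : ∀ w g, M.cf (P w) g ≠ 0 → ∀ a, |ev g a| ≤ (d : ℤ) := by
    intro w g hg
    exact mem_bX.mp (sr_supp M _ _ g hg)
  -- all the components of Ψ a k vanish
  have hΨ0 : ∀ a, Ψ a k = 0 := by
    intro a
    apply M.ext'
    intro p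
    rw [M.cf_zero]
    by_contra hne
    have hbox : ev p ∈ bX v (d + d0) := by
      rw [mem_bX]
      rw [hΨ, M.cf_sum] at hne
      obtain ⟨w, _, hw⟩ := Finset.exists_ne_zero_of_sum_ne_zero hne
      obtain ⟨f, hf1, hf2⟩ := M.mul_supp hw
      have h1 := hPsupp w f hf1
      have h2 : ∀ b, |ev (f⁻¹ * p) b| ≤ (d0 : ℤ) := by
        rcases w with _ | i
        · apply hd0y a
          intro h
          apply hf2
          change M.cf (- nab M y a) (f⁻¹ * p) = 0
          rw [M.cf_neg, cf_nab, h]
          simp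
        · apply hd0x i a
          intro h
          apply hf2
          change M.cf (nab M (x i) a) (f⁻¹ * p) = 0
          rw [cf_nab, h]
          simp
      intro b
      have h3 : ev p b = ev f b + ev (f⁻¹ * p) b := by
        rw [← Pi.add_apply, ← ev_mul_B1a]
        simp
      rw [h3]
      have h4 := abs_add_le (ev f b) (ev (f⁻¹ * p) b)
      have h5 := h1 b
      have h6 := h2 b
      push_cast
      linarith
    have h7 : (cp M (ev p)) (Ψ a k) = 0 := by
      have h8 := congrFun (congrFun hk a) ⟨ev p, hbox⟩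
      simpa [Φ] using h8
    have h9 := congrArg (fun z : M.sub (ke v) => (z : M.K)) h7
    simp only [cp_apply] at h9
    have h10 : rs M (ev p) (Ψ a k) = 0 := by
      have h11 : rs M (ev p) (Ψ a k) * M.of (rp (ev p))⁻¹ * M.of (rp (ev p)) = 0 := by
        rw [h9]
        simp
      rwa [mul_assoc, ← M.of_mul, inv_mul_cancel, M.of_one, mul_one] at h11
    have h12 := cf_rs M (ev p) (Ψ a k) p
    rw [h10, M.cf_zero, if_pos rfl] at h12
    exact hne h12.symm
  -- the relation
  have hrel : ∑ i : Fin v, P (some i) • nab M (x i) = P none • nab M y := by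
    funext a
    have h1 := hΨ0 a
    rw [hΨ, Fintype.sum_option] at h1
    rw [Finset.sum_apply]
    simp only [Pi.smul_apply, smul_eq_mul]
    have h2 : P none * rw' none a = - (P none * nab M y a) := by
      change P none * (- nab M y a) = _
      rw [mul_neg]
    rw [h2] at h1
    have h3 : ∑ i : Fin v, P (some i) * rw' (some i) a = ∑ i : Fin v, P (some i) * nab M (x i) a := rfl
    rw [h3] at h1
    rw [← sub_eq_zero]
    rw [← h1]
    abel
  have hQne : P none ≠ 0 := by
    intro h0
    rw [h0, zero_smul] at hrel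
    have h1 := (Fintype.linearIndependent_iff.mp hLI) (fun i => P (some i)) hrel
    apply hkne
    funext w
    rcases w with _ | i
    · exact sr_inj M _ _ h0
    · exact sr_inj M _ _ (h1 i)
  have hPi : ∀ i, P none * c i = P (some i) := by
    have h1 : ∑ i : Fin v, (P (some i) - P none * c i) • nab M (x i) = 0 := by
      simp only [sub_smul, Finset.sum_sub_distrib]
      rw [hrel, hc, Finset.smul_sum]
      simp only [mul_smul, sub_self]
    have h2 := (Fintype.linearIndependent_iff.mp hLI) (fun i => P (some i) - P none * c i) h1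
    intro i
    exact (sub_eq_zero.mp (h2 i)).symm
  refine ⟨P none, hQne, hPsupp none, ?_⟩
  intro i g hg
  rw [hPi i] at hg
  exact hPsupp (some i) g hg

end DL
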