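import Pool.Agent.Helper14.DL.St

set_option autoImplicit false

/-!
Module B1b of project DL: the support of the expansion of `c` from `Q c = P`, stage by stage.
-/

namespace DL

open scoped Classical

section B1b

private theorem ev_mul_B1b {v : ℕ} (g h : F v) : ev (g * h) = ev g + ev h := by
  unfold ev
  rw [map_mul]
  rfl

private theorem ev_inv_B1b {v : ℕ} (g : F v) : ev g⁻¹ = -ev g := by
  unfold ev
  rw [map_inv]
  rfl

/-- the finite box -/
private def bx (v : ℕ) (d : ℕ) : Set (Fin v → ℤ) := {u | ∀ a, |u a| ≤ (d : ℤ)}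

private theorem bx_finite (v d : ℕ) : (bx v d).Finite := by
  have h : bx v d ⊆ Set.pi Set.univ (fun _ : Fin v => Set.Icc (-(d : ℤ)) (d : ℤ)) := by
    intro u hu a _
    exact abs_le.mp (hu a)
  exact (Set.Finite.pi' (fun _ => Set.finite_Icc _ _)).subset (by
    intro u hu a
    exact h hu a (Set.mem_univ a))

/-- the key step -/
private theorem step_B1b {v d : ℕ} {o : BO (F v)} (M : MF o) (φ : (Fin v → ℤ) →+ ℝ)
    (Q c : M.K) (q₀ : Fin v → ℤ)
    (hq₀ : ∃ g, M.cf Q g ≠ 0 ∧ ev g = q₀)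
    (_hmin : ∀ g, M.cf Q g ≠ 0 → ev g ≠ q₀ → φ q₀ < φ (ev g))
    (hQ : ∀ g, M.cf Q g ≠ 0 → ∀ a, |ev g a| ≤ (d : ℤ))
    (hQc : ∀ g, M.cf (Q * c) g ≠ 0 → ∀ a, |ev g a| ≤ (d : ℤ))
    (g : F v) (hg : M.cf c g ≠ 0) :
    (∀ a, |ev g a| ≤ 2 * (d : ℤ)) ∨
    ∃ h f, M.cf c h ≠ 0 ∧ M.cf Q f ≠ 0 ∧ ev f ≠ q₀ ∧ ev g = ev h + (ev f - q₀) := by
  by_cases hcase : ∃ h f, M.cf c h ≠ 0 ∧ M.cf Q f ≠ 0 ∧ ev f ≠ q₀ ∧ ev g = ev h + (ev f - q₀)
  · exact Or.inr hcase
  · left
    push Not at hcase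
    obtain ⟨Q0, hQ0⟩ := M.restrict_ex Q {f | ev f = q₀}
    obtain ⟨cu, hcu⟩ := M.restrict_ex c {h | ev h = ev g}
    have hQ0ne : Q0 ≠ 0 := by
      obtain ⟨f, hf1, hf2⟩ := hq₀
      intro h0
      have h1 := hQ0 f
      rw [h0, M.cf_zero, if_pos (show f ∈ {f | ev f = q₀} from hf2)] at h1
      exact hf1 h1.symm
    have hcune : cu ≠ 0 := by
      intro h0
      have h1 := hcu g
      rw [h0, M.cf_zero, if_pos (show g ∈ {h | ev h = ev g} from rfl)] at h1
      exact hg h1.symm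
    have hne : Q0 * cu ≠ 0 := mul_ne_zero hQ0ne hcune
    have hex : ∃ p, M.cf (Q0 * cu) p ≠ 0 := by
      by_contra hcon
      push Not at hcon
      apply hne
      apply M.ext'
      intro p
      rw [hcon, M.cf_zero]
    obtain ⟨p, hp⟩ := hex
    obtain ⟨f, hf1, hf2⟩ := M.mul_supp hp
    rw [hQ0] at hf1
    rw [hcu] at hf2
    have hf1' : ev f = q₀ := by
      by_contra h
      exact hf1 (if_neg h)
    have hf2' : ev (f⁻¹ * p) = ev g := by
      by_contra h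
      exact hf2 (if_neg h)
    have hevp : ev p = q₀ + ev g := by
      rw [ev_mul_B1b, ev_inv_B1b, hf1'] at hf2'
      rw [← hf2']
      abel
    have hfQ : M.cf Q f ≠ 0 := by
      rwa [if_pos (show f ∈ {f | ev f = q₀} from hf1')] at hf1
    -- the coefficients of the products agree
    have heq : M.cf (Q * c) p = M.cf (Q0 * cu) p := by
      rw [M.mul, M.mul]
      apply finsum_congr
      intro t
      rw [hQ0, hcu]
      by_cases h1 : ev t = q₀
      · have h2 : ev (t⁻¹ * p) = ev g := by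
          rw [ev_mul_B1b, ev_inv_B1b, h1, hevp]
          abel
        rw [if_pos (show t ∈ {f | ev f = q₀} from h1),
          if_pos (show t⁻¹ * p ∈ {h | ev h = ev g} from h2)]
      · rw [if_neg (show t ∉ {f | ev f = q₀} from h1), zero_mul]
        by_contra hne2
        have h3 : M.cf Q t ≠ 0 := left_ne_zero_of_mul hne2
        have h4 : M.cf c (t⁻¹ * p) ≠ 0 := right_ne_zero_of_mul hne2
        apply hcase _ _ h4 h3 h1
        rw [ev_mul_B1b, ev_inv_B1b, hevp]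
        abel
    have hpQc : M.cf (Q * c) p ≠ 0 := by
      rw [heq]
      exact hp
    intro a
    have h1 := hQc p hpQc a
    have h2 := hQ f hfQ a
    rw [hf1'] at h2
    rw [hevp] at h1
    have h3 : ev g a = (q₀ + ev g) a - q₀ a := by
      rw [Pi.add_apply]
      ring
    rw [h3]
    have h4 := abs_sub ((q₀ + ev g) a) (q₀ a)
    linarith

theorem b1b : StB1b := by
  intro v d o M φ hφ hmono Q c hQne hQ hQc
  -- the least exponent of `Q`
  have hex : ∃ g, M.cf Q g ≠ 0 := by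
    by_contra hcon
    push Not at hcon
    apply hQne
    apply M.ext'
    intro p
    rw [hcon, M.cf_zero]
  set S : Set (Fin v → ℤ) := {u | ∃ g, M.cf Q g ≠ 0 ∧ ev g = u} with hS
  have hSbx : S ⊆ bx v d := by
    rintro u ⟨g, hg, rfl⟩
    exact hQ g hg
  have hSfin : S.Finite := (bx_finite v d).subset hSbx
  have hSne : S.Nonempty := by
    obtain ⟨g, hg⟩ := hex
    exact ⟨ev g, g, hg, rfl⟩
  obtain ⟨q₀, hq₀S, hq₀min⟩ := Set.exists_min_image S (fun u => φ u) hSfin hSne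
  have hmin : ∀ g, M.cf Q g ≠ 0 → ev g ≠ q₀ → φ q₀ < φ (ev g) := by
    intro g hg hne
    rcases lt_or_eq_of_le (hq₀min (ev g) ⟨g, hg, rfl⟩) with h | h
    · exact h
    · exact absurd (hφ h).symm hne
  have hstep := step_B1b M φ Q c q₀ (by
    obtain ⟨g, hg1, hg2⟩ := hq₀S
    exact ⟨g, hg1, hg2⟩) hmin hQ hQc
  -- gap
  have hgap : ∃ δ : ℝ, 0 < δ ∧ ∀ g, M.cf Q g ≠ 0 → ev g ≠ q₀ → δ ≤ φ (ev g) - φ q₀ := by
    by_cases hT : (S \ {q₀}).Nonempty
    · obtain ⟨q₁, hq₁, hq₁min⟩ := Set.exists_min_image (S \ {q₀}) (fun u => φ u - φ q₀)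
        (hSfin.subset Set.sdiff_subset) hT
      refine ⟨φ q₁ - φ q₀, ?_, ?_⟩
      · obtain ⟨⟨g, hg1, hg2⟩, hne⟩ := hq₁
        have := hmin g hg1 (by rw [hg2]; exact hne)
        rw [hg2] at this
        linarith
      · intro g hg hne
        exact hq₁min (ev g) ⟨⟨g, hg, rfl⟩, hne⟩
    · refine ⟨1, one_pos, ?_⟩
      intro g hg hne
      exact absurd ⟨ev g, ⟨g, hg, rfl⟩, hne⟩ hT
  obtain ⟨δ, hδ, hδmin⟩ := hgap
  -- lower bound for `φ` on the box of radius `2 d`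
  obtain ⟨C, hC⟩ : ∃ C : ℝ, ∀ u ∈ bx v (2 * d), -C ≤ φ u := by
    have hfin := (bx_finite v (2 * d)).image (fun u => φ u)
    obtain ⟨b, hb⟩ := hfin.bddBelow
    refine ⟨-b, fun u hu => ?_⟩
    rw [neg_neg]
    exact hb ⟨u, hu, rfl⟩
  -- well founded induction on the support of `c`
  have hwf := M.wf c
  have hwfa : ∀ P : F v → Prop, (∀ g, M.cf c g ≠ 0 → (∀ h, M.cf c h ≠ 0 → φ (ev h) < φ (ev g) → P h) → P g) →
      ∀ g, M.cf c g ≠ 0 → P g := by
    intro P hP g hg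
    exact hwf.induction hg (fun x hx ih => hP x hx (fun h hh hlt => ih h hh (hmono h x hlt)))
  -- quantitative form
  have hquant : ∀ g, M.cf c g ≠ 0 → ∃ k : ℕ, (∀ a, |ev g a| ≤ 2 * (d : ℤ) * (1 + k)) ∧
      (k : ℝ) * δ - C ≤ φ (ev g) := by
    apply hwfa
    intro g hg ih
    rcases hstep g hg with h | ⟨h, f, hh, hf, hfne, hev⟩
    · refine ⟨0, ?_, ?_⟩
      · intro a
        simpa using h a
      · have := hC (ev g) (by
          intro a
          push_cast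
          exact h a)
        push_cast
        linarith
    · have h1 := hδmin f hf hfne
      have hφeq : φ (ev g) = φ (ev h) + (φ (ev f) - φ q₀) := by
        rw [hev, map_add, map_sub]
      obtain ⟨k, hk1, hk2⟩ := ih h hh (by linarith)
      refine ⟨k + 1, ?_, ?_⟩
      · intro a
        have h2 := hk1 a
        have h3 := hQ f hf a
        have h4 : |q₀ a| ≤ (d : ℤ) := hSbx hq₀S a
        rw [hev, Pi.add_apply, Pi.sub_apply]
        have h5 := abs_add_le (ev h a) (ev f a - q₀ a)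
        have h6 := abs_sub (ev f a) (q₀ a)
        push_cast
        nlinarith
      · push_cast
        linarith
  -- finiteness
  have hfinite : ∀ g : F v, {u | (∃ h, M.cf c h ≠ 0 ∧ ev h = u) ∧ φ u < φ (ev g)}.Finite := by
    intro g
    obtain ⟨K, hK⟩ := exists_nat_gt ((φ (ev g) + C) / δ)
    refine (bx_finite v (2 * d * (1 + K))).subset ?_
    rintro u ⟨⟨h, hh, rfl⟩, hlt⟩
    obtain ⟨k, hk1, hk2⟩ := hquant h hh
    have hkK : k ≤ K := by
      have h1 : (k : ℝ) * δ < φ (ev g) + C := by linarith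
      have h2 : (k : ℝ) < (φ (ev g) + C) / δ := by
        rw [lt_div_iff₀ hδ]
        exact h1
      have h3 : (k : ℝ) < (K : ℝ) := lt_trans h2 hK
      exact_mod_cast h3.le
    intro a
    have h4 := hk1 a
    push_cast
    have h5 : (2 * (d : ℤ)) * (1 + (k : ℤ)) ≤ (2 * (d : ℤ)) * (1 + (K : ℤ)) := by
      apply mul_le_mul_of_nonneg_left
      · have : (k : ℤ) ≤ (K : ℤ) := by exact_mod_cast hkK
        linarith
      · positivity
    linarith
  intro g hg
  refine ⟨hfinite g, ?_⟩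
  revert g
  apply hwfa
  intro g hg ih
  rcases hstep g hg with h | ⟨h, f, hh, hf, hfne, hev⟩
  · intro a
    have h1 := h a
    have h2 : (0 : ℤ) ≤ 2 * (d : ℤ) * ({u | (∃ h, M.cf c h ≠ 0 ∧ ev h = u) ∧ φ u < φ (ev g)}.ncard : ℤ) := by
      positivity
    have h3 : 2 * (d : ℤ) * (1 + ({u | (∃ h, M.cf c h ≠ 0 ∧ ev h = u) ∧ φ u < φ (ev g)}.ncard : ℤ)) =
      2 * (d : ℤ) + 2 * (d : ℤ) * ({u | (∃ h, M.cf c h ≠ 0 ∧ ev h = u) ∧ φ u < φ (ev g)}.ncard : ℤ) := by ring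
    rw [h3]
    linarith
  · have h1 := hδmin f hf hfne
    have hφeq : φ (ev g) = φ (ev h) + (φ (ev f) - φ q₀) := by
      rw [hev, map_add, map_sub]
    have hlt : φ (ev h) < φ (ev g) := by linarith
    have hi := ih h hh hlt
    -- cardinalities
    have hcard : {u | (∃ h, M.cf c h ≠ 0 ∧ ev h = u) ∧ φ u < φ (ev h)}.ncard + 1 ≤
        {u | (∃ h, M.cf c h ≠ 0 ∧ ev h = u) ∧ φ u < φ (ev g)}.ncard := by
      have hnot : ev h ∉ {u | (∃ h, M.cf c h ≠ 0 ∧ ev h = u) ∧ φ u < φ (ev h)} := by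
        rintro ⟨_, h2⟩
        exact lt_irrefl _ h2
      rw [← Set.ncard_insert_of_notMem hnot (hfinite h)]
      apply Set.ncard_le_ncard _ (hfinite g)
      intro u hu
      rcases Set.mem_insert_iff.mp hu with rfl | ⟨h2, h3⟩
      · exact ⟨⟨h, hh, rfl⟩, hlt⟩
      · exact ⟨h2, lt_trans h3 hlt⟩
    intro a
    have h2 := hi a
    have h3 := hQ f hf a
    have h4 : |q₀ a| ≤ (d : ℤ) := hSbx hq₀S a
    rw [hev, Pi.add_apply, Pi.sub_apply]
    have h5 := abs_add_le (ev h a) (ev f a - q₀ a)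
    have h6 := abs_sub (ev f a) (q₀ a)
    rw [← hev]
    have h7 : (({u | (∃ h, M.cf c h ≠ 0 ∧ ev h = u) ∧ φ u < φ (ev h)}.ncard : ℤ)) + 1 ≤
      ({u | (∃ h, M.cf c h ≠ 0 ∧ ev h = u) ∧ φ u < φ (ev g)}.ncard : ℤ) := by exact_mod_cast hcard
    have h8 : 2 * (d : ℤ) * (1 + (({u | (∃ h, M.cf c h ≠ 0 ∧ ev h = u) ∧ φ u < φ (ev h)}.ncard : ℤ))) +
        2 * (d : ℤ) ≤
        2 * (d : ℤ) * (1 + ({u | (∃ h, M.cf c h ≠ 0 ∧ ev h = u) ∧ φ u < φ (ev g)}.ncard : ℤ)) := by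
      have h9 : (0 : ℤ) ≤ 2 * (d : ℤ) := by positivity
      nlinarith
    linarith

end B1b

end DL
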