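import Pool.Agent.Helper14.DL.St

/-! Project DL (MP_2bc838_lc), module B2: IA automorphisms fixing `L` are trivial. -/

set_option autoImplicit false

namespace DL

open scoped Classical

/-- An order preserving permutation of a group preserving a well founded set fixes it pointwise. -/
private theorem fixed_B2 {G : Type} [Group G] (o : BO G) (S : Set G) (hS : S.WellFoundedOn o.lt)
    (θ : G ≃ G) (hθ : ∀ a b, o.lt a b → o.lt (θ a) (θ b)) (hSθ : ∀ g, θ g ∈ S ↔ g ∈ S) :
    ∀ g ∈ S, θ g = g := by
  intro g hg
  refine hS.induction (P := fun g => θ g = g) hg ?_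
  intro g hg ih
  rcases o.tri (θ g) g with h | h | h
  · have h1 := ih (θ g) ((hSθ g).2 hg) h
    exact θ.injective h1
  · exact h
  · have hmem : θ.symm g ∈ S := by
      rw [← hSθ, Equiv.apply_symm_apply]
      exact hg
    have hlt : o.lt (θ.symm g) g := by
      rcases o.tri (θ.symm g) g with h2 | h2 | h2
      · exact h2
      · have h3 : g = θ g := by
          have := congrArg θ h2
          rwa [Equiv.apply_symm_apply] at this
        rw [← h3] at h
        exact absurd h (o.irr _)
      · have h3 := hθ _ _ h2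
        rw [Equiv.apply_symm_apply] at h3
        exact absurd (o.tr _ _ _ h h3) (o.irr _)
    have h1 := ih (θ.symm g) hmem hlt
    rw [Equiv.apply_symm_apply] at h1
    have h2 := congrArg θ h1
    rwa [Equiv.apply_symm_apply] at h2

theorem b2 (h1 : StMNF) (h2 : StMord) (he : StEq) (hg : StG) (hs : StBas) : StB2 := by
  intro v L hL hmin θ hfix hIA
  obtain ⟨o, ho⟩ := h2 v
  obtain ⟨M⟩ := h1 (F v) o
  obtain ⟨x, hxL, hx⟩ := hs v L hL
  have hlin := hx o M
  have hθ : ∀ a b, o.lt a b → o.lt (θ a) (θ b) := fun a b hab => ho θ.toMonoidHom hIA a b hab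
  have hθi : ∀ a b, o.lt a b ↔ o.lt (θ a) (θ b) := by
    intro a b
    refine ⟨hθ a b, fun h => ?_⟩
    rcases o.tri a b with h3 | h3 | h3
    · exact h3
    · subst h3
      exact absurd h (o.irr _)
    · exact absurd (o.tr _ _ _ h (hθ _ _ h3)) (o.irr _)
  have hspan : Submodule.span M.K (Set.range fun i => nab M (x i)) = ⊤ := by
    refine hlin.span_eq_top_of_card_eq_finrank' ?_
    rw [Module.finrank_fintype_fun_eq_card]
  have hE : fixS θ = ⊤ := by
    refine hg v L (fixS θ) (fun y hy => hfix y hy) hL hmin o M x hxL hlin ?_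
    intro y hy
    have hmem : nab M y ∈ Submodule.span M.K (Set.range fun i => nab M (x i)) := by
      rw [hspan]; trivial
    obtain ⟨c, hc⟩ := (Submodule.mem_span_range_iff_exists_fun M.K).1 hmem
    refine ⟨c, hc.symm, fun i => ?_⟩
    -- the transformed coefficients
    have hex : ∀ i, ∃ c' : M.K, ∀ g, M.cf c' (θ g) = M.cf (c i) g := by
      intro i
      have hwf : (Function.support (fun g => M.cf (c i) (θ.symm g))).WellFoundedOn o.lt := by
        have hw := M.wf (c i)
        rw [Set.wellFoundedOn_iff] at hw ⊢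
        refine Subrelation.wf (r := InvImage (fun a b => o.lt a b ∧
          a ∈ Function.support (M.cf (c i)) ∧ b ∈ Function.support (M.cf (c i)))
          (fun g => θ.symm g)) ?_ (InvImage.wf _ hw)
        rintro a b ⟨hab, ha, hb⟩
        refine ⟨?_, ha, hb⟩
        rw [hθi]
        simpa using hab
      obtain ⟨c', hc'⟩ := M.ex (fun g => M.cf (c i) (θ.symm g)) hwf
      refine ⟨c', fun g => ?_⟩
      rw [hc']
      simp
    choose c' hc' using hex
    have hnew := he v o o M M θ hθi x y (fun i => hfix _ (hxL i)) (hfix y hy) c c'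
      (fun i g => hc' i g) hc.symm
    have hcc : ∀ i, c' i = c i := by
      rw [← hc] at hnew
      have h0 : ∑ i, (c' i - c i) • nab M (x i) = 0 := by
        simp only [sub_smul, Finset.sum_sub_distrib]
        rw [← hnew, sub_self]
      intro i
      exact sub_eq_zero.1 (Fintype.linearIndependent_iff.1 hlin _ h0 i)
    have hinv : ∀ g, M.cf (c i) (θ g) = M.cf (c i) g := by
      intro g
      have := hc' i g
      rwa [hcc] at this
    rw [M.mem_sub]
    intro g hgne
    exact fixed_B2 o (Function.support (M.cf (c i))) (M.wf (c i)) θ.toEquiv hθ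
      (fun g => by
        show M.cf (c i) (θ g) ≠ 0 ↔ M.cf (c i) g ≠ 0
        rw [hinv]) g hgne
  ext g
  have : g ∈ fixS θ := by rw [hE]; trivial
  rw [show θ g = g from this]
  rfl

end DL
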