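import Pool.Agent.Helper14.DL.St

set_option autoImplicit false

namespace DL

open scoped Classical

namespace B3aAux

/-- a finite invariant set of a permutation of order `p` -/
theorem card_fixed {α : Type*} (p : ℕ) (hp : p.Prime) (τ : Equiv.Perm α) (hτ : τ ^ p = 1)
    (A : Finset α) (hA : ∀ y, τ y ∈ A ↔ y ∈ A) :
    (p : ℤ) ∣ (A.card : ℤ) - ((A.filter (fun y => τ y = y)).card : ℤ) := by
  have : Fact p.Prime := ⟨hp⟩
  set σ : Equiv.Perm {y // y ∈ A} := τ.subtypePerm hA with hσdef
  have hpow : ∀ k : ℕ, ∀ y : {y // y ∈ A}, (((σ ^ k) y : {y // y ∈ A}) : α) = (τ ^ k) y := by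
    intro k
    induction k with
    | zero => intro y; simp
    | succ k ih =>
      intro y
      rw [pow_succ', pow_succ', Equiv.Perm.mul_apply, Equiv.Perm.mul_apply, ← ih]
      rfl
  have hσ : σ ^ p ^ 1 = 1 := by
    rw [pow_one]
    ext y
    rw [hpow, hτ]
    rfl
  have h1 := Equiv.Perm.card_compl_support_modEq hσ
  have h2 : Fintype.card {y // y ∈ A} = A.card := by simp
  have h3 : (σ.supportᶜ).card = (A.filter (fun y => τ y = y)).card := by
    refine Finset.card_bij (fun y _ => (y : α)) ?_ ?_ ?_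
    · intro y hy
      rw [Finset.mem_compl, Equiv.Perm.mem_support, not_not] at hy
      rw [Finset.mem_filter]
      refine ⟨y.2, ?_⟩
      have := congrArg Subtype.val hy
      exact this
    · intro y _ z _ h
      exact Subtype.ext h
    · intro y hy
      rw [Finset.mem_filter] at hy
      refine ⟨⟨y, hy.1⟩, ?_, rfl⟩
      rw [Finset.mem_compl, Equiv.Perm.mem_support, not_not]
      exact Subtype.ext hy.2
  rw [h2, h3] at h1
  exact (Nat.modEq_iff_dvd.1 h1)

/-- sum over a finite invariant set mod p -/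
theorem sum_fixed {α : Type*} (p : ℕ) (hp : p.Prime) (τ : Equiv.Perm α) (hτ : τ ^ p = 1)
    (f : α → ℤ) (T : Finset α) (hT : ∀ y, f y ≠ 0 → y ∈ T) (hinv : ∀ y, f (τ y) = f y) :
    (p : ℤ) ∣ ∑ y ∈ T, f y - ∑ y ∈ T.filter (fun y => τ y = y), f y := by
  have h1 : ∑ y ∈ T, f y = ∑ c ∈ T.image f, ∑ y ∈ T.filter (fun y => f y = c), f y :=
    (Finset.sum_fiberwise_of_maps_to (fun y hy => Finset.mem_image_of_mem f hy) _).symm
  have h2 : ∑ y ∈ T.filter (fun y => τ y = y), f y =
      ∑ c ∈ T.image f, ∑ y ∈ (T.filter (fun y => τ y = y)).filter (fun y => f y = c), f y :=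
    (Finset.sum_fiberwise_of_maps_to (fun y hy => Finset.mem_image_of_mem f
      (Finset.mem_filter.1 hy).1) _).symm
  rw [h1, h2, ← Finset.sum_sub_distrib]
  refine Finset.dvd_sum fun c _ => ?_
  by_cases hc : c = 0
  · subst hc
    rw [Finset.sum_eq_zero (fun y hy => (Finset.mem_filter.1 hy).2),
      Finset.sum_eq_zero (fun y hy => (Finset.mem_filter.1 hy).2)]
    simp
  · rw [Finset.sum_congr rfl (fun y hy => (Finset.mem_filter.1 hy).2),
      Finset.sum_congr rfl (fun y hy => (Finset.mem_filter.1 hy).2)]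
    rw [Finset.sum_const, Finset.sum_const, nsmul_eq_mul, nsmul_eq_mul, ← sub_mul]
    refine Dvd.dvd.mul_right ?_ _
    have h3 := card_fixed p hp τ hτ (T.filter (fun y => f y = c)) (by
      intro y
      rw [Finset.mem_filter, Finset.mem_filter, hinv]
      constructor
      · rintro ⟨_, h⟩
        exact ⟨hT y (by rw [h]; exact hc), h⟩
      · rintro ⟨_, h⟩
        exact ⟨hT _ (by rw [hinv, h]; exact hc), h⟩)
    rw [Finset.filter_filter] at h3
    rw [Finset.filter_filter]
    have h4 : (T.filter (fun y => f y = c ∧ τ y = y)) = (T.filter (fun y => τ y = y ∧ f y = c)) :=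
      Finset.filter_congr (fun y _ => and_comm)
    rw [h4] at h3
    exact h3

/-- homomorphism attached to an almost invariant function -/
theorem hom_exists {G : Type*} [Group G] (s : G → ℤ)
    (hs : ∀ x, (Function.support (fun y => s (x⁻¹ * y) - s y)).Finite) :
    ∃ ψ : G →* Multiplicative ℤ, ∀ x, Multiplicative.toAdd (ψ x) = ∑ᶠ y, (s (x⁻¹ * y) - s y) := by
  refine ⟨MonoidHom.mk' (fun x => Multiplicative.ofAdd (∑ᶠ y, (s (x⁻¹ * y) - s y))) ?_, fun x => rfl⟩
  intro x z
  rw [← ofAdd_add]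
  congr 1
  have h1 : ∀ y, s ((x * z)⁻¹ * y) - s y =
      (s (x⁻¹ * y) - s y) + (s (z⁻¹ * (x⁻¹ * y)) - s (x⁻¹ * y)) := by
    intro y
    rw [mul_inv_rev, mul_assoc]
    ring
  rw [finsum_congr h1]
  have h2 : (Function.support (fun y => s (z⁻¹ * (x⁻¹ * y)) - s (x⁻¹ * y))).Finite := by
    have := (hs z).preimage (f := fun y => x⁻¹ * y) (fun a _ b _ h => mul_left_cancel h)
    exact this
  rw [finsum_add_distrib (hs x) h2]
  congr 1
  exact finsum_comp_equiv (Equiv.mulLeft x⁻¹) (f := fun y => s (z⁻¹ * y) - s y)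

end B3aAux

open B3aAux

theorem b3a : StB3a := by
  intro v p θ hp hθ a u
  -- the almost invariant function
  set s : F v → ℤ := fun y => fox a y⁻¹ u with hs
  have hs1 : ∀ x y, s (x⁻¹ * y) - s y = fox a x (y * u) := by
    intro x y
    simp only [hs]
    rw [mul_inv_rev, inv_inv, fox_mul_apply, inv_inv]
    ring
  have hpow : ∀ i : ℕ, ∀ y z, (θ ^ i) (y * z) = (θ ^ i) y * (θ ^ i) z := fun i y z => map_mul _ _ _
  set s' : F v → ℤ := fun y => ∏ i ∈ Finset.range p, s ((θ ^ i) y) with hs'
  have hfin1 : ∀ x, (Function.support (fun y => s (x⁻¹ * y) - s y)).Finite := by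
    intro x
    have := (fox a x).support.finite_toSet.preimage (f := fun y => y * u)
      (fun a _ b _ h => mul_right_cancel h)
    refine this.subset ?_
    intro y hy
    rw [Function.mem_support, hs1] at hy
    simpa using hy
  have hfin : ∀ x, (Function.support (fun y => s' (x⁻¹ * y) - s' y)).Finite := by
    intro x
    have h1 : (⋃ i ∈ Finset.range p, (fun y => (θ ^ i) y) ⁻¹'
        (Function.support (fun y => s (((θ ^ i) x)⁻¹ * y) - s y))).Finite := by
      refine Set.Finite.biUnion (Finset.finite_toSet _) fun i _ => ?_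
      exact (hfin1 _).preimage (fun a _ b _ h => (θ ^ i).injective h)
    refine h1.subset ?_
    intro y hy
    by_contra hcon
    apply hy
    simp only [hs']
    rw [sub_eq_zero]
    refine Finset.prod_congr rfl fun i hi => ?_
    simp only [Set.mem_iUnion, not_exists] at hcon
    have h2 := hcon i hi
    rw [Set.mem_preimage, Function.mem_support, not_not, sub_eq_zero] at h2
    rw [map_mul, map_inv]
    exact h2
  obtain ⟨ψ, hψ⟩ := hom_exists s' hfin
  refine ⟨ψ, ?_⟩
  intro x hx
  have hxθ : θ x = x := hx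
  have hxi : ∀ i : ℕ, (θ ^ i) x = x := by
    intro i
    induction i with
    | zero => rfl
    | succ i ih => rw [pow_succ, MulAut.mul_apply, hxθ, ih]
  have hinv' : ∀ y, s' (θ y) = s' y := by
    intro y
    simp only [hs']
    have h1 : ∀ i : ℕ, (θ ^ i) (θ y) = (θ ^ (i + 1)) y := by
      intro i
      rw [pow_succ, MulAut.mul_apply]
    simp only [h1]
    have h2 := Finset.prod_range_succ (fun i => s ((θ ^ i) y)) p
    have h3 := Finset.prod_range_succ' (fun i => s ((θ ^ i) y)) p
    rw [h2] at h3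
    have h4 : s ((θ ^ p) y) = s ((θ ^ 0) y) := by rw [hθ]; rfl
    rcases Nat.exists_eq_succ_of_ne_zero hp.ne_zero with ⟨q, rfl⟩
    rw [Finset.prod_range_succ (fun i => s ((θ ^ (i + 1)) y)) q,
      Finset.prod_range_succ' (fun i => s ((θ ^ i) y)) q]
    congr 1
  have hinv : ∀ y, s' (x⁻¹ * θ y) - s' (θ y) = s' (x⁻¹ * y) - s' y := by
    intro y
    have : x⁻¹ * θ y = θ (x⁻¹ * y) := by rw [map_mul, map_inv, hxθ]
    rw [this, hinv', hinv']
  rw [hψ]
  -- the finite set
  set T : Finset (F v) := (hfin x).toFinset ∪ (hfin1 x).toFinset with hT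
  have hTs : ∑ᶠ y, (s' (x⁻¹ * y) - s' y) = ∑ y ∈ T, (s' (x⁻¹ * y) - s' y) := by
    refine finsum_eq_sum_of_support_subset _ ?_
    intro y hy
    rw [hT]
    simp only [Finset.coe_union, Set.Finite.coe_toFinset]
    exact Or.inl hy
  rw [hTs]
  have hA := sum_fixed p hp (θ.toEquiv : Equiv.Perm (F v)) (by
    ext y
    have h1 : ∀ i : ℕ, ∀ y, ((θ.toEquiv : Equiv.Perm (F v)) ^ i) y = (θ ^ i) y := by
      intro i
      induction i with
      | zero => intro y; rfl
      | succ i ih => intro y; rw [pow_succ, pow_succ, Equiv.Perm.mul_apply, MulAut.mul_apply, ih]; rfl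
    rw [h1, hθ]
    rfl) (fun y => s' (x⁻¹ * y) - s' y) T (by
      intro y hy
      rw [hT, Finset.mem_union, Set.Finite.mem_toFinset]
      exact Or.inl hy) hinv
  have hfix : ∀ y, (θ.toEquiv : Equiv.Perm (F v)) y = y ↔ y ∈ fixS θ := fun y => Iff.rfl
  -- compare on the fixed subgroup
  have hs'E : ∀ y ∈ fixS θ, (p : ℤ) ∣ s' y - s y := by
    intro y hy
    have hyθ : θ y = y := hy
    have hyi : ∀ i : ℕ, (θ ^ i) y = y := by
      intro i
      induction i with
      | zero => rfl
      | succ i ih => rw [pow_succ, MulAut.mul_apply, hyθ, ih]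
    simp only [hs', hyi, Finset.prod_const, Finset.card_range]
    have : Fact p.Prime := ⟨hp⟩
    rw [← (ZMod.intCast_zmod_eq_zero_iff_dvd _ p)]
    push_cast
    rw [ZMod.pow_card, sub_self]
  have hB : (p : ℤ) ∣ ∑ y ∈ T.filter (fun y => (θ.toEquiv : Equiv.Perm (F v)) y = y), (s' (x⁻¹ * y) - s' y)
      - ∑ y ∈ T.filter (fun y => (θ.toEquiv : Equiv.Perm (F v)) y = y), (s (x⁻¹ * y) - s y) := by
    rw [← Finset.sum_sub_distrib]
    refine Finset.dvd_sum fun y hy => ?_
    have hyE : y ∈ fixS θ := (hfix y).1 (Finset.mem_filter.1 hy).2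
    have h1 := hs'E y hyE
    have h2 := hs'E (x⁻¹ * y) ((fixS θ).mul_mem ((fixS θ).inv_mem hx) hyE)
    have h3 := dvd_sub h2 h1
    have h4 : s' (x⁻¹ * y) - s' y - (s (x⁻¹ * y) - s y) = s' (x⁻¹ * y) - s (x⁻¹ * y) - (s' y - s y) := by
      ring
    rw [h4]
    exact h3
  have hC : ∑ y ∈ T.filter (fun y => (θ.toEquiv : Equiv.Perm (F v)) y = y), (s (x⁻¹ * y) - s y) =
      (fox a x).sum (fun w m => if w * u⁻¹ ∈ fixS θ then m else 0) := by
    have e1 : ∑ y ∈ T.filter (fun y => (θ.toEquiv : Equiv.Perm (F v)) y = y), (s (x⁻¹ * y) - s y) =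
        ∑ y ∈ T, (fun y => if y ∈ fixS θ then fox a x (y * u) else 0) y := by
      rw [Finset.sum_filter]
      refine Finset.sum_congr rfl fun y _ => ?_
      rw [hs1]
      exact if_congr (hfix y) rfl rfl
    have e2 : ∑ y ∈ T, (fun y => if y ∈ fixS θ then fox a x (y * u) else 0) y =
        ∑ᶠ y, (fun y => if y ∈ fixS θ then fox a x (y * u) else 0) y := by
      symm
      refine finsum_eq_sum_of_support_subset _ ?_
      intro y hy
      rw [hT]
      simp only [Finset.coe_union, Set.Finite.coe_toFinset]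
      right
      rw [Function.mem_support] at hy ⊢
      rw [hs1]
      intro h
      apply hy
      rw [h]
      split_ifs <;> rfl
    have e3 : ∑ᶠ y, (fun y => if y ∈ fixS θ then fox a x (y * u) else 0) y =
        ∑ᶠ w, (fun w => if w * u⁻¹ ∈ fixS θ then fox a x w else 0) w := by
      rw [← finsum_comp_equiv (Equiv.mulRight u) (f := fun w => if w * u⁻¹ ∈ fixS θ then fox a x w else 0)]
      refine finsum_congr fun y => ?_
      simp only [Equiv.coe_mulRight, mul_inv_cancel_right]
    have e4 : ∑ᶠ w, (fun w => if w * u⁻¹ ∈ fixS θ then fox a x w else 0) w =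
        (fox a x).sum (fun w m => if w * u⁻¹ ∈ fixS θ then m else 0) := by
      unfold Finsupp.sum
      refine finsum_eq_sum_of_support_subset _ ?_
      intro w hw
      rw [Function.mem_support] at hw
      rw [Finset.mem_coe, Finsupp.mem_support_iff]
      intro h
      apply hw
      rw [h]
      split_ifs <;> rfl
    rw [e1, e2, e3, e4]
  rw [hC] at hB
  have hA' : (p : ℤ) ∣ ∑ y ∈ T, (s' (x⁻¹ * y) - s' y) -
      ∑ y ∈ T.filter (fun y => (θ.toEquiv : Equiv.Perm (F v)) y = y), (s' (x⁻¹ * y) - s' y) := by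
    convert hA
  have := dvd_add hA' hB
  rw [sub_add_sub_cancel] at this
  exact this

end DL
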