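import Pool.Agent.Helper14.DL.St

set_option autoImplicit false

namespace DL

open scoped Classical

namespace B3bAux

/-- the elements of a free basis generate -/
theorem closure_basis {ι G : Type*} [Group G] (B : FreeGroupBasis ι G) :
    Subgroup.closure (Set.range B) = ⊤ := by
  have h1 : (Set.range B) = (B.repr.symm.toMonoidHom) '' (Set.range (FreeGroup.of : ι → FreeGroup ι)) := by
    rw [← Set.range_comp]
    rfl
  rw [h1, ← MonoidHom.map_closure, FreeGroup.closure_range_of]
  exact Subgroup.map_top_of_surjective _ B.repr.symm.surjective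

theorem ev_mul {v : ℕ} (g h : F v) : ev (g * h) = ev g + ev h := by
  unfold ev
  rw [map_mul, toAdd_mul]

theorem ev_one {v : ℕ} : ev (1 : F v) = 0 := by
  unfold ev
  rw [map_one, toAdd_one]

theorem ev_gen {v : ℕ} (a : Fin v) : ev (gen a) = Pi.single a (1 : ℤ) := by
  unfold ev
  rw [FreeGroup.lift_apply_of]
  rfl

/-- `ev` as a homomorphism -/
noncomputable def evh (v : ℕ) : F v →* Multiplicative (Fin v → ℤ) :=
  FreeGroup.lift (fun a => Multiplicative.ofAdd (Pi.single a (1 : ℤ)))

theorem evh_apply {v : ℕ} (g : F v) : Multiplicative.toAdd (evh v g) = ev g := rfl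

/-- homomorphisms to the integers factor over `ev` -/
theorem hom_ev {v : ℕ} (ψ : F v →* Multiplicative ℤ) (x : F v) :
    Multiplicative.toAdd (ψ x) = ∑ a, ev x a * Multiplicative.toAdd (ψ (gen a)) := by
  have h1 : ψ = MonoidHom.mk' (fun x : F v => Multiplicative.ofAdd
      (∑ a, ev x a * Multiplicative.toAdd (ψ (gen a)))) (by
    intro x y
    rw [← ofAdd_add]
    congr 1
    rw [ev_mul, ← Finset.sum_add_distrib]
    refine Finset.sum_congr rfl fun a _ => ?_
    rw [Pi.add_apply, add_mul]) := by
    refine FreeGroup.ext_hom _ _ fun b => ?_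
    rw [MonoidHom.mk'_apply]
    have h2 : ∑ a, ev (FreeGroup.of b) a * Multiplicative.toAdd (ψ (gen a)) =
        Multiplicative.toAdd (ψ (gen b)) := by
      rw [show (FreeGroup.of b : F v) = gen b from rfl, ev_gen]
      rw [Finset.sum_eq_single b]
      · rw [Pi.single_eq_same, one_mul]
      · intro a _ hab
        rw [Pi.single_eq_of_ne hab, zero_mul]
      · intro h
        exact absurd (Finset.mem_univ b) h
    rw [h2]
    rfl
  conv_lhs => rw [h1]
  rfl

/-- extension of a homomorphism on a subgroup to an equivariant function -/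
theorem extend {G A : Type*} [Group G] [AddCommGroup A] (E : Subgroup G) (f : E →* Multiplicative A) :
    ∃ η : G → A, (∀ z : E, ∀ y, η (z * y) = Multiplicative.toAdd (f z) + η y) ∧ η 1 = 0 := by
  -- transversal
  let q : G → Quotient (QuotientGroup.rightRel E) := fun y => Quotient.mk _ y
  have hq : ∀ y, y * ((q y).out)⁻¹ ∈ E := by
    intro y
    have h1 : (QuotientGroup.rightRel E) ((q y).out) y := Quotient.exact (Quotient.out_eq (q y))
    rw [QuotientGroup.rightRel_apply] at h1
    exact h1
  have hqz : ∀ z : E, ∀ y, q (z * y) = q y := by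
    intro z y
    apply Quotient.sound
    change (QuotientGroup.rightRel E) _ _
    rw [QuotientGroup.rightRel_apply, mul_inv_rev, ← mul_assoc, mul_inv_cancel, one_mul]
    exact E.inv_mem z.2
  let η0 : G → A := fun y => Multiplicative.toAdd (f ⟨y * ((q y).out)⁻¹, hq y⟩)
  have h0 : ∀ z : E, ∀ y, η0 (z * y) = Multiplicative.toAdd (f z) + η0 y := by
    intro z y
    simp only [η0]
    rw [← toAdd_mul, ← map_mul]
    congr 2
    apply Subtype.ext
    change (z : G) * y * ((q ((z : G) * y)).out)⁻¹ = (z : G) * (y * ((q y).out)⁻¹)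
    rw [hqz, mul_assoc]
  refine ⟨fun y => η0 y - η0 1, ?_, sub_self _⟩
  intro z y
  change η0 (z * y) - η0 1 = Multiplicative.toAdd (f z) + (η0 y - η0 1)
  rw [h0]
  abel

/-- an element killed by all homomorphisms of the big group modulo `p` is killed by those of the fixed subgroup -/
theorem key (h : StB3a) (v p : ℕ) (θ : MulAut (F v)) (hp : p.Prime) (hθ : θ ^ p = 1)
    (x : fixS θ) (hx : ∀ a, (p : ℤ) ∣ ev (x : F v) a) (f : fixS θ →* Multiplicative (ZMod p)) :
    Multiplicative.toAdd (f x) = 0 := by
  obtain ⟨η, hη, hη1⟩ := extend (fixS θ) f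
  have hpath := path η (x : F v)
  have h1 : η x = Multiplicative.toAdd (f x) := by
    have := hη x 1
    rw [mul_one, hη1, add_zero] at this
    exact this
  rw [hη1, h1, sub_zero] at hpath
  rw [← hpath]
  refine Finset.sum_eq_zero fun a _ => ?_
  -- the coset sums vanish
  set D : F v → ZMod p := fun w => η (w * gen a) - η w with hD
  have hDz : ∀ z : fixS θ, ∀ w, D (z * w) = D w := by
    intro z w
    simp only [hD]
    rw [mul_assoc, hη, hη]
    abel
  have hcos : ∀ u : F v, (p : ℤ) ∣ (fox a (x : F v)).sum
      (fun w m => if w * u⁻¹ ∈ fixS θ then m else 0) := by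
    intro u
    obtain ⟨ψ, hψ⟩ := h v p θ hp hθ a u
    have h2 := hψ x x.2
    have h3 : (p : ℤ) ∣ Multiplicative.toAdd (ψ (x : F v)) := by
      rw [hom_ev]
      exact Finset.dvd_sum fun a _ => Dvd.dvd.mul_right (hx a) _
    have h4 := dvd_sub h3 h2
    rw [sub_sub_cancel] at h4
    exact h4
  -- group by cosets
  let q : F v → Quotient (QuotientGroup.rightRel (fixS θ)) := fun y => Quotient.mk _ y
  have hq : ∀ w u : F v, q w = q u ↔ w * u⁻¹ ∈ fixS θ := by
    intro w u
    constructor
    · intro h
      have h1 : (QuotientGroup.rightRel (fixS θ)) u w := Quotient.exact h.symm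
      rw [QuotientGroup.rightRel_apply] at h1
      exact h1
    · intro h
      symm
      apply Quotient.sound
      change (QuotientGroup.rightRel (fixS θ)) u w
      rw [QuotientGroup.rightRel_apply]
      exact h
  unfold Finsupp.sum
  rw [← Finset.sum_fiberwise_of_maps_to (s := (fox a (x : F v)).support)
    (t := (fox a (x : F v)).support.image q) (g := q) (fun w hw => Finset.mem_image_of_mem q hw)]
  refine Finset.sum_eq_zero fun c hc => ?_
  obtain ⟨u, _, rfl⟩ := Finset.mem_image.1 hc
  have h5 : ∀ w ∈ (fox a (x : F v)).support.filter (fun w => q w = q u),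
      (fox a (x : F v)) w • (η (w * gen a) - η w) = (fox a (x : F v)) w • D u := by
    intro w hw
    have h6 := (hq w u).1 (Finset.mem_filter.1 hw).2
    have h7 := hDz ⟨_, h6⟩ u
    have h8 : ((⟨w * u⁻¹, h6⟩ : fixS θ) : F v) * u = w := by
      change w * u⁻¹ * u = w
      group
    rw [h8] at h7
    rw [← h7]
  rw [Finset.sum_congr rfl h5, ← Finset.sum_smul]
  have h9 : ∑ w ∈ (fox a (x : F v)).support.filter (fun w => q w = q u), (fox a (x : F v)) w =
      (fox a (x : F v)).sum (fun w m => if w * u⁻¹ ∈ fixS θ then m else 0) := by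
    rw [Finset.sum_filter]
    unfold Finsupp.sum
    refine Finset.sum_congr rfl fun w _ => ?_
    exact if_congr (hq w u) rfl rfl
  rw [h9]
  obtain ⟨k, hk⟩ := hcos u
  rw [hk, mul_smul]
  simp

end B3bAux

open B3bAux

theorem b3 (h : StB3a) : StB3 := by
  intro v p θ hp hθ
  have : Fact p.Prime := ⟨hp⟩
  have hfree : IsFreeGroup (fixS θ) := inferInstance
  obtain ⟨ι, ⟨B⟩⟩ : ∃ ι : Type, Nonempty (FreeGroupBasis ι (fixS θ)) :=
    ⟨_, ⟨IsFreeGroup.basis (fixS θ)⟩⟩
  -- no `v + 1` distinct basis elements
  have hcard : ∀ j : Fin (v + 1) → ι, ¬ Function.Injective j := by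
    intro j hj
    let L : (Fin (v + 1) → ZMod p) →ₗ[ZMod p] (Fin v → ZMod p) :=
      { toFun := fun c a => ∑ i, c i * ((ev ((B (j i) : fixS θ) : F v) a : ℤ) : ZMod p)
        map_add' := by
          intro c d
          funext a
          simp only [Pi.add_apply, add_mul, Finset.sum_add_distrib]
        map_smul' := by
          intro r c
          funext a
          simp only [Pi.smul_apply, smul_eq_mul, RingHom.id_apply, Finset.mul_sum, mul_assoc] }
    have hker : LinearMap.ker L ≠ ⊥ := LinearMap.ker_ne_bot_of_finrank_lt (by simp)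
    obtain ⟨c, hcL, hc0⟩ := Submodule.exists_mem_ne_zero_of_ne_bot hker
    obtain ⟨i0, hi0⟩ := Function.ne_iff.1 hc0
    -- the element
    set x : fixS θ := (List.ofFn (fun i => (B (j i)) ^ (c i).val)).prod with hx
    have hxev : ∀ a, (p : ℤ) ∣ ev (x : F v) a := by
      intro a
      let Φ : fixS θ →* Multiplicative (Fin v → ℤ) := (evh v).comp (fixS θ).subtype
      have h1 : Φ x = ∏ i, Φ ((B (j i)) ^ (c i).val) := by
        rw [hx, map_list_prod, List.map_ofFn, List.prod_ofFn]
        rfl
      have h2 : ev (x : F v) = ∑ i, (c i).val • ev ((B (j i) : fixS θ) : F v) := by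
        have h3 : ev (x : F v) = Multiplicative.toAdd (Φ x) := rfl
        rw [h3, h1, toAdd_prod]
        refine Finset.sum_congr rfl fun i _ => ?_
        rw [map_pow, toAdd_pow]
        rfl
      rw [h2, Finset.sum_apply]
      have h4 : (L c) a = 0 := by
        rw [LinearMap.mem_ker.1 hcL]
        rfl
      rw [← ZMod.intCast_zmod_eq_zero_iff_dvd]
      rw [← h4]
      push_cast
      refine Finset.sum_congr rfl fun i _ => ?_
      rw [Pi.smul_apply, nsmul_eq_mul]
      push_cast
      rw [ZMod.natCast_zmod_val]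
    let f : fixS θ →* Multiplicative (ZMod p) :=
      B.lift (fun k => if k = j i0 then Multiplicative.ofAdd (1 : ZMod p) else 1)
    have hfB : ∀ k, f (B k) = if k = j i0 then Multiplicative.ofAdd (1 : ZMod p) else 1 := by
      intro k
      have := congrFun (B.lift.symm_apply_apply
        (fun k => if k = j i0 then Multiplicative.ofAdd (1 : ZMod p) else 1)) k
      exact this
    have h5 := key h v p θ hp hθ x hxev f
    have h6 : f x = ∏ i, f ((B (j i)) ^ (c i).val) := by
      rw [hx, map_list_prod, List.map_ofFn, List.prod_ofFn]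
      rfl
    rw [h6, toAdd_prod] at h5
    apply hi0
    rw [Finset.sum_eq_single i0] at h5
    · rw [map_pow, toAdd_pow, hfB, if_pos rfl, toAdd_ofAdd, nsmul_eq_mul, mul_one,
        ZMod.natCast_zmod_val] at h5
      exact h5
    · intro i _ hi
      rw [map_pow, hfB, if_neg (fun h => hi (hj h)), one_pow, toAdd_one]
    · intro h
      exact absurd (Finset.mem_univ i0) h
  -- hence at most `v` elements
  have hfin : Finite ι := by
    by_contra hinf
    rw [not_finite_iff_infinite] at hinf
    exact hcard (fun i => Infinite.natEmbedding ι i) (fun a b hab => by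
      have := (Infinite.natEmbedding ι).injective hab
      exact Fin.ext this)
  have : Fintype ι := Fintype.ofFinite ι
  have hle : Fintype.card ι ≤ v := by
    by_contra hlt
    push Not at hlt
    have h1 : Fintype.card (Fin (v + 1)) ≤ Fintype.card ι := by simpa using hlt
    obtain ⟨e⟩ := Function.Embedding.nonempty_of_card_le h1
    exact hcard e e.injective
  obtain ⟨e⟩ : Nonempty (ι ↪ Fin v) := Function.Embedding.nonempty_of_card_le (by simpa using hle)
  refine ⟨fun i => if hi : ∃ k, e k = i then ((B (Classical.choose hi) : fixS θ) : F v) else 1, ?_⟩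
  apply le_antisymm
  · rw [Subgroup.closure_le]
    rintro _ ⟨i, rfl⟩
    by_cases hi : ∃ k, e k = i
    · simp only [dif_pos hi]
      exact (B (Classical.choose hi)).2
    · simp only [dif_neg hi]
      exact (fixS θ).one_mem
  · intro y hy
    have h1 : (⟨y, hy⟩ : fixS θ) ∈ Subgroup.closure (Set.range B) := by
      rw [closure_basis]
      trivial
    have h2 : y ∈ (Subgroup.closure (Set.range B)).map (fixS θ).subtype := ⟨_, h1, rfl⟩
    rw [MonoidHom.map_closure] at h2
    refine Subgroup.closure_mono ?_ h2
    rintro _ ⟨_, ⟨k, rfl⟩, rfl⟩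
    refine ⟨e k, ?_⟩
    have hk : ∃ k', e k' = e k := ⟨k, rfl⟩
    simp only [dif_pos hk]
    have h3 : Classical.choose hk = k := e.injective (Classical.choose_spec hk)
    rw [h3]
    rfl

end DL
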