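import Pool.Agent.Helper14.DL.St

set_option autoImplicit false

namespace DL

open scoped Classical

theorem bb (h1 : StB1) (h2 : StB2) (h3 : StB3) : StB := by
  intro v L hL hmin θ hθ
  obtain ⟨m, hm, hab⟩ := h1 v L hL hmin θ hθ
  have hpow : ∀ k : ℕ, ∀ x ∈ L, (θ ^ k) x = x := by
    intro k x hx
    induction k with
    | zero => simp
    | succ k ih => rw [pow_succ, MulAut.mul_apply, hθ x hx, ih]
  have hm1 : θ ^ m = 1 := h2 v L hL hmin (θ ^ m) (hpow m) hab
  by_contra hne
  have ho : orderOf θ ≠ 1 := by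
    intro h
    exact hne (orderOf_eq_one_iff.1 h)
  have ho0 : orderOf θ ≠ 0 := by
    intro h
    rw [orderOf_eq_zero_iff'] at h
    exact h m (by omega) hm1
  obtain ⟨p, hp, hpd⟩ := Nat.exists_prime_and_dvd ho
  obtain ⟨k, hk⟩ := hpd
  have hk0 : 0 < k := by
    rcases Nat.eq_zero_or_pos k with h | h
    · subst h
      rw [mul_zero] at hk
      exact absurd hk ho0
    · exact h
  have hθp : (θ ^ k) ^ p = 1 := by
    rw [← pow_mul, mul_comm, ← hk]
    exact pow_orderOf_eq_one θ
  have hd := h3 v p (θ ^ k) hp hθp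
  have htop := hmin (fixS (θ ^ k)) (fun x hx => hpow k x hx) hd
  have h1' : θ ^ k = 1 := by
    ext x
    have : x ∈ fixS (θ ^ k) := by
      rw [htop]
      exact Subgroup.mem_top x
    exact this
  have hdvd := orderOf_dvd_of_pow_eq_one h1'
  have hle := Nat.le_of_dvd hk0 hdvd
  rw [hk] at hle
  have := hp.two_le
  nlinarith

end DL
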