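import Pool.Agent.Helper14.DL.St

set_option autoImplicit false

/-!
Project DL (MP_2bc838_lc, S14533): the group form of the result from (5a) and (5c)-(5f).
-/

namespace DL

open scoped Classical

variable {n : ℕ}

theorem tl_shift_D (g : F n →* F n) (w : F n) (i : ℕ) : tl g ((g^[i]) w) 0 = tl g w i := by
  unfold tl
  congr 1
  ext x
  constructor
  · rintro ⟨j, _, rfl⟩
    exact ⟨j + i, Nat.le_add_left _ _, by rw [Function.iterate_add_apply]⟩
  · rintro ⟨j, hj, rfl⟩
    refine ⟨j - i, Nat.zero_le _, ?_⟩
    rw [← Function.iterate_add_apply, Nat.sub_add_cancel hj]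

theorem mem_tl_D (g : F n →* F n) (w : F n) {i j : ℕ} (h : i ≤ j) : (g^[j]) w ∈ tl g w i :=
  Subgroup.subset_closure ⟨j, h, rfl⟩

theorem dle_zero_D {G : Type} [Group G] {M : Subgroup G} (h : dle M 0) : M = ⊥ := by
  obtain ⟨x, hx⟩ := h
  rw [← hx]
  have : Set.range x = ∅ := Set.range_eq_empty _
  rw [this, Subgroup.closure_empty]

theorem dle_bot_D {G : Type} [Group G] : dle (⊥ : Subgroup G) 0 := by
  refine ⟨fun _ => 1, ?_⟩
  have : Set.range (fun _ : Fin 0 => (1 : G)) = ∅ := Set.range_eq_empty _
  rw [this, Subgroup.closure_empty]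

theorem d (h1 : StD1) (h3 : StD3) : StD := by
  intro n g h w hf hag
  obtain ⟨i, v, hiv, hPi, P, hP, htP, hgP, hPP, hPg⟩ := h1 n g w
  -- the early indices
  have hsmall : ∀ j, j < i → h ((g^[j]) w) = g ((g^[j]) w) := by
    intro j hj
    exact hag j (by omega)
  rcases Nat.eq_zero_or_pos v with hv | hv
  · subst hv
    obtain ⟨⟨M, hM1, _, hM3⟩, _⟩ := hPi
    have hM := dle_zero_D hM3
    rw [hM, le_bot_iff] at hM1
    intro j
    by_cases hj : j < i
    · exact hsmall j hj
    · have h4 := mem_tl_D g w (Nat.le_of_not_lt hj)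
      rw [hM1, Subgroup.mem_bot] at h4
      rw [h4, map_one, map_one]
  · have hne : (g^[i]) w ≠ 1 := by
      intro h0
      have h5 : tl g w i = ⊥ := by
        rw [eq_bot_iff, tl, Subgroup.closure_le]
        rintro x ⟨j, hj, rfl⟩
        have : (g^[j]) w = 1 := by
          rw [← Nat.sub_add_cancel hj, Function.iterate_add_apply, h0]
          exact iterate_map_one g _
        simp [this]
      rw [h5] at hPi
      have := hPi.2 ⊥ le_rfl bot_le 0 dle_bot_D
      omega
    have hf' := (hf i).resolve_left hne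
    have h6 := h3 n v g h ((g^[i]) w) P hv hP (htP (mem_tl_D g w le_rfl)) hgP hPP hPg
      (by rw [tl_shift_D]; exact hPi) hf' (by
        intro j hj
        rw [← Function.iterate_add_apply]
        exact hag (j + i) (by omega))
    intro j
    by_cases hj : j < i
    · exact hsmall j hj
    · have h7 := h6 (j - i)
      rw [← Function.iterate_add_apply, Nat.sub_add_cancel (Nat.le_of_not_lt hj)] at h7
      exact h7

end DL
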