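import Pool.Agent.Helper14.DL.St

set_option autoImplicit false

/-!
Project DL, module D1: the first stall of the ranks of the tails. (`StInv` is not needed.)
-/

namespace DL

open scoped Classical

theorem dle_top_D1 (n : ℕ) : dle (⊤ : Subgroup (F n)) n :=
  ⟨FreeGroup.of, FreeGroup.closure_range_of (Fin n)⟩

theorem dle_map_D1 {n m : ℕ} {P : Subgroup (F n)} {v : ℕ} (g : F n →* F m) (h : dle P v) :
    dle (P.map g) v := by
  obtain ⟨x, hx⟩ := h
  refine ⟨g ∘ x, ?_⟩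
  rw [Set.range_comp, ← MonoidHom.map_closure, hx]

theorem tl_succ_le_D1 {n : ℕ} (g : F n →* F n) (w : F n) (i : ℕ) :
    tl g w (i + 1) ≤ tl g w i := by
  unfold tl
  apply Subgroup.closure_mono
  rintro x ⟨j, hj, rfl⟩
  exact ⟨j, by omega, rfl⟩

theorem tl_succ_le_map_D1 {n : ℕ} (g : F n →* F n) (w : F n) (i : ℕ) :
    tl g w (i + 1) ≤ (tl g w i).map g := by
  unfold tl
  rw [Subgroup.closure_le]
  rintro x ⟨j, hj, rfl⟩
  obtain ⟨k, rfl⟩ : ∃ k, j = k + 1 := ⟨j - 1, by omega⟩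
  rw [Function.iterate_succ_apply']
  exact Subgroup.mem_map_of_mem g (Subgroup.subset_closure ⟨k, by omega, rfl⟩)

theorem d1 (he : StEx) (hj : StJoin) (_hi : StInv) : StD1 := by
  intro n g w
  have hex : ∀ i, ∃ r, r ≤ n ∧ Pi ⊤ (tl g w i) r := fun i =>
    he n ⊤ (tl g w i) ⊤ n le_top le_top (dle_top_D1 n)
  choose v hvn hv using hex
  have hmono : ∀ i, v (i + 1) ≤ v i := by
    intro i
    obtain ⟨M, hM1, hM2, hM3⟩ := (hv i).1
    exact (hv (i + 1)).2 M ((tl_succ_le_D1 g w i).trans hM1) hM2 _ hM3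
  obtain ⟨i, hin, hst⟩ : ∃ i, i + v i ≤ n ∧ v i = v (i + 1) := by
    by_contra hcon
    push Not at hcon
    have hall : ∀ i, i + v i ≤ n := by
      intro i
      induction i with
      | zero => simpa using hvn 0
      | succ i ih =>
        have h1 := hcon i ih
        have h2 := hmono i
        omega
    have := hall (n + 1)
    omega
  refine ⟨i, v i, hin, hv i, ?_⟩
  have hv' : Pi ⊤ (tl g w (i + 1)) (v i) := by rw [hst]; exact hv (i + 1)
  obtain ⟨P, hP1, -, hP3, hP4⟩ := hj n ⊤ (tl g w i) (v i) le_top (hv i)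
  obtain ⟨P', hP1', -, hP3', hP4'⟩ := hj n ⊤ (tl g w (i + 1)) (v i) le_top hv'
  have hPP' : P ≤ P' := hP4' P ((tl_succ_le_D1 g w i).trans hP1) le_top hP3
  have hP'P : P' ≤ P := hP4 P' (hP1.trans hPP') le_top hP3'
  have hmapge : tl g w (i + 1) ≤ P.map g :=
    (tl_succ_le_map_D1 g w i).trans (Subgroup.map_mono hP1)
  have hmap : P.map g ≤ P := (hP4' _ hmapge le_top (dle_map_D1 g hP3)).trans hP'P
  refine ⟨P, hP3, hP1, hmap, ⟨⟨P, le_rfl, le_top, hP3⟩, ?_⟩, ⟨⟨_, le_rfl, le_top,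
    dle_map_D1 g hP3⟩, ?_⟩⟩
  · intro M hM1 hM2 s hs
    exact (hv i).2 M (hP1.trans hM1) hM2 s hs
  · intro M hM1 hM2 s hs
    exact hv'.2 M (hmapge.trans hM1) hM2 s hs

end DL
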