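import Pool.Agent.Helper14.DL.St

set_option autoImplicit false

namespace DL

namespace D2

theorem pi_mono {G : Type} [Group G] {L L' : Subgroup G} {r r' : ℕ} (h : L ≤ L')
    (h1 : Pi ⊤ L r) (h2 : Pi ⊤ L' r') : r ≤ r' := by
  obtain ⟨⟨M, hM, -, hd⟩, -⟩ := h2
  exact h1.2 M (h.trans hM) le_top r' hd

variable {n : ℕ} (g : F n →* F n) (w : F n)

theorem it_mem {P : Subgroup (F n)} (hw : w ∈ P) (hP : P.map g ≤ P) (j : ℕ) : (g^[j]) w ∈ P := by
  induction j with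
  | zero => exact hw
  | succ j ih =>
    rw [Function.iterate_succ_apply']
    exact hP (Subgroup.mem_map_of_mem g ih)

theorem wi_le {P : Subgroup (F n)} (hw : w ∈ P) (hP : P.map g ≤ P) (l : ℕ) : wi g w l ≤ P := by
  unfold wi
  rw [Subgroup.closure_le]
  rintro x ⟨j, -, rfl⟩
  exact it_mem g w hw hP j

theorem tl_le {P : Subgroup (F n)} (hw : w ∈ P) (hP : P.map g ≤ P) : tl g w 0 ≤ P := by
  unfold tl
  rw [Subgroup.closure_le]
  rintro x ⟨j, -, rfl⟩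
  exact it_mem g w hw hP j

theorem wi_succ (l : ℕ) : wi g w l ≤ wi g w (l + 1) := by
  unfold wi
  apply Subgroup.closure_mono
  rintro x ⟨j, hj, rfl⟩
  exact ⟨j, by omega, rfl⟩

theorem map_wi (l : ℕ) : (wi g w l).map g ≤ wi g w (l + 1) := by
  rw [wi, MonoidHom.map_closure, Subgroup.closure_le]
  rintro x ⟨y, ⟨j, hj, rfl⟩, rfl⟩
  apply Subgroup.subset_closure
  refine ⟨j + 1, by omega, ?_⟩
  rw [Function.iterate_succ_apply']

theorem w_mem (l : ℕ) : w ∈ wi g w (l + 1) :=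
  Subgroup.subset_closure ⟨0, by omega, rfl⟩

theorem dle_succ {M : Subgroup (F n)} {p : ℕ} (h : dle M p) (y : F n) :
    ∃ M', M ≤ M' ∧ y ∈ M' ∧ dle M' (p + 1) := by
  obtain ⟨x, rfl⟩ := h
  refine ⟨_, ?_, ?_, Fin.cons y x, rfl⟩
  · apply Subgroup.closure_mono
    rintro _ ⟨i, rfl⟩
    exact ⟨i.succ, by simp⟩
  · apply Subgroup.subset_closure
    exact ⟨0, by simp⟩

theorem wi_step {M : Subgroup (F n)} {l : ℕ} (h : wi g w l ≤ M) (hy : (g^[l]) w ∈ M) :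
    wi g w (l + 1) ≤ M := by
  rw [wi, Subgroup.closure_le]
  rintro x ⟨j, hj, rfl⟩
  rcases Nat.lt_succ_iff_lt_or_eq.mp hj with h1 | h1
  · exact h (Subgroup.subset_closure ⟨j, h1, rfl⟩)
  · rw [h1]; exact hy

theorem dle_map {m : ℕ} {M : Subgroup (F n)} {p : ℕ} (f : F n →* F m) (h : dle M p) :
    dle (M.map f) p := by
  obtain ⟨x, rfl⟩ := h
  refine ⟨fun i => f (x i), ?_⟩
  rw [MonoidHom.map_closure, ← Set.range_comp]
  rfl

theorem key (hj : StJoin) (hi : StInv) (v : ℕ) (P : Subgroup (F n)) (hd : dle P v) (hw : w ∈ P)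
    (hP : P.map g ≤ P) (h1 : Pi ⊤ P v) (h2 : Pi ⊤ (P.map g) v) (h3 : Pi ⊤ (tl g w 0) v)
    (l p : ℕ) (hp : Pi ⊤ (wi g w l) p) (hp' : Pi ⊤ (wi g w (l + 1)) p) : v ≤ p := by
  obtain ⟨-, hinv⟩ := hi n n P v g hd h1 h2
  have hg : Pi ⊤ ((wi g w l).map g) p := hinv _ (wi_le g w hw hP l) p hp
  obtain ⟨C, hC1, -, hC3, hC4⟩ := hj n ⊤ (wi g w l) p le_top hp
  obtain ⟨⟨M, hM1, -, hM3⟩, -⟩ := hp'
  have hMC : M ≤ C := hC4 M ((wi_succ g w l).trans hM1) le_top hM3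
  have hwC : wi g w (l + 1) ≤ C := hM1.trans hMC
  obtain ⟨C', hD1, -, hD3, hD4⟩ := hj n ⊤ ((wi g w l).map g) p le_top hg
  have hCC' : C ≤ C' := hD4 C ((map_wi g w l).trans hwC) le_top hC3
  have hgC : C.map g ≤ C' := hD4 (C.map g) (Subgroup.map_mono hC1) le_top (dle_map g hC3)
  have hC'C : C' ≤ C := hC4 C' (hC1.trans hCC') le_top hD3
  have hle : tl g w 0 ≤ C := tl_le g w (hwC (w_mem g w l)) (hgC.trans hC'C)
  exact h3.2 C hle le_top p hC3

end D2

open D2 in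
theorem d2 (he : StEx) (hj : StJoin) (hi : StInv) : StD2 := by
  intro n v g w P hd hw hP h1 h2 h3 l
  induction l with
  | zero =>
    rw [Nat.zero_min]
    refine ⟨⟨⊥, ?_, le_top, fun i => 1, ?_⟩, fun _ _ _ s _ => Nat.zero_le s⟩
    · rw [wi, Subgroup.closure_le]
      rintro x ⟨j, hj, -⟩
      exact absurd hj (Nat.not_lt_zero j)
    · rw [Set.range_eq_empty, Subgroup.closure_empty]
  | succ l ih =>
    obtain ⟨r, hrv, hr⟩ := he n ⊤ (wi g w (l + 1)) P v (wi_le g w hw hP _) le_top hd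
    have hmono : min l v ≤ r := pi_mono (wi_succ g w l) ih hr
    have hup : r ≤ min l v + 1 := by
      obtain ⟨⟨M, hM1, -, hM3⟩, -⟩ := ih
      obtain ⟨M', hM', hy, hdM'⟩ := dle_succ hM3 ((g^[l]) w)
      exact hr.2 M' (wi_step g w (hM1.trans hM') hy) le_top _ hdM'
    have hr2 : r = min (l + 1) v := by
      rcases Nat.lt_or_ge (min l v) r with h | h
      · omega
      · have hrl : r = min l v := le_antisymm h hmono
        have := key g w hj hi v P hd hw hP h1 h2 h3 l r (hrl ▸ ih) hr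
        omega
    exact hr2 ▸ hr

end DL
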