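import Pool.Agent.Helper14.DL.St

set_option autoImplicit false

/-! Module EQ: equivariance of the coefficients under a relabelling automorphism. -/

namespace DL

open scoped Classical

section

variable {v : ℕ} {o o' : BO (F v)} (M : MF o) (M' : MF o') (θ : F v ≃* F v)
  (hθ : ∀ a b, o.lt a b ↔ o'.lt (θ a) (θ b))

include hθ in
private theorem wf_EQ (a : M.K) :
    (Function.support (fun g => M.cf a (θ.symm g))).WellFoundedOn o'.lt := by
  have h1 : Function.support (fun g => M.cf a (θ.symm g)) = θ '' (Function.support (M.cf a)) := by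
    ext g
    constructor
    · intro hg
      exact ⟨θ.symm g, hg, θ.apply_symm_apply g⟩
    · rintro ⟨h, hh, rfl⟩
      show M.cf a (θ.symm (θ h)) ≠ 0
      rw [θ.symm_apply_apply]
      exact hh
  rw [h1, Set.wellFoundedOn_image]
  have h2 : Function.onFun o'.lt (θ : F v → F v) = o.lt := by
    funext a b
    exact propext (hθ a b).symm
  rw [h2]
  exact M.wf a

/-- the relabelling -/
private noncomputable def Th_EQ (a : M.K) : M'.K := Classical.choose (M'.ex _ (wf_EQ M θ hθ a))

private theorem cf_Th (a : M.K) (g : F v) :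
    M'.cf (Th_EQ M M' θ hθ a) g = M.cf a (θ.symm g) :=
  congrFun (Classical.choose_spec (M'.ex _ (wf_EQ M θ hθ a))) g

private theorem Th_add (a b : M.K) :
    Th_EQ M M' θ hθ (a + b) = Th_EQ M M' θ hθ a + Th_EQ M M' θ hθ b := by
  apply M'.ext'
  intro g
  rw [cf_Th, M.add, M'.add, cf_Th, cf_Th]

private theorem Th_mul (a b : M.K) :
    Th_EQ M M' θ hθ (a * b) = Th_EQ M M' θ hθ a * Th_EQ M M' θ hθ b := by
  apply M'.ext'
  intro p
  rw [cf_Th, M.mul, M'.mul]
  simp only [cf_Th]
  rw [← finsum_comp_equiv θ.symm.toEquiv]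
  apply finsum_congr
  intro f
  show M.cf a (θ.symm f) * M.cf b ((θ.symm f)⁻¹ * θ.symm p) =
    M.cf a (θ.symm f) * M.cf b (θ.symm (f⁻¹ * p))
  rw [map_mul, map_inv]

private noncomputable def ThH : M.K →+ M'.K :=
  AddMonoidHom.mk' (Th_EQ M M' θ hθ) (Th_add M M' θ hθ)

private theorem ThH_mul (a b : M.K) :
    ThH M M' θ hθ (a * b) = ThH M M' θ hθ a * ThH M M' θ hθ b := Th_mul M M' θ hθ a b

private theorem cf_ThH (a : M.K) (g : F v) :
    M'.cf (ThH M M' θ hθ a) g = M.cf a (θ.symm g) := cf_Th M M' θ hθ a g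

private theorem ThH_of (g : F v) : ThH M M' θ hθ (M.of g) = M'.of (θ g) := by
  apply M'.ext'
  intro p
  rw [cf_ThH, M.cf_of, M'.cf_of]
  have : (θ.symm p = g) ↔ (p = θ g) := by
    constructor
    · rintro rfl
      rw [θ.apply_symm_apply]
    · rintro rfl
      rw [θ.symm_apply_apply]
  by_cases h : p = θ g
  · rw [if_pos h, if_pos (this.2 h)]
  · rw [if_neg h, if_neg (fun h2 => h (this.1 h2))]

/-- the chain rule side -/
private noncomputable def DD (g : F v) : Fin v → M'.K :=
  fun a => ∑ b, ThH M M' θ hθ (nab M g b) * nab M' (θ (gen b)) a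

private theorem DD_one : DD M M' θ hθ 1 = 0 := by
  funext a
  unfold DD
  simp [nab_one]

private theorem DD_mul (g h : F v) :
    DD M M' θ hθ (g * h) = DD M M' θ hθ g + M'.of (θ g) • DD M M' θ hθ h := by
  funext a
  unfold DD
  rw [Pi.add_apply, Pi.smul_apply, smul_eq_mul, Finset.mul_sum, ← Finset.sum_add_distrib]
  refine Finset.sum_congr rfl fun b _ => ?_
  rw [nab_mul, Pi.add_apply, Pi.smul_apply, smul_eq_mul, map_add, ThH_mul, ThH_of, add_mul,
    mul_assoc]

private theorem nab_gen (b a : Fin v) : nab M (gen b) a = if a = b then 1 else 0 := by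
  apply M.ext'
  intro w
  rw [cf_nab, fox_of]
  split_ifs with h
  · rw [M.one, Finsupp.single_apply]
    by_cases hw : w = 1
    · rw [if_pos hw.symm, if_pos hw]
      norm_num
    · rw [if_neg (fun h => hw h.symm), if_neg hw]
      norm_num
  · rw [M.cf_zero]
    simp

private theorem ThH_one : ThH M M' θ hθ 1 = 1 := by
  rw [← M.of_one, ThH_of, map_one, M'.of_one]

private theorem chain (g : F v) : nab M' (θ g) = DD M M' θ hθ g := by
  have hof : ∀ b : Fin v, nab M' (θ (gen b)) = DD M M' θ hθ (gen b) := by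
    intro b
    funext a
    unfold DD
    rw [Finset.sum_eq_single b]
    · rw [nab_gen, if_pos rfl, ThH_one, one_mul]
    · intro c _ hc
      rw [nab_gen, if_neg hc, map_zero, zero_mul]
    · intro h
      exact absurd (Finset.mem_univ b) h
  induction g using FreeGroup.induction_on with
  | C1 => rw [map_one, nab_one, DD_one]
  | of b => exact hof b
  | inv_of b _ =>
    have h1 : nab M' (θ (gen b)) + M'.of (θ (gen b)) • nab M' (θ (gen b)⁻¹) = 0 := by
      rw [← nab_mul, ← map_mul, mul_inv_cancel, map_one, nab_one]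
    have h2 : DD M M' θ hθ (gen b) + M'.of (θ (gen b)) • DD M M' θ hθ (gen b)⁻¹ = 0 := by
      rw [← DD_mul, mul_inv_cancel, DD_one]
    rw [hof b] at h1
    have h3 := add_left_cancel (h1.trans h2.symm)
    have h4 := congrArg (fun t => M'.of (θ (gen b))⁻¹ • t) h3
    simp only [smul_smul, ← M'.of_mul, inv_mul_cancel, M'.of_one, one_smul] at h4
    exact h4
  | mul g h ihg ihh =>
    rw [map_mul, nab_mul, DD_mul, ihg, ihh]

end

theorem eq : StEq := by
  intro v o o' M M' θ hθ x y hx hy c c' hc h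
  have hcc : ∀ i, c' i = ThH M M' θ hθ (c i) := by
    intro i
    apply M'.ext'
    intro g
    rw [cf_ThH, ← hc i (θ.symm g), θ.apply_symm_apply]
  have h1 : nab M' y = DD M M' θ hθ y := by
    rw [← chain, hy]
  have h2 : ∀ i, nab M' (x i) = DD M M' θ hθ (x i) := by
    intro i
    rw [← chain, hx]
  rw [h1]
  funext a
  rw [Finset.sum_apply]
  simp only [Pi.smul_apply, smul_eq_mul, h2, hcc]
  unfold DD
  rw [h]
  have h3 : ∀ b, ThH M M' θ hθ ((∑ i, c i • nab M (x i)) b) =
      ∑ i, ThH M M' θ hθ (c i) * ThH M M' θ hθ (nab M (x i) b) := by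
    intro b
    rw [Finset.sum_apply, map_sum]
    refine Finset.sum_congr rfl fun i _ => ?_
    rw [Pi.smul_apply, smul_eq_mul, ThH_mul]
  simp only [h3, Finset.sum_mul, Finset.mul_sum, mul_assoc]
  exact Finset.sum_comm

end DL
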