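import Pool.Agent.Helper14.DL.St

set_option autoImplicit false

/-!
Project DL (MP_2bc838_lc, S14533): final assembly.
-/

namespace DL

/-- positive words in the free group -/
def posFIN {n : ℕ} (u : List (Fin n)) : F n := (u.map FreeGroup.of).prod

theorem posFIN_nil {n : ℕ} : posFIN ([] : List (Fin n)) = 1 := rfl

theorem posFIN_cons {n : ℕ} (a : Fin n) (u : List (Fin n)) :
    posFIN (a :: u) = FreeGroup.of a * posFIN u := by
  simp [posFIN]

theorem posFIN_append {n : ℕ} (u v : List (Fin n)) :
    posFIN (u ++ v) = posFIN u * posFIN v := by
  simp [posFIN]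

theorem posFIN_mk {n : ℕ} (u : List (Fin n)) :
    posFIN u = FreeGroup.mk (u.map fun a => (a, true)) := by
  induction u with
  | nil => rfl
  | cons a u ih =>
    rw [posFIN_cons, ih, FreeGroup.of, FreeGroup.mul_mk]
    rfl

theorem reduceFIN {n : ℕ} (u : List (Fin n)) :
    FreeGroup.reduce (u.map fun a => (a, true)) = u.map fun a => (a, true) := by
  induction u with
  | nil => rfl
  | cons a u ih =>
    rw [List.map_cons, FreeGroup.reduce.cons, ih]
    cases u with
    | nil => rfl
    | cons b u => simp

theorem posFIN_inj {n : ℕ} (u v : List (Fin n)) (h : posFIN u = posFIN v) : u = v := by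
  rw [posFIN_mk, posFIN_mk] at h
  have h1 := congrArg FreeGroup.toWord h
  rw [FreeGroup.toWord_mk, FreeGroup.toWord_mk, reduceFIN, reduceFIN] at h1
  have h2 := congrArg (List.map Prod.fst) h1
  simpa [List.map_map, Function.comp_def] using h2

/-- the extension of a morphism to the free group -/
def extFIN {n : ℕ} (h : Fin n → List (Fin n)) : F n →* F n :=
  FreeGroup.lift fun a => posFIN (h a)

theorem extFIN_pos {n : ℕ} (h : Fin n → List (Fin n)) (u : List (Fin n)) :
    extFIN h (posFIN u) = posFIN (u.flatMap h) := by
  induction u with
  | nil => simp [posFIN_nil]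
  | cons a u ih =>
    rw [posFIN_cons, map_mul, ih, List.flatMap_cons, posFIN_append]
    congr 1
    simp [extFIN]

theorem extFIN_iter {n : ℕ} (h : Fin n → List (Fin n)) (u : List (Fin n)) (j : ℕ) :
    ((extFIN h)^[j]) (posFIN u) = posFIN ((fun v : List (Fin n) => v.flatMap h)^[j] u) := by
  induction j with
  | zero => rfl
  | succ j ih => rw [Function.iterate_succ_apply', ih, Function.iterate_succ_apply', extFIN_pos]

/-- the length homomorphism -/
noncomputable def lenFIN (n : ℕ) : F n →* Multiplicative ℚ :=
  FreeGroup.lift fun _ => Multiplicative.ofAdd (1 : ℚ)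

theorem lenFIN_pos {n : ℕ} (u : List (Fin n)) :
    lenFIN n (posFIN u) = Multiplicative.ofAdd (u.length : ℚ) := by
  induction u with
  | nil => simp [posFIN_nil]
  | cons a u ih =>
    rw [posFIN_cons, map_mul, ih]
    have : lenFIN n (FreeGroup.of a) = Multiplicative.ofAdd (1 : ℚ) := by simp [lenFIN]
    rw [this, ← ofAdd_add, List.length_cons]
    congr 1
    push_cast
    ring

theorem fin (h : StD) :
    ∀ (n : ℕ) (h₁ h₂ : Fin n → List (Fin n)) (w₁ w₂ : List (Fin n)),
      (∀ k : ℕ, (fun u : List (Fin n) => u.flatMap h₁)^[k] w₁ =
                 (fun u : List (Fin n) => u.flatMap h₂)^[k] w₂) ↔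
      (∀ k : ℕ, k < 2 * n →
                 (fun u : List (Fin n) => u.flatMap h₁)^[k] w₁ =
                 (fun u : List (Fin n) => u.flatMap h₂)^[k] w₂) := by
  intro n h₁ h₂ w₁ w₂
  constructor
  · intro H k _
    exact H k
  · intro H
    rcases Nat.eq_zero_or_pos n with hn | hn
    · subst hn
      intro k
      exact Subsingleton.elim _ _
    · have hw : w₁ = w₂ := H 0 (by omega)
      subst hw
      have key := h n (extFIN h₁) (extFIN h₂) (posFIN w₁) (by
        intro j
        rw [extFIN_iter]
        by_cases hu : (fun v : List (Fin n) => v.flatMap h₁)^[j] w₁ = []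
        · left
          rw [hu, posFIN_nil]
        · right
          refine ⟨lenFIN n, ?_⟩
          rw [lenFIN_pos]
          intro h1
          apply hu
          have h2 : (((fun v : List (Fin n) => v.flatMap h₁)^[j] w₁).length : ℚ) = 0 := by
            have := congrArg Multiplicative.toAdd h1
            simpa using this
          have h3 : ((fun v : List (Fin n) => v.flatMap h₁)^[j] w₁).length = 0 := by
            exact_mod_cast h2
          exact List.length_eq_zero_iff.1 h3) (by
        intro j hj
        rw [extFIN_iter, extFIN_pos, extFIN_pos]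
        congr 1
        have e1 := H j (by omega)
        have e2 := H (j + 1) hj
        rw [Function.iterate_succ_apply', Function.iterate_succ_apply'] at e2
        rw [e2, e1])
      intro k
      induction k with
      | zero => rfl
      | succ k ih =>
        have e := key k
        rw [extFIN_iter, extFIN_pos, extFIN_pos] at e
        have e1 := posFIN_inj _ _ e
        rw [Function.iterate_succ_apply', Function.iterate_succ_apply', ← ih]
        exact e1.symm

end DL
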