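import Pool.Agent.Helper14.DL.St
import Pool.Agent.Helper14.DL.Lin

set_option autoImplicit false

/-!
Project DL, module HULL: the smallest `r`-generated overgroup (2c), the minimality criterion (G), and
the existence of a basis which serves for all orders.
-/

namespace DL

open scoped Classical

namespace HULLm

variable {n : ℕ} {o : BO (F n)} (M : MF o)

theorem sub_mono {E E' : Subgroup (F n)} (h : E ≤ E') {a : M.K} (ha : a ∈ M.sub E) : a ∈ M.sub E' :=
  fun g hg => h (ha g hg)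

/-- elements of the span of a finite family of gradients -/
theorem mem_span_iff (E : Subgroup (F n)) {r : ℕ} (x : Fin r → F n) (z : Fin n → M.K) :
    z ∈ Submodule.span (M.sub E) (Set.range fun i => nab M (x i)) ↔
      ∃ c : Fin r → M.K, z = ∑ i, c i • nab M (x i) ∧ ∀ i, c i ∈ M.sub E := by
  rw [Submodule.mem_span_range_iff_exists_fun]
  constructor
  · rintro ⟨c, hc⟩
    exact ⟨fun i => (c i : M.K), hc.symm, fun i => (c i).2⟩
  · rintro ⟨c, hc, hm⟩
    exact ⟨fun i => ⟨c i, hm i⟩, hc.symm⟩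

/-- linear independence over a division subring, in terms of coefficients in the field -/
theorem li_iff (E : Subgroup (F n)) {r : ℕ} (x : Fin r → F n) :
    LinearIndependent (M.sub E) (fun i => nab M (x i)) ↔
      ∀ c : Fin r → M.K, (∀ i, c i ∈ M.sub E) → ∑ i, c i • nab M (x i) = 0 → ∀ i, c i = 0 := by
  rw [Fintype.linearIndependent_iff]
  constructor
  · intro h c hc h0 i
    have h1 := h (fun i => ⟨c i, hc i⟩) h0 i
    exact congrArg Subtype.val h1
  · intro h c h0 i
    have h1 := h (fun i => (c i : M.K)) (fun i => (c i).2) h0 i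
    exact Subtype.ext h1

theorem li_K_iff {r : ℕ} (x : Fin r → F n) :
    LinearIndependent M.K (fun i => nab M (x i)) ↔
      ∀ c : Fin r → M.K, ∑ i, c i • nab M (x i) = 0 → ∀ i, c i = 0 :=
  Fintype.linearIndependent_iff

theorem mem_top (a : M.K) : a ∈ M.sub ⊤ := fun _ _ => Subgroup.mem_top _

theorem li_top_iff {r : ℕ} (x : Fin r → F n) :
    LinearIndependent (M.sub ⊤) (fun i => nab M (x i)) ↔
      LinearIndependent M.K (fun i => nab M (x i)) := by
  rw [li_iff, li_K_iff]
  exact ⟨fun h c h0 => h c (fun i => mem_top M _) h0, fun h c _ h0 => h c h0⟩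

theorem li_mono {E E' : Subgroup (F n)} (h : E ≤ E') {r : ℕ} (x : Fin r → F n)
    (hli : LinearIndependent (M.sub E') (fun i => nab M (x i))) :
    LinearIndependent (M.sub E) (fun i => nab M (x i)) := by
  rw [li_iff] at hli ⊢
  exact fun c hc h0 => hli c (fun i => sub_mono M h (hc i)) h0

/-- uniqueness of coefficients -/
theorem coef_unique (E : Subgroup (F n)) {r : ℕ} (x : Fin r → F n)
    (hli : LinearIndependent (M.sub E) (fun i => nab M (x i))) (c c' : Fin r → M.K)
    (hc : ∀ i, c i ∈ M.sub E) (hc' : ∀ i, c' i ∈ M.sub E)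
    (h : ∑ i, c i • nab M (x i) = ∑ i, c' i • nab M (x i)) : c = c' := by
  rw [li_iff] at hli
  funext i
  have h1 := hli (fun i => c i - c' i) (fun i => (M.sub E).sub_mem (hc i) (hc' i)) (by
    simp only [sub_smul, Finset.sum_sub_distrib]
    rw [h, sub_self]) i
  exact sub_eq_zero.1 h1

/-- equations with coefficients in `K_N` compute `rho_N` -/
theorem isRho_of_coef {N L : Subgroup (F n)} {r : ℕ} (x : Fin r → F n) (hx : ∀ i, x i ∈ L)
    (hli : LinearIndependent (M.sub N) (fun i => nab M (x i)))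
    (hc : ∀ y ∈ L, ∃ c : Fin r → M.K, nab M y = ∑ i, c i • nab M (x i) ∧ ∀ i, c i ∈ M.sub N) :
    IsRho M N L r := by
  refine ⟨x, hx, hli, le_antisymm ?_ ?_⟩
  · apply Submodule.span_le.2
    rintro _ ⟨y, hy, rfl⟩
    exact (mem_span_iff M N x _).2 (hc y hy)
  · apply Submodule.span_mono
    rintro _ ⟨i, rfl⟩
    exact ⟨x i, hx i, rfl⟩

/-- if `rho_{M'}(L) = r` then every `K_{M'}`-independent family of `r` gradients of elements of `L` is a basis -/
theorem span_of_isRho {M' L : Subgroup (F n)} {r : ℕ} (h : IsRho M M' L r) (x : Fin r → F n)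
    (hx : ∀ i, x i ∈ L) (hli : LinearIndependent (M.sub M') (fun i => nab M (x i))) :
    V M M' L = Submodule.span (M.sub M') (Set.range fun i => nab M (x i)) := by
  have hfd := IsRho.fd M h
  have hfr := IsRho.finrank M h
  symm
  apply Submodule.eq_of_le_of_finrank_eq
  · apply Submodule.span_mono
    rintro _ ⟨i, rfl⟩
    exact ⟨x i, hx i, rfl⟩
  · rw [hfr, finrank_span_eq_card hli]
    simp

/-- the coefficients lie in `K_{M'}` for every `r`-generated `M'` between `L` and `E` -/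
theorem coef_mem (hp : StPi) {E L M' : Subgroup (F n)} {r : ℕ} (hpi : Pi E L r) (hLM : L ≤ M')
    (hME : M' ≤ E) (hd : dle M' r) (x : Fin r → F n) (hx : ∀ i, x i ∈ L)
    (hli : LinearIndependent (M.sub E) (fun i => nab M (x i))) {y : F n} (hy : y ∈ L)
    (c : Fin r → M.K) (hc : ∀ i, c i ∈ M.sub E) (hyc : nab M y = ∑ i, c i • nab M (x i)) :
    ∀ i, c i ∈ M.sub M' := by
  have hpi' : Pi M' L r :=
    ⟨⟨M', hLM, le_refl _, hd⟩, fun M'' h1 h2 s hs => hpi.2 M'' h1 (h2.trans hME) s hs⟩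
  have hrho : IsRho M M' L r := (hp n o M M' L hLM r).2 hpi'
  have hV := span_of_isRho M hrho x hx (li_mono M hME x hli)
  have hmem : nab M y ∈ V M M' L := nab_mem_V M hy
  rw [hV, mem_span_iff] at hmem
  obtain ⟨c', hc1, hc2⟩ := hmem
  have heq := coef_unique M E x hli c c' hc (fun i => sub_mono M hME (hc2 i)) (hyc.symm.trans hc1)
  rw [heq]
  exact hc2

end HULLm

open HULLm

theorem hull (h1 : StMNF) (h2 : StMord) (_h : StA) (hp : StPi) : StHull := by
  intro n E L r hLE hpi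
  obtain ⟨o, -⟩ := h2 n
  obtain ⟨M⟩ := h1 (F n) o
  have hrho : IsRho M E L r := (hp n o M E L hLE r).2 hpi
  obtain ⟨x, hx, hli, hV⟩ := hrho
  have hco : ∀ y ∈ L, ∃ c : Fin r → M.K, nab M y = ∑ i, c i • nab M (x i) ∧ ∀ i, c i ∈ M.sub E := by
    intro y hy
    rw [← mem_span_iff, ← hV]
    exact nab_mem_V M hy
  choose! c hc1 hc2 using hco
  let N : Subgroup (F n) :=
    Subgroup.closure ((L : Set (F n)) ∪ {g | ∃ y ∈ L, ∃ i, M.cf (c y i) g ≠ 0})
  have hLN : L ≤ N := fun g hg => Subgroup.subset_closure (Or.inl hg)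
  have hNE : N ≤ E := by
    rw [Subgroup.closure_le]
    rintro g (hg | ⟨y, hy, i, hi⟩)
    · exact hLE hg
    · exact hc2 y hy i g hi
  have hcN : ∀ y ∈ L, ∀ i, c y i ∈ M.sub N := fun y hy i g hg =>
    Subgroup.subset_closure (Or.inr ⟨y, hy, i, hg⟩)
  have hrN : IsRho M N L r :=
    isRho_of_coef M x hx (li_mono M hNE x hli) (fun y hy => ⟨c y, hc1 y hy, hcN y hy⟩)
  have hmin : ∀ M', L ≤ M' → M' ≤ E → dle M' r → N ≤ M' := by
    intro M' hLM hME hd
    rw [Subgroup.closure_le]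
    rintro g (hg | ⟨y, hy, i, hi⟩)
    · exact hLM hg
    · exact coef_mem M hp hpi hLM hME hd x hx hli hy (c y) (hc2 y hy) (hc1 y hy) i g hi
  obtain ⟨⟨C, hLC, hCN, hdC⟩, -⟩ := (hp n o M N L hLN r).1 hrN
  have hNC : N ≤ C := hmin C hLC (hCN.trans hNE) hdC
  have hCN' : C = N := le_antisymm hCN hNC
  exact ⟨N, hLN, hNE, hCN' ▸ hdC, hmin⟩

theorem gmin (hp : StPi) : StG := by
  intro v L E hLE _ hmin o M x hx hli hc
  have hliE : LinearIndependent (M.sub E) (fun i => nab M (x i)) :=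
    li_mono M le_top x ((li_top_iff M x).2 hli)
  have hrho : IsRho M E L v := isRho_of_coef M x hx hliE hc
  obtain ⟨⟨C, hLC, hCE, hdC⟩, -⟩ := (hp v o M E L hLE v).1 hrho
  have hC := hmin C hLC hdC
  rw [hC] at hCE
  exact top_le_iff.1 hCE

theorem bas (h1 : StMNF) (h2 : StMord) (hp : StPi) : StBas := by
  intro v L hpi
  obtain ⟨o, -⟩ := h2 v
  obtain ⟨M⟩ := h1 (F v) o
  obtain ⟨x, hx, hli, -⟩ := (hp v o M ⊤ L le_top v).2 hpi
  refine ⟨x, hx, fun o' M' => ?_⟩
  have hP : IsRho M ⊤ (Subgroup.closure (Set.range x)) v :=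
    ⟨x, fun i => Subgroup.subset_closure ⟨i, rfl⟩, hli, V_range M x (fun i => Subgroup.mem_top _)⟩
  have hpiP : Pi ⊤ (Subgroup.closure (Set.range x)) v := (hp v o M ⊤ _ le_top v).1 hP
  have hP' : IsRho M' ⊤ (Subgroup.closure (Set.range x)) v := (hp v o' M' ⊤ _ le_top v).2 hpiP
  have hfr := IsRho.finrank M' hP'
  rw [V_range M' x (fun i => Subgroup.mem_top _)] at hfr
  rw [← li_top_iff]
  apply linearIndependent_iff_card_eq_finrank_span.2
  rw [Fintype.card_fin]
  exact hfr.symm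

end DL
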