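import Pool.Agent.Helper14.DL.PI

set_option autoImplicit false

/-! Project DL: module INV (StInv, StTop, StHullMap). -/

namespace DL

open scoped Classical

namespace INVm

section

variable {G : Type} [Group G] {o : BO G} (M : MF o)

/-- independence of the rows of a matrix over `M.sub P` passes to `M.K` -/
theorem ext_li {s : ℕ} {J : Type} (P : Subgroup G) (A : Fin s → J → M.K)
    (hA : ∀ i j, A i j ∈ M.sub P)
    (h : ∀ c : Fin s → M.K, (∀ i, c i ∈ M.sub P) → (∀ j, ∑ i, c i * A i j = 0) → ∀ i, c i = 0)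
    (c : Fin s → M.K) (hc : ∀ j, ∑ i, c i * A i j = 0) : ∀ i, c i = 0 := by
  by_contra hcon
  push Not at hcon
  obtain ⟨i₀, hi₀⟩ := hcon
  have hp : ∃ p, M.cf (c i₀) p ≠ 0 := by
    by_contra h1
    push Not at h1
    apply hi₀
    apply M.ext'
    intro g
    rw [h1 g, M.cf_zero]
  obtain ⟨p, hp⟩ := hp
  choose κ hκ using fun i => M.restrict_ex (M.of p⁻¹ * c i) (P : Set G)
  have hκP : ∀ i, κ i ∈ M.sub P := by
    intro i g hg
    rw [hκ] at hg
    by_contra hne
    exact hg (if_neg hne)
  have hsum : ∀ j, ∑ i, κ i * A i j = 0 := by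
    intro j
    apply M.ext'
    intro u
    rw [M.cf_zero]
    by_cases hu : u ∈ P
    · have h1 : ∀ i, M.cf (κ i * A i j) u = M.cf (M.of p⁻¹ * c i * A i j) u := by
        intro i
        rw [M.mul, M.mul]
        apply finsum_congr
        intro f
        by_cases hf : f ∈ P
        · rw [hκ, if_pos (show f ∈ (P : Set G) from hf)]
        · have h2 : M.cf (A i j) (f⁻¹ * u) = 0 := by
            by_contra hne
            have h3 := hA i j _ hne
            apply hf
            have h4 := P.mul_mem hu (P.inv_mem h3)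
            have h5 : u * (f⁻¹ * u)⁻¹ = f := by group
            rwa [h5] at h4
          rw [h2, mul_zero, mul_zero]
      rw [M.cf_sum, Finset.sum_congr rfl (fun i _ => h1 i), ← M.cf_sum]
      simp only [mul_assoc]
      rw [← Finset.mul_sum, hc j, mul_zero, M.cf_zero]
    · by_contra hne
      apply hu
      have h6 : ∑ i, κ i * A i j ∈ M.sub P :=
        (M.sub P).sum_mem fun i _ => (M.sub P).mul_mem (hκP i) (hA i j)
      exact h6 u hne
  have h7 := h κ hκP hsum i₀
  have h8 := hκ i₀ 1
  rw [h7, M.cf_zero, if_pos (show (1 : G) ∈ (P : Set G) from P.one_mem), M.cf_of_mul] at h8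
  apply hp
  rw [h8]
  simp

end

section

variable {n : ℕ} {o : BO (F n)} (M : MF o)

theorem mem_top (a : M.K) : a ∈ M.sub (⊤ : Subgroup (F n)) := fun _ _ => Subgroup.mem_top _

theorem li_top {s : ℕ} (w : Fin s → Fin n → M.K) :
    LinearIndependent (M.sub ⊤) w ↔ LinearIndependent M.K w := by
  rw [Fintype.linearIndependent_iff, Fintype.linearIndependent_iff]
  constructor
  · intro h c hc i
    have h1 := h (fun i => ⟨c i, mem_top M (c i)⟩) hc i
    exact congrArg Subtype.val h1
  · intro h c hc i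
    have h1 := h (fun i => (c i : M.K)) hc i
    exact Subtype.ext h1

/-- the gradients of `v` generators of `P` are independent if `Pi ⊤ P v` -/
theorem gens_li (hp : StPi) {P : Subgroup (F n)} {v : ℕ} (hP : Pi ⊤ P v) (c : Fin v → F n)
    (hc : Subgroup.closure (Set.range c) = P) : LinearIndependent M.K (fun i => nab M (c i)) := by
  rw [← li_top]
  have h1 : IsRho M ⊤ P v := (hp n o M ⊤ P le_top v).2 hP
  have h2 := h1.finrank
  rw [span_gens M ⊤ P le_top c hc] at h2
  rw [linearIndependent_iff_card_eq_finrank_span, Fintype.card_fin]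
  exact h2.symm

include M in
theorem rho_up (hp : StPi) {P S : Subgroup (F n)} {v r : ℕ} (hP : dle P v) (hPv : Pi ⊤ P v)
    (hSP : S ≤ P) (hr : Pi P S r) : Pi ⊤ S r := by
  obtain ⟨c, hc⟩ := hP
  obtain ⟨x, hxS, hxi, hxV⟩ := (hp n o M P S hSP r).2 hr
  have hcli := gens_li M hp hPv c hc
  have hA : ∀ i, ∃ a : Fin v → M.sub P, ∑ j, a j • nab M (c j) = nab M (x i) := by
    intro i
    have h1 : nab M (x i) ∈ V M P P := nab_mem_V M (hSP (hxS i))
    rw [span_gens M P P le_rfl c hc] at h1
    exact (Submodule.mem_span_range_iff_exists_fun _).1 h1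
  choose a ha using hA
  have hsum : ∀ k : Fin r → M.K, ∑ i, k i • nab M (x i) =
      ∑ j, (∑ i, k i * (a i j : M.K)) • nab M (c j) := by
    intro k
    have h2 : ∀ i, k i • nab M (x i) = ∑ j, (k i * (a i j : M.K)) • nab M (c j) := by
      intro i
      rw [← ha i, Finset.smul_sum]
      refine Finset.sum_congr rfl fun j _ => ?_
      rw [mul_smul]
      rfl
    rw [Finset.sum_congr rfl (fun i _ => h2 i), Finset.sum_comm]
    refine Finset.sum_congr rfl fun j _ => ?_
    rw [Finset.sum_smul]
  have hxK : LinearIndependent M.K (fun i => nab M (x i)) := by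
    rw [Fintype.linearIndependent_iff]
    intro k hk
    rw [hsum k] at hk
    have h3 := Fintype.linearIndependent_iff.1 hcli _ hk
    refine ext_li M P (fun i j => (a i j : M.K)) (fun i j => (a i j).2) ?_ k h3
    intro d hd hd0 i
    rw [Fintype.linearIndependent_iff] at hxi
    have h4 : ∑ i, (⟨d i, hd i⟩ : M.sub P) • nab M (x i) = 0 := by
      have h5 := hsum d
      have h6 : ∑ j, (∑ i, d i * (a i j : M.K)) • nab M (c j) = 0 := by
        apply Finset.sum_eq_zero
        intro j _
        rw [hd0 j, zero_smul]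
      rw [h6] at h5
      exact h5
    exact congrArg Subtype.val (hxi _ h4 i)
  refine (hp n o M ⊤ S le_top r).1 ⟨x, hxS, (li_top M _).2 hxK, ?_⟩
  apply le_antisymm
  · refine Submodule.span_le.2 ?_
    rintro _ ⟨y, hy, rfl⟩
    have h1 : nab M y ∈ V M P S := nab_mem_V M hy
    rw [hxV] at h1
    obtain ⟨d, hd⟩ := (Submodule.mem_span_range_iff_exists_fun _).1 h1
    refine (Submodule.mem_span_range_iff_exists_fun _).2
      ⟨fun i => ⟨(d i : M.K), mem_top M _⟩, ?_⟩
    exact hd
  · refine Submodule.span_le.2 ?_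
    rintro _ ⟨i, rfl⟩
    exact nab_mem_V M (hxS i)

/-- a homomorphism whose values on the generators have independent gradients is injective -/
theorem inj_of_li {v : ℕ} (φ : F v →* F n) (h : LinearIndependent M.K (fun i => nab M (φ (gen i)))) :
    ∀ W, φ W = 1 → W = 1 := by
  -- the push-forward of the Fox derivatives of elements of the kernel is zero
  have key : ∀ W, φ W = 1 → ∀ a : Fin v, (fox a W).mapDomain φ = 0 := by
    intro W hW
    have h1 := path (fun u => nab M (φ u)) W
    simp only [hW, map_one, sub_self, map_mul, nab_mul] at h1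
    have h2 : ∀ a : Fin v, (fox a W).sum (fun u c => c • (nab M (φ u) +
        M.of (φ u) • nab M (φ (gen a)) - nab M (φ u))) =
        M.io ((fox a W).mapDomain φ) • nab M (φ (gen a)) := by
      intro a
      have h3 : M.io ((fox a W).mapDomain φ) = (fox a W).sum (fun u c => c • M.of (φ u)) := by
        unfold MF.io
        rw [Finsupp.sum_mapDomain_index]
        · refine Finsupp.sum_congr fun u _ => ?_
          apply M.ext'
          intro p
          have h5 : ∀ (k : ℤ) (b : M.K), M.cf (k • b) p = k * M.cf b p := by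
            intro k b
            have h8 := map_zsmul (M.cfHom p) k b
            have h9 : k • (M.cfHom p) b = (k : ℚ) * (M.cfHom p) b := zsmul_eq_mul _ _
            rw [h9] at h8
            exact h8
          rw [h5, M.cf_mono, M.cf_of]
          simp
        · intro b
          apply M.ext'
          intro p
          rw [M.cf_mono, M.cf_zero]
          simp
        · intro b m₁ m₂
          apply M.ext'
          intro p
          rw [M.add, M.cf_mono, M.cf_mono, M.cf_mono]
          split_ifs <;> simp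
      rw [h3]
      unfold Finsupp.sum
      rw [Finset.sum_smul]
      refine Finset.sum_congr rfl fun u _ => ?_
      beta_reduce
      rw [add_sub_cancel_left, smul_assoc]
    rw [Finset.sum_congr rfl (fun a _ => h2 a)] at h1
    intro a
    have h6 := Fintype.linearIndependent_iff.1 h _ h1 a
    ext p
    have h7 := M.cf_io ((fox a W).mapDomain φ) p
    rw [h6, M.cf_zero] at h7
    rw [Finsupp.zero_apply]
    exact_mod_cast h7.symm
  -- every homomorphism of the kernel to the integers is trivial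
  have triv : ∀ f : φ.ker →* Multiplicative ℤ, ∀ W, f W = 1 := by
    intro f
    let s : F n → F v := fun y => if hy : ∃ x, φ x = y then Classical.choose hy else 1
    have hs : ∀ x, φ (s (φ x)) = φ x := by
      intro x
      have hy : ∃ x', φ x' = φ x := ⟨x, rfl⟩
      have h1 : s (φ x) = Classical.choose hy := dif_pos hy
      rw [h1]
      exact Classical.choose_spec hy
    have hk : ∀ x, x * (s (φ x))⁻¹ ∈ φ.ker := by
      intro x
      rw [MonoidHom.mem_ker, map_mul, map_inv, hs, mul_inv_cancel]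
    let η : F v → ℤ := fun u => Multiplicative.toAdd (f ⟨u * (s (φ u))⁻¹, hk u⟩)
    have hk2 : ∀ (a : Fin v) (u : F v),
        s (φ u) * gen a * (s (φ u * φ (gen a)))⁻¹ ∈ φ.ker := by
      intro a u
      rw [MonoidHom.mem_ker, map_mul, map_mul, map_inv, hs]
      rw [← map_mul φ u, hs]
      simp
    let τ : Fin v → F n → ℤ := fun a p =>
      if hp : s p * gen a * (s (p * φ (gen a)))⁻¹ ∈ φ.ker then Multiplicative.toAdd (f ⟨_, hp⟩)
      else 0
    have hτ : ∀ (a : Fin v) (u : F v), η (u * gen a) - η u = τ a (φ u) := by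
      intro a u
      have h1 : τ a (φ u) = Multiplicative.toAdd (f ⟨_, hk2 a u⟩) := dif_pos (hk2 a u)
      rw [h1, sub_eq_iff_eq_add, add_comm]
      change Multiplicative.toAdd (f _) = Multiplicative.toAdd (f _) + Multiplicative.toAdd (f _)
      rw [← toAdd_mul, ← map_mul]
      congr 2
      apply Subtype.ext
      change u * gen a * (s (φ (u * gen a)))⁻¹ =
        u * (s (φ u))⁻¹ * (s (φ u) * gen a * (s (φ u * φ (gen a)))⁻¹)
      rw [map_mul]
      group
    intro W
    have h2 := path η (W : F v)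
    simp only [hτ] at h2
    have h3 : ∀ a : Fin v, (fox a (W : F v)).sum (fun u c => c • τ a (φ u)) = 0 := by
      intro a
      have h4 : ((fox a (W : F v)).mapDomain φ).sum (fun p c => c • τ a p) =
          (fox a (W : F v)).sum (fun u c => c • τ a (φ u)) :=
        Finsupp.sum_mapDomain_index (by intro b; simp) (by intro b m₁ m₂; rw [add_smul])
      rw [← h4, key (W : F v) (MonoidHom.mem_ker.1 W.2) a]
      simp
    rw [Finset.sum_congr rfl (fun a _ => h3 a), Finset.sum_const_zero] at h2
    have h5 : η (W : F v) - η 1 = Multiplicative.toAdd (f W) := by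
      rw [sub_eq_iff_eq_add]
      change Multiplicative.toAdd (f _) = Multiplicative.toAdd (f _) + Multiplicative.toAdd (f _)
      rw [← toAdd_mul, ← map_mul]
      congr 2
      apply Subtype.ext
      change (W : F v) * (s (φ (W : F v)))⁻¹ = (W : F v) * (1 * (s (φ 1))⁻¹)
      rw [MonoidHom.mem_ker.1 W.2, map_one, one_mul]
    rw [h5] at h2
    exact Multiplicative.toAdd.injective (by rw [← h2]; rfl)
  -- the kernel is free, hence trivial
  have hfree : IsFreeGroup φ.ker := subgroupIsFreeOfIsFree φ.ker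
  have hempty : IsEmpty (IsFreeGroup.Generators φ.ker) := by
    refine ⟨fun x => ?_⟩
    have h1 := triv (IsFreeGroup.lift (fun _ => Multiplicative.ofAdd (1 : ℤ))) (IsFreeGroup.of x)
    rw [IsFreeGroup.lift_of] at h1
    exact absurd (congrArg Multiplicative.toAdd h1) (by simp)
  intro W hW
  have h1 : (IsFreeGroup.toFreeGroup φ.ker) ⟨W, MonoidHom.mem_ker.2 hW⟩ =
      (IsFreeGroup.toFreeGroup φ.ker) 1 := Subsingleton.elim _ _
  have h2 := (IsFreeGroup.toFreeGroup φ.ker).injective h1
  exact congrArg Subtype.val h2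

end

/-- pull back of an intermediate group -/
theorem pull {n m : ℕ} (g : F n →* F m) {P S : Subgroup (F n)}
    (hinj : ∀ x ∈ P, g x = 1 → x = 1) (hSP : S ≤ P) {N' : Subgroup (F m)} {s : ℕ}
    (h1 : S.map g ≤ N') (h2 : N' ≤ P.map g) (hs : dle N' s) :
    ∃ Z, S ≤ Z ∧ Z ≤ P ∧ dle Z s ∧ Z.map g = N' := by
  obtain ⟨x, hx⟩ := hs
  have hz : ∀ i, ∃ z ∈ P, g z = x i := by
    intro i
    have : x i ∈ N' := by
      rw [← hx]
      exact Subgroup.subset_closure ⟨i, rfl⟩
    exact h2 this
  choose z hzP hz using hz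
  have hZ : (Subgroup.closure (Set.range z)).map g = N' := by
    rw [MonoidHom.map_closure, ← hx, ← Set.range_comp]
    congr 2
    exact funext hz
  have hZP : Subgroup.closure (Set.range z) ≤ P := by
    rw [Subgroup.closure_le]
    rintro _ ⟨i, rfl⟩
    exact hzP i
  refine ⟨Subgroup.closure (Set.range z), ?_, hZP, ⟨z, rfl⟩, hZ⟩
  intro y hy
  have h3 : g y ∈ (Subgroup.closure (Set.range z)).map g := by
    rw [hZ]
    exact h1 ⟨y, hy, rfl⟩
  obtain ⟨y', hy', hyy⟩ := h3
  have h4 : y' * y⁻¹ = 1 := by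
    apply hinj _ (P.mul_mem (hZP hy') (P.inv_mem (hSP hy)))
    rw [map_mul, map_inv, hyy, mul_inv_cancel]
  have h5 : y' = y := by
    have := congrArg (fun t => t * y) h4
    simpa using this
  rw [← h5]
  exact hy'

/-- injectivity on `P` -/
theorem injP (h1 : StMNF) (h2 : StMord) (hp : StPi) {n m : ℕ} {P : Subgroup (F n)} {v : ℕ}
    (g : F n →* F m) (hP : dle P v) (hgP : Pi ⊤ (P.map g) v) : ∀ x ∈ P, g x = 1 → x = 1 := by
  obtain ⟨o, -⟩ := h2 m
  obtain ⟨M⟩ := h1 (F m) o
  obtain ⟨c, hc⟩ := hP
  have hgc : Subgroup.closure (Set.range fun i => g (c i)) = P.map g := by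
    rw [← hc, MonoidHom.map_closure, ← Set.range_comp]
    rfl
  have hli := gens_li M hp hgP (fun i => g (c i)) hgc
  have hli' : LinearIndependent M.K (fun i => nab M ((FreeGroup.lift fun i => g (c i) :
      F v →* F m) (gen i))) := by
    simpa only [FreeGroup.lift_apply_of] using hli
  have hinj := inj_of_li M (FreeGroup.lift fun i => g (c i) : F v →* F m) hli'
  intro x hx hgx
  rw [← hc, ← FreeGroup.range_lift_eq_closure] at hx
  obtain ⟨W, rfl⟩ := hx
  have h3 : (FreeGroup.lift fun i => g (c i) : F v →* F m) = g.comp (FreeGroup.lift c) := by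
    apply FreeGroup.ext_hom
    intro i
    simp
  have h4 : (FreeGroup.lift fun i => g (c i) : F v →* F m) W = 1 := by
    rw [h3]
    exact hgx
  rw [hinj W h4, map_one]

end INVm

open INVm

theorem inv (h1 : StMNF) (h2 : StMord) (_h : StA) (hp : StPi) : StInv := by
  intro n m P v g hP hPv hgP
  have hinj := injP h1 h2 hp g hP hgP
  refine ⟨hinj, fun S hSP r hr => ?_⟩
  obtain ⟨o, -⟩ := h2 n
  obtain ⟨M⟩ := h1 (F n) o
  obtain ⟨o', -⟩ := h2 m
  obtain ⟨M'⟩ := h1 (F m) o'
  obtain ⟨r', -, hr'⟩ := ex n P S P v hSP le_rfl hP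
  have h3 : r = r' := Pi.unique hr (rho_up M hp hP hPv hSP hr')
  subst h3
  have hgd : dle (P.map g) v := by
    obtain ⟨c, hc⟩ := hP
    refine ⟨g ∘ c, ?_⟩
    rw [← hc, MonoidHom.map_closure, ← Set.range_comp]
  refine rho_up M' hp hgd hgP (Subgroup.map_mono hSP) ?_
  obtain ⟨⟨N, hN1, hN2, hN3⟩, hmin⟩ := hr'
  refine ⟨⟨N.map g, Subgroup.map_mono hN1, Subgroup.map_mono hN2, ?_⟩, ?_⟩
  · obtain ⟨c, hc⟩ := hN3
    refine ⟨g ∘ c, ?_⟩
    rw [← hc, MonoidHom.map_closure, ← Set.range_comp]
  · intro N' hN' hN'' s hs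
    obtain ⟨Z, hZ1, hZ2, hZ3, -⟩ := pull g hinj hSP hN' hN'' hs
    exact hmin Z hZ1 hZ2 s hZ3

theorem top (h1 : StMNF) (h2 : StMord) (hp : StPi) : StTop := by
  intro v
  obtain ⟨o, -⟩ := h2 v
  obtain ⟨M⟩ := h1 (F v) o
  refine (hp v o M ⊤ ⊤ le_rfl v).1 ⟨fun i => gen i, fun i => Subgroup.mem_top _, ?_, ?_⟩
  · rw [li_top, Fintype.linearIndependent_iff]
    intro c hc i
    have h3 := congrFun hc i
    rw [Finset.sum_apply, Pi.zero_apply] at h3
    have h4 : ∀ j, (c j • nab M (gen j)) i = if i = j then c j else 0 := by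
      intro j
      rw [Pi.smul_apply, smul_eq_mul]
      apply M.ext'
      intro p
      have h5 : nab M (gen j) i = if i = j then 1 else 0 := by
        apply M.ext'
        intro q
        rw [cf_nab, fox_of]
        split_ifs with h6
        · rw [M.one, Finsupp.single_apply]
          simp only [eq_comm]
          split_ifs <;> simp
        · rw [M.cf_zero]
          simp
      rw [h5]
      split_ifs <;> simp
    rw [Finset.sum_congr rfl (fun j _ => h4 j)] at h3
    simpa using h3
  · exact span_gens M ⊤ ⊤ le_rfl (fun i => gen i) (FreeGroup.closure_range_of _)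

theorem hullMap (hi : StInv) (hh : StHull) : StHullMap := by
  intro n m P v g hP hPv hgP S N hNP hS hN
  obtain ⟨hinj, htr⟩ := hi n m P v g hP hPv hgP
  obtain ⟨hN1, hN2, hN3, hN4⟩ := hN
  have hSP : S ≤ P := hN1.trans hNP
  obtain ⟨N', hN'1, hN'2, hN'3, hN'4⟩ := hh m ⊤ (S.map g) v le_top (htr S hSP v hS)
  have hNg : dle (N.map g) v := by
    obtain ⟨c, hc⟩ := hN3
    refine ⟨g ∘ c, ?_⟩
    rw [← hc, MonoidHom.map_closure, ← Set.range_comp]
  have h1 : N' ≤ N.map g := hN'4 _ (Subgroup.map_mono hN1) le_top hNg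
  obtain ⟨Z, hZ1, hZ2, hZ3, hZ4⟩ := pull g (P := N) (fun x hx => hinj x (hNP hx)) hN1 hN'1 h1 hN'3
  have h2 : N = Z := le_antisymm (hN4 Z hZ1 le_top hZ3) hZ2
  rw [h2, hZ4]
  exact ⟨hN'1, hN'2, hN'3, hN'4⟩

end DL
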