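import Pool.Agent.Helper14.DL.PI

set_option autoImplicit false

/-! Project DL: module JOIN. -/

namespace DL

open scoped Classical

/-- overgroups generated by `r = rho` elements have the same span -/
theorem V_eq_of_dle {n : ℕ} {o : BO (F n)} (M : MF o) {E L N : Subgroup (F n)} {r : ℕ}
    (hr : IsRho M E L r) (hLN : L ≤ N) (hNE : N ≤ E) (hs : dle N r) : V M E L = V M E N := by
  obtain ⟨x, hxL, hxi, hxV⟩ := hr
  obtain ⟨y, hy⟩ := hs
  have h2 := finrank_span_eq_card hxi
  have h3 : Module.Finite (M.sub E) (V M E N) := by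
    rw [span_gens M E N hNE y hy]
    exact FiniteDimensional.span_of_finite _ (Set.finite_range _)
  have h5 : Module.finrank (M.sub E) (V M E N) ≤ Fintype.card (Fin r) := by
    rw [span_gens M E N hNE y hy]
    exact finrank_range_le_card _
  refine Submodule.eq_of_le_of_finrank_le (V_mono M hLN) ?_
  rw [hxV, h2]
  exact h5

theorem join (h1 : StMNF) (h2 : StMord) (h : StA) (hp : StPi) : StJoin := by
  intro n E L r hLE hr
  obtain ⟨o, _⟩ := h2 n
  obtain ⟨M⟩ := h1 (F n) o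
  have hrho : IsRho M E L r := (hp n o M E L hLE r).2 hr
  obtain ⟨b, hb1, hb2⟩ := h n o M E L hLE r hrho
  have hC : ∀ y, y ∈ Subgroup.closure (Set.range b) ↔ y ∈ clSet M E L := fun y => by
    rw [← hb1]
    rfl
  refine ⟨Subgroup.closure (Set.range b), ?_, ?_, ⟨b, rfl⟩, ?_⟩
  · intro y hy
    exact (hC y).2 ⟨hLE hy, Submodule.subset_span ⟨y, hy, rfl⟩⟩
  · intro y hy
    exact ((hC y).1 hy).1
  · intro N hLN hNE hN y hy
    refine (hC y).2 ⟨hNE hy, ?_⟩
    rw [V_eq_of_dle M hrho hLN hNE hN]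
    exact Submodule.subset_span ⟨y, hy, rfl⟩

theorem union (h1 : StMNF) (h2 : StMord) (h : StA) (hp : StPi) : StUnion := by
  intro n H L r hLH hr hU
  have hH : Pi H L r := by
    obtain ⟨N, a1, a2, _, a3⟩ := hU 1 (one_mem _)
    exact ⟨⟨N, a1, a2, a3⟩, fun N' b1 _ s b3 => hr.2 N' b1 le_top s b3⟩
  obtain ⟨C, c1, c2, c3, c4⟩ := join h1 h2 h hp n H L r hLH hH
  have hHC : H = C := by
    refine le_antisymm (fun x hx => ?_) c2
    obtain ⟨N, a1, a2, a3, a4⟩ := hU x hx
    exact c4 N a1 a2 a4 a3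
  rw [hHC]
  exact c3

end DL
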