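import Pool.Agent.Helper14.DL.St

set_option autoImplicit false

/-!
Module MAG: Magnus coefficients of the free group.
-/

namespace DL

open scoped Classical

namespace MAG

variable {n : ℕ}

/-- non-commutative power series -/
abbrev P (n : ℕ) : Type := List (Fin n) → ℤ

/-- multiplication by `1 + x_a` on the left -/
def tf (a : Fin n) (f : P n) : P n
  | [] => f []
  | b :: w => f (b :: w) + if b = a then f w else 0

/-- the inverse -/
def ti (a : Fin n) (f : P n) : P n
  | [] => f []
  | b :: w => f (b :: w) - if b = a then ti a f w else 0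

theorem tf_nil (a : Fin n) (f : P n) : tf a f [] = f [] := rfl

theorem tf_cons (a b : Fin n) (f : P n) (w : List (Fin n)) :
    tf a f (b :: w) = f (b :: w) + if b = a then f w else 0 := rfl

theorem ti_nil (a : Fin n) (f : P n) : ti a f [] = f [] := rfl

theorem ti_cons (a b : Fin n) (f : P n) (w : List (Fin n)) :
    ti a f (b :: w) = f (b :: w) - if b = a then ti a f w else 0 := rfl

theorem ti_tf (a : Fin n) (f : P n) (w : List (Fin n)) : ti a (tf a f) w = f w := by
  induction w with
  | nil => rfl
  | cons b w ih =>
    rw [ti_cons, tf_cons, ih]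
    ring

theorem tf_ti (a : Fin n) (f : P n) (w : List (Fin n)) : tf a (ti a f) w = f w := by
  cases w with
  | nil => rfl
  | cons b w =>
    rw [tf_cons, ti_cons]
    ring

/-- the permutation -/
def tp (a : Fin n) : Equiv.Perm (P n) where
  toFun := tf a
  invFun := ti a
  left_inv f := funext (ti_tf a f)
  right_inv f := funext (tf_ti a f)

/-- the action of the free group -/
def T : F n →* Equiv.Perm (P n) := FreeGroup.lift tp

theorem T_gen (a : Fin n) (f : P n) : T (gen a) f = tf a f := by
  unfold T
  rw [FreeGroup.lift_apply_of]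
  rfl

theorem T_gen_inv (a : Fin n) (f : P n) : T (gen a)⁻¹ f = ti a f := by
  unfold T
  rw [map_inv, FreeGroup.lift_apply_of]
  rfl

/-- convolution -/
def cv (u f : P n) : P n := fun w =>
  ∑ i ∈ Finset.range (w.length + 1), u (w.take i) * f (w.drop i)

/-- unit -/
def dl : P n := fun w => if w = [] then 1 else 0

theorem cv_dl (f : P n) : cv dl f = f := by
  funext w
  unfold cv
  rw [Finset.sum_eq_single 0]
  · simp [dl]
  · intro i hi hi0
    have hi' : i < w.length + 1 := Finset.mem_range.mp hi
    have : w.take i ≠ [] := by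
      intro h
      have h2 := congrArg List.length h
      rw [List.length_take, List.length_nil] at h2
      omega
    rw [dl, if_neg this, zero_mul]
  · intro h
    exact absurd (Finset.mem_range.mpr (Nat.succ_pos _)) h

theorem cv_tf (a : Fin n) (u f : P n) : cv (tf a u) f = tf a (cv u f) := by
  funext w
  cases w with
  | nil =>
    rw [tf_nil]
    simp [cv, tf_nil]
  | cons b w =>
    rw [tf_cons]
    unfold cv
    rw [List.length_cons, Finset.sum_range_succ', Finset.sum_range_succ' _ (w.length + 1)]
    simp only [List.take_succ_cons, List.drop_succ_cons, List.take_zero, List.drop_zero, tf_nil, tf_cons]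
    by_cases h : b = a
    · simp only [if_pos h, add_mul, Finset.sum_add_distrib]
      ring
    · simp only [if_neg h, add_zero]

theorem cv_ti (a : Fin n) (u f : P n) : cv (ti a u) f = ti a (cv u f) := by
  have h : tf a (cv (ti a u) f) = cv u f := by
    rw [← cv_tf]
    have : tf a (ti a u) = u := funext (tf_ti a u)
    rw [this]
  have h2 : ti a (tf a (cv (ti a u) f)) = cv (ti a u) f := funext (ti_tf a _)
  rw [← h2, h]

theorem T_cv (g : F n) : ∀ u f : P n, T g (cv u f) = cv (T g u) f := by
  induction g using FreeGroup.induction_on with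
  | C1 => intro u f; simp
  | of a => intro u f; rw [show FreeGroup.of a = gen a from rfl, T_gen, T_gen, cv_tf]
  | inv_of a _ =>
    intro u f; rw [show FreeGroup.of a = gen a from rfl, T_gen_inv, T_gen_inv, cv_ti]
  | mul g h hg hh =>
    intro u f
    rw [map_mul, Equiv.Perm.mul_apply, Equiv.Perm.mul_apply, hh, hg]

/-- Magnus coefficients -/
def mag (w : List (Fin n)) (g : F n) : ℤ := T g dl w

theorem mag_mul (w : List (Fin n)) (g h : F n) :
    mag w (g * h) = ∑ i ∈ Finset.range (w.length + 1), mag (w.take i) g * mag (w.drop i) h := by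
  unfold mag
  rw [map_mul, Equiv.Perm.mul_apply]
  have h1 : T g (T h dl) = cv (T g dl) (T h dl) := by
    rw [← T_cv, cv_dl]
  rw [h1]
  rfl

theorem mag_nil (g : F n) : mag [] g = 1 := by
  have key : ∀ (g : F n) (f : P n), T g f [] = f [] := by
    intro g
    induction g using FreeGroup.induction_on with
    | C1 => intro f; simp
    | of a => intro f; rw [show FreeGroup.of a = gen a from rfl, T_gen]; rfl
    | inv_of a _ => intro f; rw [show FreeGroup.of a = gen a from rfl, T_gen_inv]; rfl
    | mul g h hg hh =>
      intro f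
      rw [map_mul, Equiv.Perm.mul_apply, hg, hh]
  unfold mag
  rw [key]
  simp [dl]

theorem mag_gen_mul (a : Fin n) (k : F n) (w : List (Fin n)) :
    mag w (gen a * k) = tf a (fun w => mag w k) w := by
  unfold mag
  rw [map_mul, Equiv.Perm.mul_apply, T_gen]

/-- no two adjacent letters are equal -/
def nr (w : List (Fin n)) : Prop := List.IsChain (· ≠ ·) w

theorem mag_pow (a : Fin n) (h : F n) (w : List (Fin n)) (hw : w.head? ≠ some a) (e : ℤ) :
    mag w (gen a ^ e * h) = mag w h := by
  have step : ∀ k : F n, mag w (gen a * k) = mag w k := by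
    intro k
    rw [mag_gen_mul]
    cases w with
    | nil => rfl
    | cons b w =>
      rw [tf_cons, if_neg, add_zero]
      intro h
      apply hw
      rw [h]
      rfl
  induction e using Int.induction_on with
  | zero => simp
  | succ i ih =>
    rw [← ih, show gen a ^ ((i : ℤ) + 1) * h = gen a * (gen a ^ (i : ℤ) * h) by
      rw [← mul_assoc, ← zpow_one_add, add_comm], step]
  | pred i ih =>
    rw [← ih, show gen a ^ (-(i : ℤ)) * h = gen a * (gen a ^ (-(i : ℤ) - 1) * h) by
      rw [← mul_assoc, ← zpow_one_add]; congr 2; ring, step]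

theorem mag_pow_cons (a : Fin n) (h : F n) (w : List (Fin n)) (hw : w.head? ≠ some a) (e : ℤ) :
    mag (a :: w) (gen a ^ e * h) = mag (a :: w) h + e * mag w h := by
  have step : ∀ e : ℤ, mag (a :: w) (gen a * (gen a ^ e * h)) =
      mag (a :: w) (gen a ^ e * h) + mag w h := by
    intro e
    rw [mag_gen_mul, tf_cons, if_pos rfl, mag_pow a h w hw]
  induction e using Int.induction_on with
  | zero => simp
  | succ i ih =>
    rw [show gen a ^ ((i : ℤ) + 1) * h = gen a * (gen a ^ (i : ℤ) * h) by
      rw [← mul_assoc, ← zpow_one_add, add_comm], step, ih]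
    ring
  | pred i ih =>
    have h2 := step (-(i : ℤ) - 1)
    rw [show gen a * (gen a ^ (-(i : ℤ) - 1) * h) = gen a ^ (-(i : ℤ)) * h by
      rw [← mul_assoc, ← zpow_one_add]; congr 2; ring, ih] at h2
    linarith

/-- syllable normal form -/
inductive Syl : F n → List (Fin n) → Prop
  | one : Syl 1 []
  | cons (a : Fin n) (e : ℤ) (h : F n) (v : List (Fin n)) :
      e ≠ 0 → Syl h v → v.head? ≠ some a → Syl (gen a ^ e * h) (a :: v)

theorem syl_mul (a : Fin n) (e : ℤ) (he : e ≠ 0) (g : F n) (v : List (Fin n)) (h : Syl g v) :
    ∃ v', Syl (gen a ^ e * g) v' := by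
  cases h with
  | one => exact ⟨_, Syl.cons a e 1 [] he Syl.one (by simp)⟩
  | cons b e' h' v' he' hh hv =>
    by_cases hab : a = b
    · subst hab
      by_cases h0 : e + e' = 0
      · refine ⟨v', ?_⟩
        rw [← mul_assoc, ← zpow_add, h0, zpow_zero, one_mul]
        exact hh
      · refine ⟨a :: v', ?_⟩
        rw [← mul_assoc, ← zpow_add]
        exact Syl.cons a _ _ _ h0 hh hv
    · refine ⟨a :: b :: v', Syl.cons a e _ _ he (Syl.cons b e' h' v' he' hh hv) ?_⟩
      simp only [List.head?_cons, ne_eq, Option.some.injEq]
      exact fun h => hab h.symm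

theorem exists_syl (g : F n) : ∃ v, Syl g v := by
  have key : ∀ g : F n, ∀ k v, Syl k v → ∃ v', Syl (g * k) v' := by
    intro g
    induction g using FreeGroup.induction_on with
    | C1 => intro k v h; exact ⟨v, by rw [one_mul]; exact h⟩
    | of a =>
      intro k v h
      have := syl_mul a 1 one_ne_zero k v h
      rw [zpow_one] at this
      exact this
    | inv_of a _ =>
      intro k v h
      have := syl_mul a (-1) (by norm_num) k v h
      rw [zpow_neg_one] at this
      exact this
    | mul g h hg hh =>
      intro k v hk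
      obtain ⟨v1, h1⟩ := hh k v hk
      obtain ⟨v2, h2⟩ := hg _ v1 h1
      exact ⟨v2, by rw [mul_assoc]; exact h2⟩
  obtain ⟨v, hv⟩ := key g 1 [] Syl.one
  exact ⟨v, by rwa [mul_one] at hv⟩

theorem head_ne_of_chain (a : Fin n) (w : List (Fin n)) (h : nr (a :: w)) : w.head? ≠ some a := by
  cases w with
  | nil => simp
  | cons b w =>
    intro h2
    simp only [List.head?_cons, Option.some.injEq] at h2
    have := (List.isChain_cons_cons.mp h).1
    exact this h2.symm

theorem nr_tail (a : Fin n) (w : List (Fin n)) (h : nr (a :: w)) : nr w := by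
  cases w with
  | nil => exact List.isChain_nil
  | cons b w => exact (List.isChain_cons_cons.mp h).2

theorem syl_mag (g : F n) (v : List (Fin n)) (h : Syl g v) :
    (∀ u, nr u → v.length < u.length → mag u g = 0) ∧ mag v g ≠ 0 ∧ nr v := by
  induction h with
  | one =>
    refine ⟨?_, ?_, List.isChain_nil⟩
    · intro u _ hu
      have : u ≠ [] := by
        rintro rfl
        simp at hu
      simp [mag, dl, this]
    · rw [mag_nil]; exact one_ne_zero
  | cons a e h v he hh hv ih =>
    obtain ⟨ih1, ih2, ih3⟩ := ih
    have hnr : nr (a :: v) := by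
      cases v with
      | nil => exact List.isChain_singleton _
      | cons b v =>
        refine List.isChain_cons_cons.mpr ⟨?_, ih3⟩
        intro hab
        apply hv
        rw [hab]
        rfl
    refine ⟨?_, ?_, hnr⟩
    · intro u hu hl
      cases u with
      | nil => simp at hl
      | cons b u =>
        by_cases hab : b = a
        · subst hab
          rw [mag_pow_cons b h u (head_ne_of_chain b u hu), ih1 _ hu, ih1 _ (nr_tail b u hu)]
          · simp
          · simp only [List.length_cons] at hl; omega
          · simp only [List.length_cons] at hl ⊢; omega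
        · rw [mag_pow a h (b :: u), ih1 _ hu]
          · simp only [List.length_cons] at hl ⊢; omega
          · simp only [List.head?_cons, ne_eq, Option.some.injEq]
            exact hab
    · rw [mag_pow_cons a h v hv, ih1 _ hnr (by simp), zero_add]
      exact mul_ne_zero he ih2

end MAG

theorem mag : StMag := by
  intro n
  refine ⟨⟨MAG.mag, MAG.mag_nil, MAG.mag_mul, ?_, ?_, ?_⟩⟩
  · intro a b
    rw [← mul_one (gen b), MAG.mag_gen_mul, MAG.tf_cons]
    simp [MAG.mag, MAG.dl]
  · intro w b hw
    rw [← mul_one (gen b), MAG.mag_gen_mul]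
    match w, hw with
    | c :: d :: w, _ =>
      rw [MAG.tf_cons]
      simp [MAG.mag, MAG.dl]
  · intro g hg
    obtain ⟨v, hv⟩ := MAG.exists_syl g
    have h2 := (MAG.syl_mag g v hv).2.1
    cases hv with
    | one => rfl
    | cons a e h v he hh hv => exact absurd (hg _ (by simp)) h2

end DL
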