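import Pool.Agent.Helper14.DL.St

set_option autoImplicit false

/-!
Module MALC: Malcev uniqueness from Magnus coefficients.
-/

namespace DL

open scoped Classical

namespace MALC

variable {n : ℕ} (M : Magnus n)

theorem mag_mul' (w : List (Fin n)) (m : ℕ) (hw : w.length = m + 1) (a b : F n) :
    M.mag w (a * b) = M.mag w a + M.mag w b +
      ∑ i ∈ Finset.range m, M.mag (w.take (i + 1)) a * M.mag (w.drop (i + 1)) b := by
  rw [M.mul, hw, Finset.sum_range_succ, Finset.sum_range_succ']
  have h1 : w.take (m + 1) = w := by rw [← hw]; exact List.take_length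
  have h2 : w.drop (m + 1) = [] := by rw [← hw]; exact List.drop_length
  rw [h1, h2, List.take_zero, List.drop_zero, M.nil, M.nil]
  ring

theorem mag_one (w : List (Fin n)) (hw : w ≠ []) : M.mag w 1 = 0 := by
  have key : ∀ N : ℕ, ∀ w : List (Fin n), w.length ≤ N → w ≠ [] → M.mag w 1 = 0 := by
    intro N
    induction N with
    | zero =>
      intro w h1 h2
      exact absurd (List.eq_nil_of_length_eq_zero (by omega)) h2
    | succ N ih =>
      intro w h1 h2
      obtain ⟨m, hm⟩ : ∃ m, w.length = m + 1 := by
        cases w with
        | nil => exact absurd rfl h2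
        | cons b w => exact ⟨w.length, rfl⟩
      have h3 := mag_mul' M w m hm 1 1
      rw [mul_one] at h3
      have h4 : ∑ i ∈ Finset.range m, M.mag (w.take (i + 1)) 1 * M.mag (w.drop (i + 1)) 1 = 0 := by
        apply Finset.sum_eq_zero
        intro i hi
        have hi' := Finset.mem_range.mp hi
        rw [ih (w.take (i + 1)), zero_mul]
        · rw [List.length_take]; omega
        · intro h
          have := congrArg List.length h
          rw [List.length_take, List.length_nil] at this
          omega
      rw [h4] at h3
      linarith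
  exact key w.length w le_rfl hw

theorem ext (a b : F n) (h : ∀ w, M.mag w a = M.mag w b) : a = b := by
  have h1 : a⁻¹ * b = 1 := by
    apply M.inj
    intro w hw
    rw [M.mul]
    have h2 := M.mul w a⁻¹ a
    rw [inv_mul_cancel, mag_one M w hw] at h2
    rw [h2]
    apply Finset.sum_congr rfl
    intro i _
    rw [h]
  exact (inv_mul_eq_one.mp h1)

theorem step (H : Type) [Group H] (T : Subgroup H) (g h : H →* F n)
    (hT : ∀ x ∈ T, g x = h x)
    (hf : ∀ f : H →* Multiplicative ℚ, (∀ x ∈ T, f x = 1) → ∀ x, f x = 1) :
    ∀ N : ℕ, ∀ w : List (Fin n), w.length ≤ N → ∀ x, M.mag w (g x) = M.mag w (h x) := by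
  intro N
  induction N with
  | zero =>
    intro w hw x
    rw [List.eq_nil_of_length_eq_zero (by omega : w.length = 0), M.nil, M.nil]
  | succ N ih =>
    intro w hw x
    by_cases hle : w.length ≤ N
    · exact ih w hle x
    have hm : w.length = N + 1 := by omega
    have hadd : ∀ x y, M.mag w (g (x * y)) - M.mag w (h (x * y)) =
        (M.mag w (g x) - M.mag w (h x)) + (M.mag w (g y) - M.mag w (h y)) := by
      intro x y
      rw [map_mul, map_mul, mag_mul' M w N hm, mag_mul' M w N hm]
      have : ∑ i ∈ Finset.range N, M.mag (w.take (i + 1)) (g x) * M.mag (w.drop (i + 1)) (g y) =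
          ∑ i ∈ Finset.range N, M.mag (w.take (i + 1)) (h x) * M.mag (w.drop (i + 1)) (h y) := by
        apply Finset.sum_congr rfl
        intro i hi
        have hi' := Finset.mem_range.mp hi
        rw [ih (w.take (i + 1)), ih (w.drop (i + 1))]
        · rw [List.length_drop]; omega
        · rw [List.length_take]; omega
      rw [this]
      ring
    let f : H →* Multiplicative ℚ :=
      { toFun := fun x => Multiplicative.ofAdd ((M.mag w (g x) - M.mag w (h x) : ℤ) : ℚ)
        map_one' := by
          rw [map_one, map_one, sub_self, Int.cast_zero]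
          rfl
        map_mul' := by
          intro x y
          rw [hadd, Int.cast_add]
          rfl }
    have h1 := hf f (by
      intro x hx
      change Multiplicative.ofAdd ((M.mag w (g x) - M.mag w (h x) : ℤ) : ℚ) = 1
      rw [hT x hx, sub_self, Int.cast_zero]
      rfl) x
    have h2 : ((M.mag w (g x) - M.mag w (h x) : ℤ) : ℚ) = 0 := h1
    have h3 : M.mag w (g x) - M.mag w (h x) = 0 := by exact_mod_cast h2
    linarith

end MALC

theorem malc (h : StMag) : StMalc := by
  intro n H _ T g k hT hf x
  obtain ⟨M⟩ := h n
  exact MALC.ext M _ _ (fun w => MALC.step M H T g k hT hf w.length w le_rfl x)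

end DL
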