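import Pool.Agent.Helper14.DL.St

set_option autoImplicit false

/-!
Project DL (MP_2bc838_lc, S14533), module MNF: the Malcev-Neumann division ring of a bi-ordered group.
The inverse of `1 - e` is the sum over all lists of elements of the support of `e`; finiteness is
Higman's lemma.
-/

namespace DL

open scoped Classical Pointwise
open Function

set_option linter.unusedSectionVars false

namespace MNFaux

/-- the bi-order as a linear order -/
noncomputable abbrev lo {G : Type} [Group G] (o : BO G) : LinearOrder G :=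
  haveI : IsStrictTotalOrder G o.lt :=
    { irrefl := o.irr
      trans := o.tr
      trichotomous := fun a b h1 h2 => by
        rcases o.tri a b with h | h | h
        · exact absurd h h1
        · exact h
        · exact absurd h h2 }
  linearOrderOfSTO o.lt

section gen

variable {G : Type} [Group G] [LinearOrder G]

/-- the order is a bi-order -/
class BiOrd (G : Type) [Group G] [LinearOrder G] : Prop where
  ml : ∀ c a b : G, a < b → c * a < c * b
  mr : ∀ c a b : G, a < b → a * c < b * c

variable [BiOrd G]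

theorem mle (c : G) {a b : G} (h : a ≤ b) : c * a ≤ c * b := by
  rcases h.eq_or_lt with h | h
  · rw [h]
  · exact (BiOrd.ml c a b h).le

theorem mre (c : G) {a b : G} (h : a ≤ b) : a * c ≤ b * c := by
  rcases h.eq_or_lt with h | h
  · rw [h]
  · exact (BiOrd.mr c a b h).le

instance : IsOrderedCancelSMul G G where
  smul_le_smul_left a b h c := mle c h
  smul_le_smul_right c d h a := mre a h
  le_of_smul_le_smul_left a b c h := by
    by_contra hn
    exact absurd h (not_le.2 (BiOrd.ml a c b (not_le.1 hn)))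
  le_of_smul_le_smul_right a b c h := by
    by_contra hn
    exact absurd h (not_le.2 (BiOrd.mr c b a (not_le.1 hn)))

/-- the convolution -/
noncomputable def cv (f g : G → ℚ) (p : G) : ℚ := ∑ᶠ h, f h * g (h⁻¹ * p)

theorem cv_fin {f g : G → ℚ} (hf : (support f).IsPWO) (hg : (support g).IsPWO) (p : G) :
    {h | f h ≠ 0 ∧ g (h⁻¹ * p) ≠ 0}.Finite := by
  have h1 := Set.SMulAntidiagonal.finite_of_isPWO hf hg p
  refine Set.Finite.subset (h1.image Prod.fst) ?_
  intro h hh
  refine ⟨(h, h⁻¹ * p), ⟨hh.1, hh.2, ?_⟩, rfl⟩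
  show h * (h⁻¹ * p) = p
  group

theorem cv_fin' {f g : G → ℚ} (hf : (support f).IsPWO) (hg : (support g).IsPWO) (p : G) :
    HasFiniteSupport (fun h => f h * g (h⁻¹ * p)) := by
  refine (cv_fin hf hg p).subset ?_
  intro h hh
  exact ⟨left_ne_zero_of_mul hh, right_ne_zero_of_mul hh⟩

theorem cv_ex {f g : G → ℚ} {p : G} (h : cv f g p ≠ 0) : ∃ h, f h ≠ 0 ∧ g (h⁻¹ * p) ≠ 0 := by
  by_contra hcon
  push Not at hcon
  apply h
  apply finsum_eq_zero_of_forall_eq_zero
  intro x
  by_cases hx : f x = 0
  · rw [hx, zero_mul]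
  · rw [hcon x hx, mul_zero]

theorem cv_supp {f g : G → ℚ} (hf : (support f).IsPWO) (hg : (support g).IsPWO) :
    (support (cv f g)).IsPWO := by
  refine (hf.smul hg).mono ?_
  intro p hp
  obtain ⟨h, h1, h2⟩ := cv_ex hp
  exact ⟨h, h1, h⁻¹ * p, h2, by show h * (h⁻¹ * p) = p; group⟩

/-- functions with well ordered support -/
def KS (G : Type) [Group G] [LinearOrder G] : AddSubgroup (G → ℚ) where
  carrier := {f | (support f).IsPWO}
  add_mem' := by
    intro a b ha hb
    refine (Set.IsPWO.union ha hb).mono ?_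
    exact Function.support_add a b
  zero_mem' := by
    show (support (0 : G → ℚ)).IsPWO
    rw [Function.support_zero]
    exact Set.isPWO_empty
  neg_mem' := by
    intro a ha
    show (support (-a)).IsPWO
    rw [Function.support_neg]
    exact ha

theorem cv_assoc {a b c : G → ℚ} (ha : (support a).IsPWO) (hb : (support b).IsPWO)
    (hc : (support c).IsPWO) : cv (cv a b) c = cv a (cv b c) := by
  funext p
  set S : Set G := {g | g ∈ support a • support b ∧ c (g⁻¹ * p) ≠ 0} with hS
  have hSf : S.Finite := by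
    have h1 := Set.SMulAntidiagonal.finite_of_isPWO (ha.smul hb) hc p
    refine Set.Finite.subset (h1.image Prod.fst) ?_
    intro h hh
    refine ⟨(h, h⁻¹ * p), ⟨hh.1, hh.2, ?_⟩, rfl⟩
    show h * (h⁻¹ * p) = p
    group
  set T : Set G := ⋃ g ∈ S, {f | a f ≠ 0 ∧ b (f⁻¹ * g) ≠ 0} with hT
  have hTf : T.Finite := hSf.biUnion fun g _ => cv_fin ha hb g
  let F : G × G → ℚ := fun x => a x.1 * b (x.1⁻¹ * x.2) * c (x.2⁻¹ * p)
  have hF : HasFiniteSupport F := by
    refine (hTf.prod hSf).subset ?_
    rintro ⟨f, g⟩ hfg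
    have h1 : a f ≠ 0 := left_ne_zero_of_mul (left_ne_zero_of_mul hfg)
    have h2 : b (f⁻¹ * g) ≠ 0 := right_ne_zero_of_mul (left_ne_zero_of_mul hfg)
    have h3 : c (g⁻¹ * p) ≠ 0 := right_ne_zero_of_mul hfg
    have h4 : g ∈ S := ⟨⟨f, h1, f⁻¹ * g, h2, by show f * (f⁻¹ * g) = g; group⟩, h3⟩
    exact ⟨Set.mem_biUnion h4 ⟨h1, h2⟩, h4⟩
  have hF' : HasFiniteSupport (fun x : G × G => F (x.2, x.1)) := by
    refine Set.Finite.subset (hF.image Prod.swap) ?_
    rintro ⟨g, f⟩ hfg
    exact ⟨(f, g), hfg, rfl⟩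
  have e1 : cv (cv a b) c p = ∑ᶠ x : G × G, F (x.2, x.1) := by
    rw [finsum_curry _ hF']
    refine finsum_congr fun g => ?_
    show (∑ᶠ f, a f * b (f⁻¹ * g)) * c (g⁻¹ * p) = _
    rw [finsum_mul]
  have e2 : cv a (cv b c) p = ∑ᶠ x : G × G, F x := by
    rw [finsum_curry _ hF]
    refine finsum_congr fun f => ?_
    show a f * (∑ᶠ h, b h * c (h⁻¹ * (f⁻¹ * p))) = _
    rw [mul_finsum]
    refine Eq.trans (finsum_congr fun h => ?_)
      (finsum_comp_equiv (Equiv.mulLeft f) (f := fun g => F (f, g)))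
    show a f * (b h * c (h⁻¹ * (f⁻¹ * p))) = a f * b (f⁻¹ * (f * h)) * c ((f * h)⁻¹ * p)
    rw [inv_mul_cancel_left, mul_inv_rev, mul_assoc, mul_assoc h⁻¹]
  rw [e1, e2]
  exact finsum_comp_equiv (Equiv.prodComm G G) (f := F)

/-- the unit -/
noncomputable def un : G → ℚ := fun g => if g = 1 then 1 else 0

theorem un_pwo : (support (un : G → ℚ)).IsPWO := by
  refine (Set.isPWO_singleton (1 : G)).mono ?_
  intro x hx
  by_contra hne
  exact hx (if_neg hne)

theorem un_cv (f : G → ℚ) : cv un f = f := by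
  funext p
  unfold cv
  rw [finsum_eq_single _ 1]
  · simp [un]
  · intro h hh
    rw [un, if_neg hh, zero_mul]

theorem cv_un (f : G → ℚ) : cv f un = f := by
  funext p
  unfold cv
  rw [finsum_eq_single _ p]
  · simp [un]
  · intro h hh
    rw [un, if_neg, mul_zero]
    intro h1
    apply hh
    rw [inv_mul_eq_one] at h1
    exact h1

noncomputable instance ringK : Ring (KS G) :=
  { (inferInstance : AddCommGroup (KS G)) with
    mul := fun a b => ⟨cv a b, cv_supp a.2 b.2⟩
    one := ⟨un, un_pwo⟩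
    mul_assoc := fun a b c => Subtype.ext (cv_assoc a.2 b.2 c.2)
    one_mul := fun a => Subtype.ext (un_cv _)
    mul_one := fun a => Subtype.ext (cv_un _)
    left_distrib := fun a b c => by
      apply Subtype.ext
      funext p
      show cv (a : G → ℚ) ((b : G → ℚ) + (c : G → ℚ)) p = cv a b p + cv a c p
      unfold cv
      rw [← finsum_add_distrib (cv_fin' a.2 b.2 p) (cv_fin' a.2 c.2 p)]
      refine finsum_congr fun h => ?_
      rw [Pi.add_apply, mul_add]
    right_distrib := fun a b c => by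
      apply Subtype.ext
      funext p
      show cv ((a : G → ℚ) + (b : G → ℚ)) c p = cv a c p + cv b c p
      unfold cv
      rw [← finsum_add_distrib (cv_fin' a.2 c.2 p) (cv_fin' b.2 c.2 p)]
      refine finsum_congr fun h => ?_
      rw [Pi.add_apply, add_mul]
    zero_mul := fun a => by
      apply Subtype.ext
      funext p
      show cv (0 : G → ℚ) a p = 0
      unfold cv
      apply finsum_eq_zero_of_forall_eq_zero
      intro x
      rw [Pi.zero_apply, zero_mul]
    mul_zero := fun a => by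
      apply Subtype.ext
      funext p
      show cv a (0 : G → ℚ) p = 0
      unfold cv
      apply finsum_eq_zero_of_forall_eq_zero
      intro x
      rw [Pi.zero_apply, mul_zero] }

theorem mul_cf (a b : KS G) (p : G) : ((a * b : KS G) : G → ℚ) p = cv a b p := rfl

theorem one_cf (p : G) : ((1 : KS G) : G → ℚ) p = if p = 1 then 1 else 0 := rfl

/-! ### lists and the Neumann inverse -/

theorem prod_pos' {l : List G} (h : ∀ x ∈ l, (1 : G) < x) : 1 ≤ l.prod := by
  induction l with
  | nil => simp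
  | cons x l ih =>
    rw [List.prod_cons]
    have h1 : (1 : G) < x := h x (by simp)
    have h2 := ih fun y hy => h y (by simp [hy])
    calc (1 : G) ≤ x := h1.le
      _ = x * 1 := (mul_one x).symm
      _ ≤ x * l.prod := mle x h2

theorem sub_prod {l₁ l₂ : List G} (h : List.SublistForall₂ (· ≤ ·) l₁ l₂)
    (h2 : ∀ x ∈ l₂, (1 : G) < x) : l₁ = l₂ ∨ l₁.prod < l₂.prod := by
  induction h with
  | @nil l =>
    cases l with
    | nil => exact Or.inl rfl
    | cons x l =>
      right
      rw [List.prod_nil, List.prod_cons]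
      have h1 : (1 : G) < x := h2 x (by simp)
      have h3 := prod_pos' fun y hy => h2 y (List.mem_cons_of_mem x hy)
      calc (1 : G) < x := h1
        _ = x * 1 := (mul_one x).symm
        _ ≤ x * l.prod := mle x h3
  | @cons a b l₁ l₂ hab _ ih =>
    have ih' := ih fun y hy => h2 y (List.mem_cons_of_mem b hy)
    rw [List.prod_cons, List.prod_cons]
    rcases hab.eq_or_lt with h3 | h3
    · rcases ih' with h4 | h4
      · exact Or.inl (by rw [h3, h4])
      · right
        rw [h3]
        exact BiOrd.ml _ _ _ h4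
    · right
      have h4 : l₁.prod ≤ l₂.prod := by
        rcases ih' with h5 | h5
        · rw [h5]
        · exact h5.le
      exact (BiOrd.mr _ _ _ h3).trans_le (mle b h4)
  | @cons_right b l₁ l₂ _ ih =>
    have ih' := ih fun y hy => h2 y (List.mem_cons_of_mem b hy)
    right
    rw [List.prod_cons]
    have h1 : (1 : G) < b := h2 b (by simp)
    have h4 : l₁.prod ≤ l₂.prod := by
      rcases ih' with h5 | h5
      · rw [h5]
      · exact h5.le
    calc l₁.prod ≤ l₂.prod := h4
      _ = 1 * l₂.prod := (one_mul _).symm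
      _ < b * l₂.prod := BiOrd.mr _ _ _ h1

section neumann

variable (e : G → ℚ)

/-- weight of a list -/
noncomputable def wt (l : List G) : ℚ := (l.map e).prod

theorem wt_ne {l : List G} (h : wt e l ≠ 0) : ∀ x ∈ l, x ∈ support e := by
  intro x hx h0
  apply h
  unfold wt
  rw [List.prod_eq_zero_iff]
  exact List.mem_map.2 ⟨x, hx, h0⟩

/-- the Neumann series -/
noncomputable def nu (g : G) : ℚ := ∑ᶠ l : List G, if l.prod = g then wt e l else 0

variable {e}

theorem pwo_lists (he : (support e).IsPWO) :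
    {l : List G | ∀ x, x ∈ l → x ∈ support e}.PartiallyWellOrderedOn
      (List.SublistForall₂ (· ≤ ·)) :=
  Set.PartiallyWellOrderedOn.partiallyWellOrderedOn_sublistForall₂ (· ≤ ·) he

theorem fin_lists (he : (support e).IsPWO) (h1 : ∀ g ∈ support e, 1 < g) (g : G) :
    {l : List G | (∀ x, x ∈ l → x ∈ support e) ∧ l.prod = g}.Finite := by
  refine IsAntichain.finite_of_partiallyWellOrderedOn (r := List.SublistForall₂ (· ≤ ·)) ?_
    ((pwo_lists he).mono fun l hl => hl.1)
  intro l₁ hl₁ l₂ hl₂ hne hsub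
  rcases sub_prod hsub (fun x hx => h1 x (hl₂.1 x hx)) with h | h
  · exact hne h
  · rw [hl₁.2, hl₂.2] at h
    exact lt_irrefl _ h

theorem nu_pwo (he : (support e).IsPWO) (h1 : ∀ g ∈ support e, 1 < g) :
    (support (nu e)).IsPWO := by
  have h2 : (List.prod '' {l : List G | ∀ x, x ∈ l → x ∈ support e}).IsPWO := by
    refine (pwo_lists he).image_of_monotone_on ?_
    intro l₁ _ l₂ hl₂ hsub
    rcases sub_prod hsub (fun x hx => h1 x (hl₂ x hx)) with h | h
    · rw [h]
    · exact h.le
  refine h2.mono ?_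
  intro g hg
  by_contra hcon
  apply hg
  unfold nu
  apply finsum_eq_zero_of_forall_eq_zero
  intro l
  split_ifs with hl
  · by_contra hw
    exact hcon ⟨l, wt_ne e hw, hl⟩
  · rfl

/-- lists as `nil` or `cons` -/
def optL (G : Type) : Option (G × List G) ≃ List G where
  toFun x := match x with
    | none => []
    | some (h, l) => h :: l
  invFun l := match l with
    | [] => none
    | h :: l => some (h, l)
  left_inv x := by rcases x with _ | ⟨h, l⟩ <;> rfl
  right_inv l := by cases l <;> rfl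

theorem nu_rec (he : (support e).IsPWO) (h1 : ∀ g ∈ support e, 1 < g) (g : G) :
    nu e g = un g + cv e (nu e) g := by
  have hfin : ∀ g, HasFiniteSupport (fun l : List G => if l.prod = g then wt e l else 0) := by
    intro g
    refine (fin_lists he h1 g).subset ?_
    intro l hl
    have h2 : l.prod = g := by
      by_contra h3
      exact hl (if_neg h3)
    refine ⟨wt_ne e ?_, h2⟩
    intro h3
    apply hl
    simp only
    rw [if_pos h2, h3]
  let Φ : Option (G × List G) → ℚ := fun x =>
    if (optL G x).prod = g then wt e (optL G x) else 0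
  have hΦ : HasFiniteSupport (Φ ∘ some) := by
    have h2 : HasFiniteSupport Φ := by
      refine Set.Finite.preimage (f := optL G) ((optL G).injective.injOn) (hfin g)
    exact Set.Finite.preimage (f := some) ((Option.some_injective _).injOn) h2
  have e1 : nu e g = ∑ᶠ x, Φ x :=
    (finsum_comp_equiv (optL G) (f := fun l : List G => if l.prod = g then wt e l else 0)).symm
  rw [e1, finsum_option hΦ]
  congr 1
  · show (if ([] : List G).prod = g then wt e [] else 0) = un g
    simp [un, wt, eq_comm]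
  · have h3 := finsum_curry (Φ ∘ some) hΦ
    have h4 : (∑ᶠ a, Φ (some a)) = ∑ᶠ ab, (Φ ∘ some) ab := rfl
    rw [h4, h3]
    unfold cv nu
    refine finsum_congr fun h => ?_
    rw [mul_finsum]
    refine finsum_congr fun l => ?_
    show (if (h :: l).prod = g then wt e (h :: l) else 0) = _
    have h5 : (h :: l).prod = g ↔ l.prod = h⁻¹ * g := by
      rw [List.prod_cons, eq_inv_mul_iff_mul_eq]
    simp only [h5]
    split_ifs
    · simp [wt]
    · rw [mul_zero]

end neumann

/-- monomials -/
noncomputable def mo (g : G) (c : ℚ) : KS G :=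
  ⟨fun h => if h = g then c else 0, by
    refine (Set.isPWO_singleton g).mono ?_
    intro x hx
    by_contra hne
    exact hx (if_neg hne)⟩

theorem mo_mul (g : G) (c : ℚ) (a : KS G) (p : G) :
    ((mo g c * a : KS G) : G → ℚ) p = c * (a : G → ℚ) (g⁻¹ * p) := by
  rw [mul_cf]
  unfold cv
  rw [finsum_eq_single _ g]
  · show (if g = g then c else 0) * _ = _
    rw [if_pos rfl]
  · intro h hh
    show (if h = g then c else 0) * _ = _
    rw [if_neg hh, zero_mul]

theorem mo_inv (g : G) (c : ℚ) (hc : c ≠ 0) : mo g c * mo g⁻¹ c⁻¹ = 1 := by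
  apply Subtype.ext
  funext p
  rw [mo_mul, one_cf]
  show c * (if g⁻¹ * p = g⁻¹ then c⁻¹ else 0) = _
  by_cases hp : p = 1
  · rw [if_pos (by rw [hp, mul_one]), if_pos hp, mul_inv_cancel₀ hc]
  · rw [if_neg, if_neg hp, mul_zero]
    intro h
    exact hp (by simpa using h)

theorem right_inv (a : KS G) (ha : a ≠ 0) : ∃ b : KS G, a * b = 1 := by
  have hne : (support (a : G → ℚ)).Nonempty := by
    rw [Function.support_nonempty_iff]
    intro h
    exact ha (Subtype.ext h)
  have hwf : (support (a : G → ℚ)).IsWF := Set.IsPWO.isWF a.2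
  set g₀ := hwf.min hne with hg₀
  have hg₀m : (a : G → ℚ) g₀ ≠ 0 := hwf.min_mem hne
  set c₀ := (a : G → ℚ) g₀ with hc₀
  set a' : KS G := mo g₀⁻¹ c₀⁻¹ * a with ha'
  set e : KS G := 1 - a' with he
  have hecf : ∀ g, (e : G → ℚ) g = (if g = 1 then 1 else 0) - c₀⁻¹ * (a : G → ℚ) (g₀ * g) := by
    intro g
    have h1 : (e : G → ℚ) g = ((1 : KS G) : G → ℚ) g - (a' : G → ℚ) g := rfl
    rw [h1, one_cf, ha', mo_mul, inv_inv]
  have hpos : ∀ g ∈ support (e : G → ℚ), 1 < g := by
    intro g hg
    have hg1 : g ≠ 1 := by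
      intro h1
      apply hg
      rw [hecf, h1, if_pos rfl, mul_one, ← hc₀, inv_mul_cancel₀ hg₀m, sub_self]
    have h2 : (a : G → ℚ) (g₀ * g) ≠ 0 := by
      intro h3
      apply hg
      rw [hecf, if_neg hg1, h3, mul_zero, sub_self]
    have h3 : g₀ ≤ g₀ * g := hwf.min_le hne h2
    have h4 : g₀⁻¹ * g₀ ≤ g₀⁻¹ * (g₀ * g) := mle _ h3
    rw [inv_mul_cancel, inv_mul_cancel_left] at h4
    exact lt_of_le_of_ne h4 (Ne.symm hg1)
  let n : KS G := ⟨nu e, nu_pwo e.2 hpos⟩
  have h1 : n = 1 + e * n := by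
    apply Subtype.ext
    funext g
    exact nu_rec e.2 hpos g
  have h2 : a' * n = 1 := by
    have h3 : a' = 1 - e := by rw [he]; abel
    rw [h3, sub_mul, one_mul]
    nth_rewrite 1 [h1]
    abel
  refine ⟨n * mo g₀⁻¹ c₀⁻¹, ?_⟩
  have h3 : mo g₀ c₀ * a' = a := by
    rw [ha', ← mul_assoc, mo_inv g₀ c₀ hg₀m, one_mul]
  calc a * (n * mo g₀⁻¹ c₀⁻¹) = mo g₀ c₀ * (a' * n) * mo g₀⁻¹ c₀⁻¹ := by
        nth_rewrite 1 [← h3]
        simp only [mul_assoc]
    _ = 1 := by rw [h2, mul_one, mo_inv g₀ c₀ hg₀m]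

theorem one_ne : (1 : KS G) ≠ 0 := by
  intro h
  have h1 := congrFun (congrArg Subtype.val h) (1 : G)
  have h2 : ((1 : KS G) : G → ℚ) 1 = 1 := by rw [one_cf, if_pos rfl]
  rw [h2] at h1
  exact one_ne_zero h1

instance : Nontrivial (KS G) := ⟨1, 0, one_ne⟩

theorem unit_or (a : KS G) : IsUnit a ∨ a = 0 := by
  by_cases ha : a = 0
  · exact Or.inr ha
  left
  obtain ⟨b, hb⟩ := right_inv a ha
  have hb0 : b ≠ 0 := by
    rintro rfl
    rw [mul_zero] at hb
    exact one_ne hb.symm
  obtain ⟨c, hc⟩ := right_inv b hb0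
  have h1 : a = c := by
    calc a = a * (b * c) := by rw [hc, mul_one]
      _ = c := by rw [← mul_assoc, hb, one_mul]
  exact ⟨⟨a, b, hb, by rw [h1]; exact hc⟩, rfl⟩

end gen

end MNFaux

open MNFaux in
theorem mnf : StMNF := by
  intro G _ o
  let _ : LinearOrder G := lo o
  have _ : BiOrd G := ⟨o.ml, o.mr⟩
  have hiff : ∀ s : Set G, s.WellFoundedOn o.lt ↔ s.IsPWO := fun s => Set.isPWO_iff_isWF.symm
  refine ⟨{
    K := KS G
    ring := DivisionRing.ofIsUnitOrEqZero unit_or
    cf := fun a => a
    wf := fun a => (hiff _).2 a.2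
    ext := fun a b h => Subtype.ext h
    ex := fun f hf => ⟨⟨f, (hiff _).1 hf⟩, rfl⟩
    add := fun a b g => rfl
    fin := fun a b p => cv_fin a.2 b.2 p
    mul := fun a b p => rfl
    one := fun g => by
      show un g = _
      unfold un
      congr }⟩

end DL

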