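import Pool.Agent.Helper14.DL.MALC

set_option autoImplicit false

/-!
Module MORD: the Magnus order, a bi-order of the free group preserved by all IA endomorphisms.
-/

namespace DL

open scoped Classical

namespace MORD

variable {n : ℕ} (M : Magnus n)

/-- deg-lex key -/
noncomputable def key (w : List (Fin n)) : ℕ ×ₗ ℕ := toLex (w.length, Encodable.encode w)

theorem key_inj {v w : List (Fin n)} (h : key v = key w) : v = w := by
  have h1 : (v.length, Encodable.encode v) = (w.length, Encodable.encode w) := toLex.injective h
  have h2 := (Prod.mk.inj h1).2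
  exact Encodable.encode_injective h2

theorem key_lt_len {v w : List (Fin n)} (h : key v < key w) : v.length ≤ w.length := by
  unfold key at h
  rw [Prod.Lex.toLex_lt_toLex] at h
  rcases h with h | h
  · exact h.le
  · exact h.1.le

theorem key_len_lt {v w : List (Fin n)} (h : v.length < w.length) : key v < key w := by
  unfold key
  rw [Prod.Lex.toLex_lt_toLex]
  exact Or.inl h

/-- the order -/
def lt (g h : F n) : Prop :=
  ∃ w, M.mag w g < M.mag w h ∧ ∀ v, key v < key w → M.mag v g = M.mag v h

theorem diff_left (a b c : F n) (N : ℕ) (h : ∀ v : List (Fin n), v.length < N → M.mag v a = M.mag v b)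
    (v : List (Fin n)) (hv : v.length ≤ N) :
    M.mag v (c * a) - M.mag v (c * b) = M.mag v a - M.mag v b := by
  rw [M.mul, M.mul, ← Finset.sum_sub_distrib, Finset.sum_eq_single 0]
  · rw [List.take_zero, List.drop_zero, M.nil]
    ring
  · intro i hi hi0
    have hi' := Finset.mem_range.mp hi
    rw [h (v.drop i), sub_self]
    rw [List.length_drop]
    omega
  · intro h0
    exact absurd (Finset.mem_range.mpr (Nat.succ_pos _)) h0

theorem diff_right (a b c : F n) (N : ℕ) (h : ∀ v : List (Fin n), v.length < N → M.mag v a = M.mag v b)
    (v : List (Fin n)) (hv : v.length ≤ N) :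
    M.mag v (a * c) - M.mag v (b * c) = M.mag v a - M.mag v b := by
  rw [M.mul, M.mul, ← Finset.sum_sub_distrib, Finset.sum_eq_single v.length]
  · rw [List.take_length, List.drop_length, M.nil]
    ring
  · intro i hi hi0
    have hi' := Finset.mem_range.mp hi
    rw [h (v.take i), sub_self]
    rw [List.length_take]
    omega
  · intro h0
    exact absurd (Finset.mem_range.mpr (Nat.lt_succ_self _)) h0

theorem lt_len {g h : F n} {w : List (Fin n)} (h2 : ∀ v, key v < key w → M.mag v g = M.mag v h)
    (v : List (Fin n)) (hv : v.length < w.length) : M.mag v g = M.mag v h :=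
  h2 v (key_len_lt hv)

/-- the bi-order -/
def ord : BO (F n) where
  lt := lt M
  irr := by
    rintro a ⟨w, h, _⟩
    exact lt_irrefl _ h
  tr := by
    rintro a b c ⟨w, h1, h2⟩ ⟨w', h1', h2'⟩
    rcases lt_trichotomy (key w) (key w') with h | h | h
    · exact ⟨w, by rw [← h2' w h]; exact h1, fun v hv => (h2 v hv).trans (h2' v (hv.trans h))⟩
    · have := key_inj h
      subst this
      exact ⟨w, h1.trans h1', fun v hv => (h2 v hv).trans (h2' v hv)⟩
    · exact ⟨w', by rw [h2 w' h]; exact h1', fun v hv => (h2 v (hv.trans h)).trans (h2' v hv)⟩
  tri := by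
    intro a b
    by_cases hab : a = b
    · exact Or.inr (Or.inl hab)
    · have hne : ∃ w, M.mag w a ≠ M.mag w b := by
        by_contra hcon
        push Not at hcon
        exact hab (MALC.ext M a b hcon)
      have hwf : WellFounded (fun v w : List (Fin n) => key v < key w) :=
        InvImage.wf key wellFounded_lt
      obtain ⟨w, hw, hmin⟩ := hwf.has_min {w | M.mag w a ≠ M.mag w b} hne
      have hmin' : ∀ v, key v < key w → M.mag v a = M.mag v b := by
        intro v hv
        by_contra h
        exact hmin v h hv
      rcases lt_or_gt_of_ne hw with h | h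
      · exact Or.inl ⟨w, h, hmin'⟩
      · exact Or.inr (Or.inr ⟨w, h, fun v hv => (hmin' v hv).symm⟩)
  ml := by
    rintro c a b ⟨w, h1, h2⟩
    refine ⟨w, ?_, ?_⟩
    · have := diff_left M a b c w.length (lt_len M h2) w le_rfl
      linarith
    · intro v hv
      have := diff_left M a b c w.length (lt_len M h2) v (key_lt_len hv)
      rw [h2 v hv] at this
      linarith
  mr := by
    rintro c a b ⟨w, h1, h2⟩
    refine ⟨w, ?_, ?_⟩
    · have := diff_right M a b c w.length (lt_len M h2) w le_rfl
      linarith
    · intro v hv
      have := diff_right M a b c w.length (lt_len M h2) v (key_lt_len hv)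
      rw [h2 v hv] at this
      linarith

/-! ### the group ring -/

/-- the group ring -/
abbrev R (n : ℕ) : Type := MonoidAlgebra ℤ (F n)

/-- linear extension of `mag w` -/
noncomputable def lin (w : List (Fin n)) : R n →+ ℤ :=
  (Finsupp.liftAddHom (fun g => AddMonoidHom.mulRight (M.mag w g))).comp
    (MonoidAlgebra.coeffAddEquiv (R := ℤ) (M := F n)).toAddMonoidHom

theorem lin_single (w : List (Fin n)) (g : F n) (c : ℤ) :
    lin M w (MonoidAlgebra.single g c) = c * M.mag w g := by
  unfold lin
  simp [MonoidAlgebra.coeffAddEquiv]

theorem lin_mul (w : List (Fin n)) (x y : R n) :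
    lin M w (x * y) = ∑ i ∈ Finset.range (w.length + 1), lin M (w.take i) x * lin M (w.drop i) y := by
  induction x using MonoidAlgebra.induction_linear with
  | zero => simp
  | add x x' hx hx' => simp only [add_mul, map_add, hx, hx', Finset.sum_add_distrib]
  | single g c =>
    induction y using MonoidAlgebra.induction_linear with
    | zero => simp
    | add y y' hy hy' => simp only [mul_add, map_add, hy, hy', Finset.sum_add_distrib]
    | single h d =>
      rw [MonoidAlgebra.single_mul_single, lin_single, M.mul, Finset.mul_sum]
      apply Finset.sum_congr rfl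
      intro i _
      rw [lin_single, lin_single]
      ring

theorem lin_one (w : List (Fin n)) : lin M w 1 = if w = [] then 1 else 0 := by
  rw [MonoidAlgebra.one_def, lin_single, one_mul]
  split_ifs with h
  · rw [h, M.nil]
  · exact MALC.mag_one M w h

/-- decomposition -/
def Dec (x : R n) : Prop :=
  ∃ y : Fin n → R n, x = ∑ a, y a * (MonoidAlgebra.single (gen a) 1 - 1)

theorem Dec.add {x x' : R n} (h : Dec x) (h' : Dec x') : Dec (x + x') := by
  obtain ⟨y, hy⟩ := h
  obtain ⟨y', hy'⟩ := h'
  refine ⟨fun a => y a + y' a, ?_⟩
  simp only [add_mul, Finset.sum_add_distrib]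
  rw [← hy, ← hy']

theorem Dec.mul {x : R n} (z : R n) (h : Dec x) : Dec (z * x) := by
  obtain ⟨y, hy⟩ := h
  refine ⟨fun a => z * y a, ?_⟩
  rw [hy, Finset.mul_sum]
  simp only [mul_assoc]

theorem Dec.gen (a : Fin n) : Dec (MonoidAlgebra.single (gen a) (1 : ℤ) - 1) := by
  refine ⟨fun b => if b = a then 1 else 0, ?_⟩
  rw [Finset.sum_eq_single a]
  · simp
  · intro b _ hb
    simp only [if_neg hb, zero_mul]
  · intro h
    exact absurd (Finset.mem_univ a) h

theorem dec_group (g : F n) : Dec (MonoidAlgebra.single g (1 : ℤ) - 1) := by
  induction g using FreeGroup.induction_on with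
  | C1 =>
    refine ⟨fun _ => 0, ?_⟩
    rw [← MonoidAlgebra.one_def]
    simp
  | of a => exact Dec.gen a
  | inv_of a _ =>
    have h := Dec.mul (MonoidAlgebra.single (gen a)⁻¹ (-1 : ℤ)) (Dec.gen a)
    have h2 : MonoidAlgebra.single (gen a)⁻¹ (-1 : ℤ) * (MonoidAlgebra.single (gen a) (1 : ℤ) - 1) =
        MonoidAlgebra.single (FreeGroup.of a)⁻¹ (1 : ℤ) - 1 := by
      rw [mul_sub, MonoidAlgebra.single_mul_single, mul_one, mul_one, inv_mul_cancel,
        MonoidAlgebra.one_def]
      have h3 : MonoidAlgebra.single (gen a)⁻¹ (-1 : ℤ) = -MonoidAlgebra.single (gen a)⁻¹ (1 : ℤ) := by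
        rw [← MonoidAlgebra.single_neg]
      have h4 : MonoidAlgebra.single (1 : F n) (-1 : ℤ) = -MonoidAlgebra.single (1 : F n) (1 : ℤ) := by
        rw [← MonoidAlgebra.single_neg]
      rw [h3, h4]
      abel
    rw [h2] at h
    exact h
  | mul g h hg hh =>
    have h1 := (Dec.mul (MonoidAlgebra.single g (1 : ℤ)) hh).add hg
    have h2 : MonoidAlgebra.single g (1 : ℤ) * (MonoidAlgebra.single h (1 : ℤ) - 1) +
        (MonoidAlgebra.single g (1 : ℤ) - 1) = MonoidAlgebra.single (g * h) (1 : ℤ) - 1 := by
      rw [mul_sub, MonoidAlgebra.single_mul_single, mul_one, mul_one]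
      abel
    rw [h2] at h1
    exact h1

theorem dec_all (x : R n) : Dec (x - MonoidAlgebra.single 1 (lin M [] x)) := by
  induction x using MonoidAlgebra.induction_linear with
  | zero =>
    refine ⟨fun _ => 0, ?_⟩
    simp
  | add x x' hx hx' =>
    have h := hx.add hx'
    rw [map_add, MonoidAlgebra.single_add]
    have h2 : x - MonoidAlgebra.single 1 (lin M [] x) + (x' - MonoidAlgebra.single 1 (lin M [] x')) =
      x + x' - (MonoidAlgebra.single 1 (lin M [] x) + MonoidAlgebra.single 1 (lin M [] x')) := by abel
    rw [← h2]
    exact h
  | single g c =>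
    have h := Dec.mul (MonoidAlgebra.single 1 c) (dec_group g)
    rw [mul_sub, MonoidAlgebra.single_mul_single, mul_one, one_mul, mul_one] at h
    rw [lin_single, M.nil, mul_one]
    exact h

theorem lin_gen_sub (w : List (Fin n)) (a : Fin n) :
    lin M w (MonoidAlgebra.single (gen a) 1 - 1) = if w = [a] then 1 else 0 := by
  rw [map_sub, lin_single, one_mul, lin_one]
  match w with
  | [] => rw [M.nil]; simp
  | [b] => rw [M.gen1]; simp
  | b :: c :: w => rw [M.gen2 _ _ (by simp)]; simp

theorem lin_dec (y : Fin n → R n) (v : List (Fin n)) (b : Fin n) :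
    lin M (v ++ [b]) (∑ a, y a * (MonoidAlgebra.single (gen a) 1 - 1)) = lin M v (y b) := by
  rw [map_sum, Finset.sum_eq_single b]
  · rw [lin_mul, Finset.sum_eq_single v.length]
    · rw [List.take_left, List.drop_left, lin_gen_sub, if_pos rfl, mul_one]
    · intro i hi hi0
      rw [lin_gen_sub, if_neg, mul_zero]
      intro h
      have h2 := congrArg List.length h
      rw [List.length_drop, List.length_append, List.length_singleton] at h2
      have hi' := Finset.mem_range.mp hi
      rw [List.length_append, List.length_singleton] at hi'
      omega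
    · intro h
      exfalso
      apply h
      rw [Finset.mem_range, List.length_append]
      omega
  · intro a _ hab
    rw [lin_mul]
    apply Finset.sum_eq_zero
    intro i hi
    rw [lin_gen_sub, if_neg, mul_zero]
    intro h
    have h2 := congrArg List.length h
    rw [List.length_drop, List.length_append, List.length_singleton, List.length_singleton] at h2
    have h3 : i = v.length := by omega
    rw [h3, List.drop_left] at h
    simp only [List.cons.injEq, and_true] at h
    exact hab h.symm
  · intro h
    exact absurd (Finset.mem_univ b) h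

/-- the induced ring endomorphism -/
noncomputable def Th (θ : F n →* F n) : R n →+* R n := MonoidAlgebra.mapDomainRingHom ℤ θ

theorem Th_single (θ : F n →* F n) (g : F n) (c : ℤ) :
    Th θ (MonoidAlgebra.single g c) = MonoidAlgebra.single (θ g) c := by
  unfold Th
  simp

theorem mag1_mul (b : Fin n) (g h : F n) : M.mag [b] (g * h) = M.mag [b] g + M.mag [b] h := by
  rw [MALC.mag_mul' M [b] 0 rfl]
  simp

theorem mag1_ab (b : Fin n) (g h : F n) (hgh : Abelianization.of g = Abelianization.of h) :
    M.mag [b] g = M.mag [b] h := by
  let f : F n →* Multiplicative ℤ :=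
    { toFun := fun x => Multiplicative.ofAdd (M.mag [b] x)
      map_one' := by
        rw [MALC.mag_one M [b] (by simp)]
        rfl
      map_mul' := by
        intro x y
        rw [mag1_mul]
        rfl }
  have h1 : Abelianization.lift f (Abelianization.of g) = Abelianization.lift f (Abelianization.of h) := by
    rw [hgh]
  rw [Abelianization.lift_apply_of, Abelianization.lift_apply_of] at h1
  exact h1

theorem main (θ : F n →* F n) (hθ : ∀ g, Abelianization.of (θ g) = Abelianization.of g) :
    ∀ c : ℕ, ∀ x : R n, (∀ v : List (Fin n), v.length < c → lin M v x = 0) →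
      (∀ w : List (Fin n), w.length < c → lin M w (Th θ x) = 0) ∧
      ∀ w : List (Fin n), w.length = c → lin M w (Th θ x) = lin M w x := by
  intro c
  induction c with
  | zero =>
    intro x _
    refine ⟨fun w hw => absurd hw (Nat.not_lt_zero _), ?_⟩
    intro w hw
    rw [List.eq_nil_of_length_eq_zero hw]
    induction x using MonoidAlgebra.induction_linear with
    | zero => simp
    | add x x' hx hx' => rw [map_add, map_add, map_add, hx, hx'] <;> simp
    | single g c => rw [Th_single, lin_single, lin_single, M.nil, M.nil]
  | succ c ih =>
    intro x hx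
    have hx0 : lin M [] x = 0 := hx [] (by simp)
    obtain ⟨y, hy⟩ := dec_all M x
    rw [hx0, MonoidAlgebra.single_zero, sub_zero] at hy
    have hyJ : ∀ a, ∀ v : List (Fin n), v.length < c → lin M v (y a) = 0 := by
      intro a v hv
      rw [← lin_dec M y v a, ← hy]
      apply hx
      rw [List.length_append, List.length_singleton]
      omega
    have hTh : ∀ w : List (Fin n), w.length ≤ c + 1 → lin M w (Th θ x) =
        if w.length = c + 1 then lin M w x else 0 := by
      intro w hw
      rw [hy, map_sum, map_sum]
      rcases List.eq_nil_or_concat w with h | ⟨v, b, h⟩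
      · subst h
        rw [if_neg (by simp)]
        apply Finset.sum_eq_zero
        intro a _
        rw [map_mul, lin_mul]
        simp only [List.length_nil, zero_add, Finset.range_one, Finset.sum_singleton,
          List.take_nil, List.drop_nil]
        rw [map_sub, map_one, Th_single, map_sub, lin_single, lin_one, M.nil]
        simp
      · rw [List.concat_eq_append] at h
        subst h
        rw [List.length_append, List.length_singleton] at hw
        rw [lin_dec, List.length_append, List.length_singleton]
        have hterm : ∀ a, lin M (v ++ [b]) (Th θ (y a * (MonoidAlgebra.single (gen a) 1 - 1))) =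
            if a = b then lin M v (Th θ (y a)) else 0 := by
          intro a
          rw [map_mul, lin_mul, map_sub, map_one, Th_single]
          rw [Finset.sum_eq_single v.length]
          · rw [List.take_left, List.drop_left, map_sub, lin_single, lin_one, if_neg (by simp),
              one_mul, sub_zero, mag1_ab M b _ _ (hθ (gen a)), M.gen1]
            by_cases hab : a = b
            · rw [if_pos hab, if_pos hab.symm, mul_one]
            · rw [if_neg hab, if_neg (fun h => hab h.symm), mul_zero]
          · intro i hi hi0
            have hi' := Finset.mem_range.mp hi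
            rw [List.length_append, List.length_singleton] at hi'
            rcases lt_or_gt_of_ne hi0 with h | h
            · rw [(ih (y a) (hyJ a)).1, zero_mul]
              rw [List.length_take, List.length_append, List.length_singleton]
              omega
            · have h2 : (v ++ [b]).drop i = [] := by
                apply List.drop_eq_nil_of_le
                rw [List.length_append, List.length_singleton]
                omega
              rw [h2, map_sub, lin_single, lin_one, M.nil]
              simp
          · intro h
            exfalso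
            apply h
            rw [Finset.mem_range, List.length_append]
            omega
        simp only [hterm]
        rw [Finset.sum_ite_eq' Finset.univ b, if_pos (Finset.mem_univ b)]
        by_cases h : v.length + 1 = c + 1
        · rw [if_pos h]
          exact (ih (y b) (hyJ b)).2 v (by omega)
        · rw [if_neg h]
          exact (ih (y b) (hyJ b)).1 v (by omega)
    refine ⟨?_, ?_⟩
    · intro w hw
      rw [hTh w hw.le, if_neg (by omega)]
    · intro w hw
      rw [hTh w hw.le, if_pos hw]

end MORD

theorem mord (h : StMag) : StMord := by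
  intro n
  obtain ⟨M⟩ := h n
  refine ⟨MORD.ord M, ?_⟩
  rintro θ hθ a b ⟨w, h1, h2⟩
  have hx : ∀ v : List (Fin n), v.length < w.length →
      MORD.lin M v (MonoidAlgebra.single b 1 - MonoidAlgebra.single a 1) = 0 := by
    intro v hv
    rw [map_sub, MORD.lin_single, MORD.lin_single, MORD.lt_len M h2 v hv, sub_self]
  obtain ⟨k1, k2⟩ := MORD.main M θ hθ w.length _ hx
  have hle : ∀ v : List (Fin n), v.length ≤ w.length →
      M.mag v (θ b) - M.mag v (θ a) = M.mag v b - M.mag v a := by
    intro v hv
    rcases hv.lt_or_eq with h | h
    · have := k1 v h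
      rw [map_sub, MORD.Th_single, MORD.Th_single, map_sub, MORD.lin_single, MORD.lin_single,
        one_mul, one_mul] at this
      rw [this, MORD.lt_len M h2 v h, sub_self]
    · have := k2 v h
      rw [map_sub, MORD.Th_single, MORD.Th_single, map_sub, map_sub, MORD.lin_single,
        MORD.lin_single, MORD.lin_single, MORD.lin_single, one_mul, one_mul, one_mul, one_mul] at this
      exact this
  refine ⟨w, ?_, ?_⟩
  · have := hle w le_rfl
    linarith
  · intro v hv
    have := hle v (MORD.key_lt_len hv)
    rw [h2 v hv] at this
    linarith

end DL
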