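import Pool.Agent.Helper14.DL.St
import Pool.Agent.Helper14.DL.Lin

set_option autoImplicit false

/-! Project DL: module PI (rho = pi), and basic lemmas on spans. -/

namespace DL

open scoped Classical

section

variable {n : ℕ} {o : BO (F n)} (M : MF o)

/-- the span of the gradients of a subgroup is spanned by the gradients of generators -/
theorem span_gens {ι : Type*} (E P : Subgroup (F n)) (hPE : P ≤ E) (x : ι → F n)
    (hx : Subgroup.closure (Set.range x) = P) :
    V M E P = Submodule.span (M.sub E) (Set.range fun i => nab M (x i)) := by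
  apply le_antisymm
  · refine Submodule.span_le.2 ?_
    rintro _ ⟨y, hy, rfl⟩
    have hy' : y ∈ Subgroup.closure (Set.range x) := by rw [hx]; exact hy
    have hE : ∀ z ∈ Subgroup.closure (Set.range x), M.of z ∈ M.sub E := fun z hz =>
      M.of_mem_sub (hPE (by rw [← hx]; exact hz))
    induction hy' using Subgroup.closure_induction with
    | mem z hz =>
      obtain ⟨i, rfl⟩ := hz
      exact Submodule.subset_span ⟨i, rfl⟩
    | one =>
      rw [nab_one]
      exact Submodule.zero_mem _
    | mul a b ha hb iha ihb =>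
      rw [nab_mul]
      refine Submodule.add_mem _ (iha (by rw [← hx]; exact ha)) ?_
      exact Submodule.smul_mem _ (⟨M.of a, hE a ha⟩ : M.sub E) (ihb (by rw [← hx]; exact hb))
    | inv a ha iha =>
      rw [nab_inv]
      refine Submodule.neg_mem _ ?_
      exact Submodule.smul_mem _ (⟨M.of a⁻¹, hE a⁻¹ (inv_mem ha)⟩ : M.sub E)
        (iha (by rw [← hx]; exact ha))
  · refine Submodule.span_le.2 ?_
    rintro _ ⟨i, rfl⟩
    exact Submodule.subset_span ⟨x i, by rw [← hx]; exact Subgroup.subset_closure ⟨i, rfl⟩, rfl⟩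

end

theorem Pi.unique {G : Type} [Group G] {E L : Subgroup G} {r r' : ℕ} (h : Pi E L r)
    (h' : Pi E L r') : r = r' := by
  obtain ⟨⟨N, a1, a2, a3⟩, a4⟩ := h
  obtain ⟨⟨N', b1, b2, b3⟩, b4⟩ := h'
  exact le_antisymm (a4 N' b1 b2 _ b3) (b4 N a1 a2 _ a3)

/-- `dim V_E(L) = r ≤ s` if `L` lies in an `s`-generated subgroup of `E` -/
theorem rho_le {n : ℕ} {o : BO (F n)} (M : MF o) {E L N : Subgroup (F n)} {r s : ℕ}
    (hr : IsRho M E L r) (hLN : L ≤ N) (hNE : N ≤ E) (hs : dle N s) : r ≤ s := by
  obtain ⟨x, hxL, hxi, hxV⟩ := hr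
  obtain ⟨y, hy⟩ := hs
  have h1 : Submodule.span (M.sub E) (Set.range fun i => nab M (x i)) ≤
      Submodule.span (M.sub E) (Set.range fun i => nab M (y i)) := by
    rw [← hxV, ← span_gens M E N hNE y hy]
    exact V_mono M hLN
  have h2 := finrank_span_eq_card hxi
  have h3 : Module.Finite (M.sub E)
      (Submodule.span (M.sub E) (Set.range fun i => nab M (y i))) :=
    FiniteDimensional.span_of_finite _ (Set.finite_range _)
  have h4 := Submodule.finrank_mono h1
  have h5 : Module.finrank (M.sub E)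
      (Submodule.span (M.sub E) (Set.range fun i => nab M (y i))) ≤ Fintype.card (Fin s) :=
    finrank_range_le_card _
  rw [Fintype.card_fin] at h2 h5
  omega

/-- the span has a basis of gradients as soon as `L` lies in a finitely generated subgroup of `E` -/
theorem exists_rho {n : ℕ} {o : BO (F n)} (M : MF o) {E L N : Subgroup (F n)} {s : ℕ}
    (hLN : L ≤ N) (hNE : N ≤ E) (hs : dle N s) : ∃ r, IsRho M E L r := by
  obtain ⟨y, hy⟩ := hs
  obtain ⟨b, hbs, hbspan, hbi⟩ := exists_linearIndependent (M.sub E) (nab M '' (L : Set (F n)))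
  have hfin : Finite b := by
    refine hbi.finite_of_le_span_finite _ (Set.range fun i => nab M (y i)) ?_
    rintro _ ⟨z, rfl⟩
    have h1 : (z : Fin n → M.K) ∈ V M E N :=
      V_mono M hLN (Submodule.subset_span (hbs z.2))
    rw [span_gens M E N hNE y hy] at h1
    exact h1
  have := Fintype.ofFinite b
  let e := (Fintype.equivFin b).symm
  choose x hxL hx using fun i : Fin (Fintype.card b) => hbs (e i).2
  refine ⟨Fintype.card b, x, hxL, ?_, ?_⟩
  · have h1 := hbi.comp e e.injective
    have h2 : (fun i => nab M (x i)) = (fun z : b => (z : Fin n → M.K)) ∘ e := funext hx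
    rw [h2]
    exact h1
  · have h2 : (Set.range fun i => nab M (x i)) = b := by
      ext z
      constructor
      · rintro ⟨i, rfl⟩
        simp only [hx i]
        exact (e i).2
      · intro hz
        exact ⟨e.symm ⟨z, hz⟩, by simp only [hx, Equiv.apply_symm_apply]⟩
    rw [h2, hbspan]
    rfl

theorem pi (h : StA) : StPi := by
  intro n o M E L hLE
  have fwd : ∀ r, IsRho M E L r → Pi E L r := by
    intro r hr
    obtain ⟨b, hb1, hb2⟩ := h n o M E L hLE r hr
    have hC : ∀ y, y ∈ Subgroup.closure (Set.range b) ↔ y ∈ clSet M E L := fun y => by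
      rw [← hb1]
      rfl
    refine ⟨⟨Subgroup.closure (Set.range b), ?_, ?_, b, rfl⟩, ?_⟩
    · intro y hy
      exact (hC y).2 ⟨hLE hy, Submodule.subset_span ⟨y, hy, rfl⟩⟩
    · intro y hy
      exact ((hC y).1 hy).1
    · intro N hLN hNE s hs
      exact rho_le M hr hLN hNE hs
  intro r
  refine ⟨fwd r, fun hr => ?_⟩
  obtain ⟨⟨N, hLN, hNE, hN⟩, hmin⟩ := hr
  obtain ⟨r', hr'⟩ := exists_rho M hLN hNE hN
  have h1 := Pi.unique (fwd r' hr') ⟨⟨N, hLN, hNE, hN⟩, hmin⟩
  rwa [← h1]

theorem ex : StEx := by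
  intro n E L N s hLN hNE hs
  have hex : ∃ r, ∃ N', L ≤ N' ∧ N' ≤ E ∧ dle N' r := ⟨s, N, hLN, hNE, hs⟩
  refine ⟨Nat.find hex, Nat.find_min' hex ⟨N, hLN, hNE, hs⟩, Nat.find_spec hex, ?_⟩
  intro N' h1 h2 s' h3
  exact Nat.find_min' hex ⟨N', h1, h2, h3⟩

end DL
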