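import Pool.Agent.Helper14.DL.A
import Pool.Agent.Helper14.DL.A1
import Pool.Agent.Helper14.DL.A2
import Pool.Agent.Helper14.DL.A3
import Pool.Agent.Helper14.DL.A4
import Pool.Agent.Helper14.DL.B1
import Pool.Agent.Helper14.DL.B1a
import Pool.Agent.Helper14.DL.B1b
import Pool.Agent.Helper14.DL.B2
import Pool.Agent.Helper14.DL.B3a
import Pool.Agent.Helper14.DL.B3b
import Pool.Agent.Helper14.DL.BB
import Pool.Agent.Helper14.DL.D
import Pool.Agent.Helper14.DL.D1
import Pool.Agent.Helper14.DL.D2
import Pool.Agent.Helper14.DL.D3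
import Pool.Agent.Helper14.DL.EQ
import Pool.Agent.Helper14.DL.FIN
import Pool.Agent.Helper14.DL.HULL
import Pool.Agent.Helper14.DL.INV
import Pool.Agent.Helper14.DL.JOIN
import Pool.Agent.Helper14.DL.MAG
import Pool.Agent.Helper14.DL.MALC
import Pool.Agent.Helper14.DL.MNF
import Pool.Agent.Helper14.DL.MORD
import Pool.Agent.Helper14.DL.PI

set_option autoImplicit false

/-!
Project DL: assembly.
-/

namespace DL

theorem all : StD := by
  have hmo := mord mag
  have hA := a a1 a2 a3 a4
  have hP := pi hA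
  have hJ := join mnf hmo hA hP
  have hI := inv mnf hmo hA hP
  have hH := hull mnf hmo hA hP
  have hG := gmin hP
  have hb := bas mnf hmo hP
  have hB1 := b1 mnf hmo eq b1a b1b hG hb
  have hB2 := b2 mnf hmo eq hG hb
  have hB := bb hB1 hB2 (b3 b3a)
  exact d (d1 ex hJ hI) (d3 ex hJ hH (union mnf hmo hA hP) hI (top mnf hmo hP) (hullMap hI hH) hB (malc mag) (d2 ex hJ hI))

end DL
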