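import Mathlib

set_option autoImplicit false

/-!
Project DL (MP_2bc838_lc, S14533): base definitions.
Everything for the free groups `F n = FreeGroup (Fin n)`.
-/

namespace DL

open scoped Classical

/-- The free group of rank `n`. -/
abbrev F (n : ℕ) : Type := FreeGroup (Fin n)

/-- the `a`-th generator -/
abbrev gen {n : ℕ} (a : Fin n) : F n := FreeGroup.of a

/-- Bi-orders (strict linear, left and right invariant) on a group. -/
structure BO (G : Type) [Group G] where
  lt : G → G → Prop
  irr : ∀ a, ¬ lt a a
  tr : ∀ a b c, lt a b → lt b c → lt a c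
  tri : ∀ a b, lt a b ∨ a = b ∨ lt b a
  ml : ∀ c a b, lt a b → lt (c * a) (c * b)
  mr : ∀ c a b, lt a b → lt (a * c) (b * c)

/-- Malcev-Neumann field of a bi-ordered group with rational coefficients, axiomatically:
`K` is a division ring whose elements are exactly the functions `G → ℚ` with support well founded for `o.lt`. -/
structure MF {G : Type} [Group G] (o : BO G) where
  K : Type
  ring : DivisionRing K
  cf : K → G → ℚ
  wf : ∀ a, (Function.support (cf a)).WellFoundedOn o.lt
  ext : ∀ a b, cf a = cf b → a = b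
  ex : ∀ f : G → ℚ, (Function.support f).WellFoundedOn o.lt → ∃ a, cf a = f
  add : ∀ a b g, cf (a + b) g = cf a g + cf b g
  fin : ∀ a b p, {f | cf a f ≠ 0 ∧ cf b (f⁻¹ * p) ≠ 0}.Finite
  mul : ∀ a b p, cf (a * b) p = ∑ᶠ f, cf a f * cf b (f⁻¹ * p)
  one : ∀ g, cf 1 g = if g = 1 then 1 else 0

attribute [instance] MF.ring

/-! ### Fox derivatives, with integer coefficients, as finitely supported functions -/

/-- left translation of finitely supported functions: `lm g f w = f (g⁻¹ * w)` -/
noncomputable def lm {n : ℕ} (g : F n) : (F n →₀ ℤ) ≃+ (F n →₀ ℤ) :=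
  Finsupp.domCongr (Equiv.mulLeft g)

/-- the affine permutation of the generator `b` for the derivative `∂/∂a` -/
noncomputable def aff {n : ℕ} (a b : Fin n) : Equiv.Perm (F n →₀ ℤ) :=
  (lm (gen b)).toEquiv.trans (Equiv.addRight (if a = b then Finsupp.single 1 1 else 0))

/-- the Fox derivative `∂g/∂a` as a finitely supported function `F n → ℤ` -/
noncomputable def fox {n : ℕ} (a : Fin n) (g : F n) : F n →₀ ℤ :=
  (FreeGroup.lift (aff a) : F n →* Equiv.Perm (F n →₀ ℤ)) g 0

/-! ### generation, minimal rank of overgroups -/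

/-- `M` is generated by `r` elements -/
def dle {G : Type} [Group G] (M : Subgroup G) (r : ℕ) : Prop :=
  ∃ x : Fin r → G, Subgroup.closure (Set.range x) = M

/-- `r` is the least number of generators of an intermediate group `L ≤ M ≤ E` -/
def Pi {G : Type} [Group G] (E L : Subgroup G) (r : ℕ) : Prop :=
  (∃ M, L ≤ M ∧ M ≤ E ∧ dle M r) ∧ ∀ M, L ≤ M → M ≤ E → ∀ s, dle M s → r ≤ s

/-! ### basics on `MF` -/

namespace MF

variable {G : Type} [Group G] {o : BO G} (M : MF o)

theorem single_wf (g : G) (c : ℚ) :
    (Function.support (fun h : G => if h = g then c else 0)).WellFoundedOn o.lt := by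
  have hsub : (Function.support (fun h : G => if h = g then c else 0)) ⊆ ({g} : Set G) := by
    intro x hx
    by_contra hne
    exact hx (if_neg (by simpa using hne))
  refine Set.WellFoundedOn.subset ?_ hsub
  rw [Set.wellFoundedOn_iff]
  refine ⟨fun a => ⟨_, fun b hb => ?_⟩⟩
  obtain ⟨h1, h2, h3⟩ := hb
  simp only [Set.mem_singleton_iff] at h2 h3
  subst h2
  subst h3
  exact absurd h1 (o.irr _)

/-- monomial `c • g` -/
noncomputable def mono (g : G) (c : ℚ) : M.K := Classical.choose (M.ex _ (single_wf (o := o) g c))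

theorem cf_mono (g : G) (c : ℚ) (h : G) : M.cf (M.mono g c) h = if h = g then c else 0 :=
  congrFun (Classical.choose_spec (M.ex _ (single_wf (o := o) g c))) h

/-- the group element `g` in the field -/
noncomputable def of (g : G) : M.K := M.mono g 1

theorem cf_of (g h : G) : M.cf (M.of g) h = if h = g then 1 else 0 := M.cf_mono g 1 h

theorem ext' {a b : M.K} (h : ∀ g, M.cf a g = M.cf b g) : a = b := M.ext a b (funext h)

theorem cf_zero (g : G) : M.cf 0 g = 0 := by
  have := M.add 0 0 g
  simpa using this

/-- coefficient as an additive map -/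
noncomputable def cfHom (g : G) : M.K →+ ℚ where
  toFun a := M.cf a g
  map_zero' := M.cf_zero g
  map_add' a b := M.add a b g

theorem cf_neg (a : M.K) (g : G) : M.cf (-a) g = -M.cf a g := map_neg (M.cfHom g) a

theorem cf_sub (a b : M.K) (g : G) : M.cf (a - b) g = M.cf a g - M.cf b g := map_sub (M.cfHom g) a b

theorem cf_sum {ι : Type*} (s : Finset ι) (f : ι → M.K) (g : G) :
    M.cf (∑ i ∈ s, f i) g = ∑ i ∈ s, M.cf (f i) g := map_sum (M.cfHom g) f s

theorem cf_mono_mul (g : G) (c : ℚ) (a : M.K) (p : G) :
    M.cf (M.mono g c * a) p = c * M.cf a (g⁻¹ * p) := by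
  rw [M.mul]
  rw [finsum_eq_single _ g]
  · rw [M.cf_mono, if_pos rfl]
  · intro h hh
    rw [M.cf_mono, if_neg hh, zero_mul]

theorem cf_mul_mono (g : G) (c : ℚ) (a : M.K) (p : G) :
    M.cf (a * M.mono g c) p = M.cf a (p * g⁻¹) * c := by
  rw [M.mul]
  rw [finsum_eq_single _ (p * g⁻¹)]
  · rw [M.cf_mono, if_pos (by group)]
  · intro h hh
    rw [M.cf_mono, if_neg, mul_zero]
    intro h2
    apply hh
    rw [← h2]
    group

theorem cf_of_mul (g : G) (a : M.K) (p : G) : M.cf (M.of g * a) p = M.cf a (g⁻¹ * p) := by
  unfold of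
  rw [M.cf_mono_mul, one_mul]

theorem cf_mul_of (g : G) (a : M.K) (p : G) : M.cf (a * M.of g) p = M.cf a (p * g⁻¹) := by
  unfold of
  rw [M.cf_mul_mono, mul_one]

theorem of_one : M.of 1 = 1 := M.ext' fun g => by rw [M.cf_of, M.one]

theorem of_mul (g h : G) : M.of (g * h) = M.of g * M.of h := M.ext' fun p => by
  rw [M.cf_of_mul, M.cf_of, M.cf_of]
  have : (p = g * h) ↔ (g⁻¹ * p = h) := by
    constructor
    · rintro rfl
      group
    · rintro rfl
      group
  simp only [this]

theorem mul_supp {a b : M.K} {p : G} (h : M.cf (a * b) p ≠ 0) :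
    ∃ f, M.cf a f ≠ 0 ∧ M.cf b (f⁻¹ * p) ≠ 0 := by
  by_contra hcon
  push Not at hcon
  apply h
  rw [M.mul]
  apply finsum_eq_zero_of_forall_eq_zero
  intro f
  by_cases hf : M.cf a f = 0
  · rw [hf, zero_mul]
  · rw [hcon f hf, mul_zero]

/-- restriction of the support to a set -/
theorem restrict_ex (a : M.K) (S : Set G) :
    ∃ b, ∀ g, M.cf b g = if g ∈ S then M.cf a g else 0 := by
  obtain ⟨b, hb⟩ := M.ex (fun g => if g ∈ S then M.cf a g else 0) ((M.wf a).subset (by
    intro x hx h
    apply hx
    simp only
    split_ifs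
    · exact h
    · rfl))
  exact ⟨b, fun g => congrFun hb g⟩

/-- the series supported on a subgroup form a division subring -/
def sub (E : Subgroup G) : Subfield M.K where
  carrier := {a | ∀ g, M.cf a g ≠ 0 → g ∈ E}
  mul_mem' := by
    intro a b ha hb g hg
    obtain ⟨f, hf1, hf2⟩ := M.mul_supp hg
    have := E.mul_mem (ha _ hf1) (hb _ hf2)
    simpa using this
  one_mem' := by
    intro g hg
    rw [M.one] at hg
    by_contra hne
    apply hg
    rw [if_neg]
    rintro rfl
    exact hne E.one_mem
  add_mem' := by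
    intro a b ha hb g hg
    rw [M.add] at hg
    by_contra hne
    apply hg
    have h1 : M.cf a g = 0 := by
      by_contra h
      exact hne (ha _ h)
    have h2 : M.cf b g = 0 := by
      by_contra h
      exact hne (hb _ h)
    rw [h1, h2, add_zero]
  zero_mem' := by
    intro g hg
    exact absurd (M.cf_zero g) hg
  neg_mem' := by
    intro a ha g hg
    rw [M.cf_neg] at hg
    exact ha g (by simpa using hg)
  inv_mem' := by
    intro a ha
    by_cases h0 : a = 0
    · subst h0
      rw [inv_zero]
      exact ha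
    -- decompose the inverse
    obtain ⟨b, hb⟩ := M.restrict_ex a⁻¹ (E : Set G)
    have key : a * b = 1 := by
      have hmul : a * a⁻¹ = 1 := mul_inv_cancel₀ h0
      have hsplit : a * b + a * (a⁻¹ - b) = 1 := by rw [← mul_add]; simpa using hmul
      apply M.ext'
      intro g
      by_cases hg : g ∈ E
      · have h1 : M.cf (a * (a⁻¹ - b)) g = 0 := by
          by_contra hne
          obtain ⟨f, hf1, hf2⟩ := M.mul_supp hne
          have hfE : f ∈ E := ha _ hf1
          have h3 : f⁻¹ * g ∈ E := E.mul_mem (E.inv_mem hfE) hg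
          apply hf2
          rw [M.cf_sub, hb, if_pos (show f⁻¹ * g ∈ (E : Set G) from h3), sub_self]
        have h2 := congrArg (fun z => M.cf z g) hsplit
        simp only [M.add, h1, add_zero] at h2
        exact h2
      · have h1 : M.cf (a * b) g = 0 := by
          by_contra hne
          obtain ⟨f, hf1, hf2⟩ := M.mul_supp hne
          have hfE : f ∈ E := ha _ hf1
          rw [hb] at hf2
          split_ifs at hf2 with h4
          · apply hg
            have := E.mul_mem hfE h4
            simpa using this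
          · exact hf2 rfl
        rw [h1, M.one, if_neg]
        rintro rfl
        exact hg E.one_mem
    have hb' : a⁻¹ = b := by
      rw [eq_comm]
      exact eq_inv_of_mul_eq_one_right key
    intro g hg
    change M.cf a⁻¹ g ≠ 0 at hg
    rw [hb', hb] at hg
    by_contra hne
    exact hg (if_neg hne)

theorem mem_sub {E : Subgroup G} {a : M.K} : a ∈ M.sub E ↔ ∀ g, M.cf a g ≠ 0 → g ∈ E := Iff.rfl

theorem of_mem_sub {E : Subgroup G} {g : G} (h : g ∈ E) : M.of g ∈ M.sub E := by
  intro x hx
  rw [M.cf_of] at hx
  by_contra hne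
  apply hx
  rw [if_neg]
  rintro rfl
  exact hne h

/-- integer group ring element to the field -/
noncomputable def io (f : G →₀ ℤ) : M.K := f.sum fun g c => M.mono g (c : ℚ)

theorem cf_io (f : G →₀ ℤ) (g : G) : M.cf (M.io f) g = (f g : ℚ) := by
  unfold io Finsupp.sum
  rw [M.cf_sum]
  simp only [M.cf_mono]
  rw [Finset.sum_ite_eq]
  split_ifs with h
  · rfl
  · simp only [Finsupp.mem_support_iff, not_not] at h
    rw [h]
    simp

end MF

/-! ### the gradient, spans, `rho`, closure -/

section grad

variable {n : ℕ} {o : BO (F n)} (M : MF o)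

/-- the gradient -/
noncomputable def nab (g : F n) : Fin n → M.K := fun a => M.io (fox a g)

/-- the `K_E`-span of the gradients of the elements of `L` -/
noncomputable def V (E L : Subgroup (F n)) : Submodule (M.sub E) (Fin n → M.K) :=
  Submodule.span (M.sub E) (nab M '' (L : Set (F n)))

/-- `rho_E(L) = r` : there is a `K_E`-basis of `V_E(L)` consisting of `r` gradients of elements of `L` -/
def IsRho (E L : Subgroup (F n)) (r : ℕ) : Prop :=
  ∃ x : Fin r → F n, (∀ i, x i ∈ L) ∧ LinearIndependent (M.sub E) (fun i => nab M (x i)) ∧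
    V M E L = Submodule.span (M.sub E) (Set.range fun i => nab M (x i))

end grad

end DL
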