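import Pool.Agent.Helper14.DL.St

set_option autoImplicit false

/-!
Project DL (MP_2bc838_lc, S14533), module D3: parts (5c)-(5f).
-/

namespace DL

open scoped Classical

/-! ### small facts -/

theorem dle_map_D3 {G G' : Type} [Group G] [Group G'] {M : Subgroup G} {r : ℕ} (h : dle M r)
    (g : G →* G') : dle (M.map g) r := by
  obtain ⟨x, hx⟩ := h
  refine ⟨fun i => g (x i), ?_⟩
  rw [← hx, MonoidHom.map_closure]
  congr 1
  rw [← Set.range_comp]
  rfl

theorem pi_of_le_D3 {G : Type} [Group G] {S M : Subgroup G} {v : ℕ} (hS : Pi ⊤ S v) (h : S ≤ M)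
    (hM : dle M v) : Pi ⊤ M v :=
  ⟨⟨M, le_rfl, le_top, hM⟩, fun M' h1 h2 s hs => hS.2 M' (h.trans h1) h2 s hs⟩

theorem hull_unique_D3 {n : ℕ} {E L : Subgroup (F n)} {r : ℕ} {N N' : Subgroup (F n)}
    (h : Hull E L r N) (h' : Hull E L r N') : N = N' :=
  le_antisymm (h.2.2.2 N' h'.1 h'.2.1 h'.2.2.1) (h'.2.2.2 N h.1 h.2.1 h.2.2.1)

theorem wi_le_D3 {n : ℕ} {g : F n →* F n} {w : F n} {l : ℕ} {M : Subgroup (F n)} :
    wi g w l ≤ M ↔ ∀ j, j < l → (g^[j]) w ∈ M := by
  unfold wi
  rw [Subgroup.closure_le]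
  constructor
  · intro h j hj
    exact h ⟨j, hj, rfl⟩
  · rintro h _ ⟨j, hj, rfl⟩
    exact h j hj

theorem mem_wi_D3 {n : ℕ} (g : F n →* F n) (w : F n) {l j : ℕ} (h : j < l) :
    (g^[j]) w ∈ wi g w l := wi_le_D3.1 le_rfl j h

theorem wi_mono_D3 {n : ℕ} (g : F n →* F n) (w : F n) {l l' : ℕ} (h : l ≤ l') :
    wi g w l ≤ wi g w l' := wi_le_D3.2 fun _ hj => mem_wi_D3 g w (hj.trans_le h)

theorem map_wi_le_D3 {n : ℕ} (g : F n →* F n) (w : F n) (l : ℕ) :
    (wi g w l).map g ≤ wi g w (l + 1) := by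
  rw [Subgroup.map_le_iff_le_comap, wi_le_D3]
  intro j hj
  rw [Subgroup.mem_comap, ← Function.iterate_succ_apply' (⇑g)]
  exact mem_wi_D3 g w (by omega)

theorem map_wi_le_iff_D3 {n : ℕ} {g : F n →* F n} {w : F n} {l : ℕ} {M : Subgroup (F n)} :
    (wi g w l).map g ≤ M ↔ ∀ j, j < l → (g^[j + 1]) w ∈ M := by
  rw [Subgroup.map_le_iff_le_comap, wi_le_D3]
  simp only [Subgroup.mem_comap, Function.iterate_succ_apply']

/-! ### the automorphism -/

/-- (5e) two homomorphisms which agree on `L`, with `pi(L) = v`, hull `T`, and the same hull of the image,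
agree on `T`. -/
theorem agree_hull_D3 (hi : StInv) (ht : StTop) (hB : StB) {n v : ℕ} (g h : F n →* F n)
    (L T : Subgroup (F n)) (hL : Pi ⊤ L v) (hT : Hull ⊤ L v T)
    (hgi : ∀ x ∈ T, g x = 1 → x = 1) (hhi : ∀ x ∈ T, h x = 1 → x = 1)
    (him : T.map g = T.map h) (hag : ∀ x ∈ L, g x = h x) : ∀ x ∈ T, g x = h x := by
  obtain ⟨hLT, -, ⟨y, hy⟩, hmin⟩ := hT
  set φ : F v →* F n := FreeGroup.lift y with hφ
  have hrange : (⊤ : Subgroup (F v)).map φ = T := by
    rw [← MonoidHom.range_eq_map, hφ, FreeGroup.range_lift_eq_closure, hy]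
  have hφT : ∀ x, φ x ∈ T := by
    intro x
    rw [← hrange]
    exact ⟨x, trivial, rfl⟩
  have hdT : dle T v := ⟨y, hy⟩
  have hPT : Pi ⊤ T v := pi_of_le_D3 hL hLT hdT
  have hdtop : dle (⊤ : Subgroup (F v)) v := by
    refine ⟨gen, ?_⟩
    rw [← FreeGroup.range_lift_eq_closure]
    have : (FreeGroup.lift (gen : Fin v → F v)) = MonoidHom.id (F v) := by
      ext i
      simp
    rw [this]
    exact MonoidHom.range_eq_top.2 Function.surjective_id
  have hφinj : Function.Injective φ := by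
    rw [injective_iff_map_eq_one]
    intro x hx
    exact (hi v n ⊤ v φ hdtop (ht v) (by rw [hrange]; exact hPT)).1 x trivial hx
  -- the two embeddings
  set gφ : F v →* F n := g.comp φ with hgφ
  set hφ' : F v →* F n := h.comp φ with hhφ
  have hgφi : Function.Injective gφ := by
    rw [injective_iff_map_eq_one]
    intro x hx
    exact hφinj (by rw [hgi (φ x) (hφT x) hx, map_one])
  have hhφi : Function.Injective hφ' := by
    rw [injective_iff_map_eq_one]
    intro x hx
    exact hφinj (by rw [hhi (φ x) (hφT x) hx, map_one])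
  have hrg : gφ.range = T.map g := by
    rw [← hrange, MonoidHom.range_eq_map, Subgroup.map_map]
  have hrh : hφ'.range = T.map h := by
    rw [← hrange, MonoidHom.range_eq_map, Subgroup.map_map]
  have hr : gφ.range = hφ'.range := by rw [hrg, hrh, him]
  set e1 : F v ≃* gφ.range := MonoidHom.ofInjective hgφi with he1
  set e2 : F v ≃* hφ'.range := MonoidHom.ofInjective hhφi with he2
  set θ : MulAut (F v) := (e1.trans (MulEquiv.subgroupCongr hr)).trans e2.symm with hθ
  have hkey : ∀ x, hφ' (θ x) = gφ x := by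
    intro x
    have h1 : e2 (θ x) = MulEquiv.subgroupCongr hr (e1 x) := by
      rw [hθ]
      exact e2.apply_symm_apply _
    have h2 := congrArg (fun z : hφ'.range => (z : F n)) h1
    exact h2
  have hθ1 : θ = 1 := by
    refine hB v (L.comap φ) ?_ ?_ θ ?_
    · refine ⟨⟨⊤, le_top, le_rfl, hdtop⟩, fun M hM _ s hs => ?_⟩
      refine hL.2 (M.map φ) ?_ le_top s (dle_map_D3 hs φ)
      intro z hz
      have hzT : z ∈ (⊤ : Subgroup (F v)).map φ := by rw [hrange]; exact hLT hz
      obtain ⟨x, -, rfl⟩ := hzT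
      exact ⟨x, hM hz, rfl⟩
    · intro M hM hd
      have h1 : T ≤ M.map φ := by
        refine hmin (M.map φ) ?_ le_top (dle_map_D3 hd φ)
        intro z hz
        have hzT : z ∈ (⊤ : Subgroup (F v)).map φ := by rw [hrange]; exact hLT hz
        obtain ⟨x, -, rfl⟩ := hzT
        exact ⟨x, hM hz, rfl⟩
      rw [eq_top_iff]
      intro x _
      obtain ⟨x', hx', hxx⟩ := h1 (hφT x)
      rw [← hφinj hxx]
      exact hx'
    · intro x hx
      apply hhφi
      rw [hkey]
      exact hag (φ x) hx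
  intro x hx
  rw [← hrange] at hx
  obtain ⟨z, -, rfl⟩ := hx
  have h1 := hkey z
  rw [hθ1] at h1
  exact h1.symm

/-! ### the annihilators -/

section ann

variable {H : Type} [Group H] {v : ℕ} (y : Fin v → H) (hy : Subgroup.closure (Set.range y) = ⊤)

/-- the coordinates of the homomorphisms `H →* ℚ` which vanish on `T` -/
noncomputable def annS_D3 (T : Subgroup H) : Submodule ℚ (Fin v → ℚ) where
  carrier := {c | ∃ f : H →* Multiplicative ℚ, (∀ x ∈ T, f x = 1) ∧
    ∀ i, Multiplicative.toAdd (f (y i)) = c i}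
  add_mem' := by
    rintro a b ⟨f, hf1, hf2⟩ ⟨f', hf1', hf2'⟩
    refine ⟨f * f', fun x hx => ?_, fun i => ?_⟩
    · rw [MonoidHom.mul_apply, hf1 x hx, hf1' x hx, one_mul]
    · rw [MonoidHom.mul_apply, toAdd_mul, hf2, hf2', Pi.add_apply]
  zero_mem' := ⟨1, fun x _ => rfl, fun i => rfl⟩
  smul_mem' := by
    rintro q a ⟨f, hf1, hf2⟩
    refine ⟨(AddMonoidHom.toMultiplicative (AddMonoidHom.mulLeft q)).comp f, fun x hx => ?_,
      fun i => ?_⟩
    · rw [MonoidHom.comp_apply, hf1 x hx, map_one]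
    · rw [MonoidHom.comp_apply, Pi.smul_apply, ← hf2]
      rfl

include hy in
theorem hom_ext_D3 {f f' : H →* Multiplicative ℚ}
    (h : ∀ i, Multiplicative.toAdd (f (y i)) = Multiplicative.toAdd (f' (y i))) : f = f' := by
  apply MonoidHom.eq_of_eqOn_dense hy
  rintro _ ⟨i, rfl⟩
  exact Multiplicative.toAdd.injective (h i)

include hy in
theorem annS_le_D3 {T T' : Subgroup H} (h : annS_D3 y T ≤ annS_D3 y T') (f : H →* Multiplicative ℚ)
    (hf : ∀ x ∈ T, f x = 1) : ∀ x ∈ T', f x = 1 := by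
  obtain ⟨f', h1, h2⟩ := h ⟨f, hf, fun i => rfl⟩
  rw [← hom_ext_D3 y hy h2]
  exact h1

theorem annS_anti_D3 {T T' : Subgroup H} (h : T ≤ T') : annS_D3 y T' ≤ annS_D3 y T := by
  rintro a ⟨f, hf1, hf2⟩
  exact ⟨f, fun x hx => hf1 x (h hx), hf2⟩

include hy in
/-- dimension argument for a chain of subgroups with the stall property -/
theorem chain_D3 (T : ℕ → Subgroup H) (hmono : ∀ j, T j ≤ T (j + 1))
    (hstall : ∀ j, (∀ f : H →* Multiplicative ℚ, (∀ x ∈ T j, f x = 1) ↔ (∀ x ∈ T (j + 1), f x = 1)) →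
      ∀ f : H →* Multiplicative ℚ, (∀ x ∈ T j, f x = 1) → f = 1)
    (hne : ∃ f : H →* Multiplicative ℚ, ∃ x ∈ T 0, f x ≠ 1) (hv : 1 ≤ v) :
    ∀ f : H →* Multiplicative ℚ, (∀ x ∈ T (v - 1), f x = 1) → f = 1 := by
  have hbot : ∀ j, annS_D3 y (T j) = annS_D3 y (T (j + 1)) → annS_D3 y (T j) = ⊥ := by
    intro j hj
    rw [eq_bot_iff]
    rintro a ⟨f, hf1, hf2⟩
    have h1 := hstall j (fun f => ⟨annS_le_D3 y hy hj.le f, annS_le_D3 y hy hj.ge f⟩) f hf1
    rw [Submodule.mem_bot]
    funext i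
    rw [← hf2, h1]
    rfl
  have hdim : ∀ j, Module.finrank ℚ (annS_D3 y (T j)) + j + 1 ≤ v ∨ annS_D3 y (T j) = ⊥ := by
    intro j
    induction j with
    | zero =>
      left
      obtain ⟨f, x, hx, hfx⟩ := hne
      have h1 : annS_D3 y (T 0) ≠ ⊤ := by
        intro h
        have h2 : (fun i => Multiplicative.toAdd (f (y i))) ∈ annS_D3 y (T 0) := by
          rw [h]; trivial
        obtain ⟨f', hf1, hf2⟩ := h2
        have h3 : f' = f := hom_ext_D3 y hy hf2
        rw [h3] at hf1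
        exact hfx (hf1 x hx)
      have h2 := Submodule.finrank_lt h1
      rw [Module.finrank_fin_fun] at h2
      omega
    | succ j ih =>
      rcases ih with ih | ih
      · by_cases hj : annS_D3 y (T j) = annS_D3 y (T (j + 1))
        · right
          rw [← hj]
          exact hbot j hj
        · left
          have hlt : annS_D3 y (T (j + 1)) < annS_D3 y (T j) :=
            lt_of_le_of_ne (annS_anti_D3 y (hmono j)) (Ne.symm hj)
          have := Submodule.finrank_lt_finrank_of_lt hlt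
          omega
      · right
        rw [eq_bot_iff]
        exact (annS_anti_D3 y (hmono j)).trans ih.le
  have hfin : annS_D3 y (T (v - 1)) = ⊥ := by
    rcases hdim (v - 1) with h | h
    · rw [← Submodule.finrank_eq_zero (R := ℚ)]
      omega
    · exact h
  intro f hf
  have h1 : (fun i => Multiplicative.toAdd (f (y i))) ∈ annS_D3 y (T (v - 1)) :=
    ⟨f, hf, fun i => rfl⟩
  rw [hfin, Submodule.mem_bot] at h1
  apply hom_ext_D3 y hy
  intro i
  exact congrFun h1 i

end ann

/-! ### the main part -/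

theorem d3 (_he : StEx) (hj : StJoin) (hh : StHull) (hu : StUnion) (hi : StInv) (ht : StTop)
    (hm : StHullMap) (hB : StB) (hM : StMalc) (h2 : StD2) : StD3 := by
  intro n v g h w P hv hdP hwP hgP hPP hPgP htl hpos hag
  -- windows
  have hPi : ∀ l, v ≤ l → Pi ⊤ (wi g w l) v := by
    intro l hl
    have := h2 n v g w P hdP hwP hgP hPP hPgP htl l
    rwa [min_eq_right hl] at this
  have hitP : ∀ j, (g^[j]) w ∈ P := by
    intro j
    induction j with
    | zero => exact hwP
    | succ j ih =>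
      rw [Function.iterate_succ_apply' (⇑g)]
      exact hgP ⟨_, ih, rfl⟩
  have hwiP : ∀ l, wi g w l ≤ P := fun l => wi_le_D3.2 fun j _ => hitP j
  -- the hulls
  have hex : ∀ j, ∃ N, Hull ⊤ (wi g w (v + j)) v N := fun j =>
    hh n ⊤ (wi g w (v + j)) v le_top (hPi _ (by omega))
  choose T hT using hex
  have hLT : ∀ j, wi g w (v + j) ≤ T j := fun j => (hT j).1
  have hdT : ∀ j, dle (T j) v := fun j => (hT j).2.2.1
  have hTmin : ∀ j M, wi g w (v + j) ≤ M → dle M v → T j ≤ M := fun j M h1 h3 =>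
    (hT j).2.2.2 M h1 le_top h3
  have hTmono : ∀ j, T j ≤ T (j + 1) := fun j =>
    hTmin j _ ((wi_mono_D3 g w (by omega)).trans (hLT (j + 1))) (hdT _)
  have hTmono' : Monotone T := monotone_nat_of_le_succ hTmono
  have hTP : ∀ j, T j ≤ P := fun j => hTmin j P (hwiP _) hdP
  have hgT : ∀ j, (T j).map g ≤ T (j + 1) := by
    intro j
    have h1 := hm n n P v g hdP hPP hPgP (wi g w (v + j)) (T j) (hTP j) (hPi _ (by omega)) (hT j)
    refine h1.2.2.2 _ ?_ le_top (hdT _)
    exact (map_wi_le_D3 g w (v + j)).trans (hLT (j + 1))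
  have hPT : ∀ j, Pi ⊤ (T j) v := fun j => pi_of_le_D3 (hPi (v + j) (by omega)) (hLT j) (hdT j)
  have hPgT : ∀ j, Pi ⊤ ((T j).map g) v := fun j =>
    (hi n n P v g hdP hPP hPgP).2 (T j) (hTP j) v (hPT j)
  -- the union
  set H : Subgroup (F n) := ⨆ j, T j with hH
  have hTH : ∀ j, T j ≤ H := fun j => le_iSup T j
  have hdir : Directed (· ≤ ·) T := hTmono'.directed_le
  have hmemH : ∀ x, x ∈ H ↔ ∃ j, x ∈ T j := fun x => Subgroup.mem_iSup_of_directed hdir
  have hdH : dle H v := by
    refine hu n H (wi g w v) v ?_ (hPi v le_rfl) ?_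
    · exact (hLT 0).trans (hTH 0)
    · intro x hx
      obtain ⟨j, hj'⟩ := (hmemH x).1 hx
      refine ⟨T j, ?_, hTH j, hj', hdT j⟩
      exact (wi_mono_D3 g w (by omega)).trans (hLT j)
  have hgH : ∀ x ∈ H, g x ∈ H := by
    intro x hx
    obtain ⟨j, hj'⟩ := (hmemH x).1 hx
    exact hTH (j + 1) (hgT j ⟨x, hj', rfl⟩)
  have hitH : ∀ j, (g^[j]) w ∈ H := by
    intro j
    refine hTH (j + 1) (hLT (j + 1) (mem_wi_D3 g w (by omega)))
  -- generators of `H`
  obtain ⟨y, hy⟩ := hdH
  have hyH : ∀ i, y i ∈ H := fun i => by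
    rw [← hy]
    exact Subgroup.subset_closure ⟨i, rfl⟩
  set y' : Fin v → H := fun i => ⟨y i, hyH i⟩ with hy'
  have hy1 : Subgroup.closure (Set.range y') = ⊤ := by
    apply Subgroup.map_injective H.subtype_injective
    rw [MonoidHom.map_closure, ← MonoidHom.range_eq_map, Subgroup.range_subtype, ← Set.range_comp]
    exact hy
  set gH : H →* H := (g.comp H.subtype).codRestrict H (fun x => hgH x x.2) with hgHdef
  have hfull : ∀ f : H →* Multiplicative ℚ,
      (∀ x ∈ (T (v - 1)).subgroupOf H, f x = 1) → f = 1 := by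
    refine chain_D3 y' hy1 (fun j => (T j).subgroupOf H) ?_ ?_ ?_ hv
    · intro j x hx
      exact hTmono j hx
    · -- the stall lemma
      intro j hst f hf
      set R : Subgroup H := ⨅ f : {f : H →* Multiplicative ℚ // ∀ x ∈ (T j).subgroupOf H, f x = 1},
        f.1.ker with hR
      have hmemR : ∀ x, x ∈ R ↔ ∀ f : H →* Multiplicative ℚ,
          (∀ x ∈ (T j).subgroupOf H, f x = 1) → f x = 1 := by
        intro x
        rw [hR, Subgroup.mem_iInf]
        simp only [MonoidHom.mem_ker, Subtype.forall]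
      set R' : Subgroup (F n) := R.map H.subtype with hR'
      have hmemR' : ∀ x (hx : x ∈ H), x ∈ R' ↔ (⟨x, hx⟩ : H) ∈ R := by
        intro x hx
        constructor
        · rintro ⟨z, hz, rfl⟩
          exact hz
        · intro hz
          exact ⟨_, hz, rfl⟩
      have hR'H : R' ≤ H := by
        rintro _ ⟨z, -, rfl⟩
        exact z.2
      -- `R` is `g`-invariant
      have hgR : ∀ x ∈ R', g x ∈ R' := by
        intro x hx
        have hxH := hR'H hx
        rw [hmemR' x hxH, hmemR] at hx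
        rw [hmemR' (g x) (hgH x hxH), hmemR]
        intro f' hf'
        have h1 := hx (f'.comp gH) ?_
        · exact h1
        · intro z hz
          have h3 := (hst f').1 hf'
          exact h3 (gH z) (hgT j ⟨z, hz, rfl⟩)
      have hT1 : T (j + 1) ≤ R' := by
        intro x hx
        rw [hmemR' x (hTH _ hx), hmemR]
        intro f' hf'
        exact (hst f').1 hf' _ hx
      have hTk : ∀ k, T (j + 1 + k) ≤ R' := by
        intro k
        induction k with
        | zero => exact hT1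
        | succ k ih =>
          set k' := j + k with hk'
          have hkk : j + 1 + k = k' + 1 := by omega
          have hkk2 : j + 1 + (k + 1) = k' + 1 + 1 := by omega
          rw [hkk] at ih
          rw [hkk2]
          have hgTk : (T (k' + 1)).map g ≤ R' := by
            rintro _ ⟨x, hx, rfl⟩
            exact hgR x (ih hx)
          have hPiR : Pi R' ((T k').map g) v :=
            ⟨⟨T (k' + 1), hgT k', ih, hdT _⟩, fun M h1 _ s hs => (hPgT k').2 M h1 le_top s hs⟩
          obtain ⟨C, hC1, hC2, hC3, hC4⟩ := hj n R' ((T k').map g) v ((hgT k').trans ih) hPiR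
          have h3 : T (k' + 1) ≤ C := hC4 _ (hgT k') ih (hdT _)
          have h4 : (T (k' + 1)).map g ≤ C :=
            hC4 _ (Subgroup.map_mono (hTmono k')) hgTk (dle_map_D3 (hdT _) g)
          refine (hTmin (k' + 1 + 1) C ?_ hC3).trans hC2
          rw [wi_le_D3]
          intro i hi'
          rcases Nat.lt_or_ge i (v + (k' + 1)) with h5 | h5
          · exact h3 (hLT _ (mem_wi_D3 g w h5))
          · obtain ⟨i', rfl⟩ : ∃ i', i = i' + 1 := ⟨i - 1, by omega⟩
            rw [Function.iterate_succ_apply' (⇑g)]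
            exact h4 ⟨_, hLT _ (mem_wi_D3 g w (by omega)), rfl⟩
      apply MonoidHom.ext
      intro x
      obtain ⟨k, hk⟩ := (hmemH x).1 x.2
      have h3 : (x : F n) ∈ R' := by
        refine hTk k (hTmono' ?_ hk)
        omega
      rw [hmemR' x x.2, hmemR] at h3
      exact h3 f hf
    · obtain ⟨f, hf⟩ := hpos
      refine ⟨f.comp H.subtype, ⟨w, hitH 0⟩, ?_, hf⟩
      exact hLT 0 (mem_wi_D3 g w (j := 0) (by omega))
  -- (5e)
  have hLv : v + (v - 1) = 2 * v - 1 := by omega
  have hagL : ∀ x ∈ wi g w (v + (v - 1)), g x = h x := by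
    intro x hx
    have h1 : wi g w (v + (v - 1)) ≤ MonoidHom.eqLocus g h := by
      rw [wi_le_D3]
      intro j hj'
      exact (hag j (by omega)).symm
    exact h1 hx
  have hmap : (wi g w (v + (v - 1))).map g = (wi g w (v + (v - 1))).map h := by
    ext z
    constructor
    · rintro ⟨x, hx, rfl⟩
      exact ⟨x, hx, (hagL x hx).symm⟩
    · rintro ⟨x, hx, rfl⟩
      exact ⟨x, hx, hagL x hx⟩
  have hPgL : Pi ⊤ ((wi g w (v + (v - 1))).map g) v :=
    (hi n n P v g hdP hPP hPgP).2 _ (hwiP _) v (hPi _ (by omega))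
  have hPhT : Pi ⊤ ((T (v - 1)).map h) v := by
    refine pi_of_le_D3 (S := (wi g w (v + (v - 1))).map g) hPgL ?_ (dle_map_D3 (hdT _) h)
    rw [hmap]
    exact Subgroup.map_mono (hLT _)
  have hhinj : ∀ x ∈ T (v - 1), h x = 1 → x = 1 :=
    (hi n n (T (v - 1)) v h (hdT _) (hPT _) hPhT).1
  have hginj : ∀ x ∈ T (v - 1), g x = 1 → x = 1 := fun x hx =>
    (hi n n P v g hdP hPP hPgP).1 x (hTP _ hx)
  have hHg := hm n n P v g hdP hPP hPgP (wi g w (v + (v - 1))) (T (v - 1)) (hTP _)
    (hPi _ (by omega)) (hT _)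
  have hHh := hm n n (T (v - 1)) v h (hdT _) (hPT _) hPhT (wi g w (v + (v - 1))) (T (v - 1)) le_rfl
    (hPi _ (by omega)) (hT _)
  rw [← hmap] at hHh
  have him : (T (v - 1)).map g = (T (v - 1)).map h := hull_unique_D3 hHg hHh
  have hagT : ∀ x ∈ T (v - 1), g x = h x :=
    agree_hull_D3 hi ht hB g h _ _ (hPi _ (by omega)) (hT _) hginj hhinj him hagL
  -- (5f)
  have hfin := hM n H ((T (v - 1)).subgroupOf H) (g.comp H.subtype) (h.comp H.subtype)
    (fun x hx => hagT x hx) (fun f hf x => by rw [hfull f hf]; rfl)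
  intro j
  exact (hfin ⟨_, hitH j⟩).symm

end DL
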