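import Pool.Agent.Helper14.DL.Base

set_option autoImplicit false

namespace DL

open scoped Classical

variable {n : ℕ}

theorem lm_apply (g : F n) (f : F n →₀ ℤ) (w : F n) : lm g f w = f (g⁻¹ * w) := by
  unfold lm
  rw [Finsupp.domCongr_apply, Finsupp.equivMapDomain_apply]
  rfl

theorem lm_one (f : F n →₀ ℤ) : lm 1 f = f := by
  ext w
  rw [lm_apply]
  simp

theorem lm_mul (g h : F n) (f : F n →₀ ℤ) : lm (g * h) f = lm g (lm h f) := by
  ext w
  rw [lm_apply, lm_apply, lm_apply]
  congr 1
  group

theorem aff_apply (a b : Fin n) (y : F n →₀ ℤ) :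
    aff a b y = lm (gen b) y + (if a = b then Finsupp.single 1 1 else 0) := rfl

theorem lift_apply (a : Fin n) (g : F n) (y : F n →₀ ℤ) :
    (FreeGroup.lift (aff a) : F n →* Equiv.Perm (F n →₀ ℤ)) g y = lm g y + fox a g := by
  induction g using FreeGroup.induction_on generalizing y with
  | C1 =>
    unfold fox
    simp [lm_one]
  | of b =>
    unfold fox
    rw [FreeGroup.lift_apply_of, aff_apply, aff_apply]
    simp
  | inv_of b ih =>
    have h1 : ∀ z, (FreeGroup.lift (aff a) : F n →* Equiv.Perm (F n →₀ ℤ)) (FreeGroup.of b)⁻¹ z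
        = lm (gen b)⁻¹ (z - (if a = b then Finsupp.single 1 1 else 0)) := by
      intro z
      rw [map_inv, Equiv.Perm.inv_eq_iff_eq, FreeGroup.lift_apply_of, aff_apply, ← lm_mul]
      simp [lm_one]
    unfold fox
    rw [h1, h1, ← map_add]
    congr 1
    abel
  | mul g h ihg ihh =>
    have h1 : ∀ z, (FreeGroup.lift (aff a) : F n →* Equiv.Perm (F n →₀ ℤ)) (g * h) z
        = lm g (lm h z + fox a h) + fox a g := by
      intro z
      rw [map_mul, Equiv.Perm.mul_apply, ihh, ihg]
    have h2 : fox a (g * h) = lm g (fox a h) + fox a g := by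
      unfold fox
      rw [h1]
      simp
      rfl
    rw [h1, h2, lm_mul, map_add]
    abel

theorem fox_mul (a : Fin n) (g h : F n) : fox a (g * h) = fox a g + lm g (fox a h) := by
  have h1 := lift_apply a g (fox a h)
  have h2 : fox a (g * h) = (FreeGroup.lift (aff a) : F n →* Equiv.Perm (F n →₀ ℤ)) g (fox a h) := by
    unfold fox
    rw [map_mul, Equiv.Perm.mul_apply]
  rw [h2, h1, add_comm]

theorem fox_mul_apply (a : Fin n) (g h w : F n) :
    fox a (g * h) w = fox a g w + fox a h (g⁻¹ * w) := by
  rw [fox_mul, Finsupp.add_apply, lm_apply]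

theorem fox_one (a : Fin n) : fox a (1 : F n) = 0 := by
  unfold fox
  simp

theorem fox_of (a b : Fin n) : fox a (gen b) = if a = b then Finsupp.single 1 1 else 0 := by
  unfold fox
  rw [FreeGroup.lift_apply_of, aff_apply]
  simp

theorem fox_inv (a : Fin n) (g : F n) : fox a g⁻¹ = -lm g⁻¹ (fox a g) := by
  have h1 := fox_mul a g⁻¹ g
  rw [inv_mul_cancel, fox_one] at h1
  exact eq_neg_of_add_eq_zero_left h1.symm

/-- sum over a translate -/
theorem lm_sum {A : Type*} [AddCommGroup A] (g : F n) (f : F n →₀ ℤ) (φ : F n → ℤ → A) :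
    (lm g f).sum φ = f.sum fun u c => φ (g * u) c := by
  unfold lm
  rw [Finsupp.domCongr_apply, Finsupp.equivMapDomain_eq_mapDomain]
  rw [Finsupp.sum_mapDomain_index_inj (Equiv.mulLeft g).injective]
  rfl

/-- the path formula (fundamental formula of Fox calculus) -/
theorem path {A : Type*} [AddCommGroup A] (η : F n → A) (g : F n) :
    ∑ a, (fox a g).sum (fun u c => c • (η (u * gen a) - η u)) = η g - η 1 := by
  induction g using FreeGroup.induction_on generalizing η with
  | C1 => simp [fox_one]
  | of b =>
    simp only [fox_of]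
    rw [Finset.sum_eq_single b]
    · simp
    · intro a _ hab
      simp [hab]
    · intro h
      exact absurd (Finset.mem_univ b) h
  | inv_of b ih =>
    have h1 := ih (fun u => η ((gen b)⁻¹ * u))
    simp only [fox_inv]
    have h2 : ∀ a : Fin n, (-(lm (FreeGroup.of b)⁻¹ (fox a (FreeGroup.of b)))).sum
        (fun u c => c • (η (u * gen a) - η u)) =
        -((fox a (FreeGroup.of b)).sum (fun u c => c • (η ((gen b)⁻¹ * (u * gen a)) - η ((gen b)⁻¹ * u)))) := by
      intro a
      rw [Finsupp.sum_neg_index (by intro; simp)]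
      simp only [neg_smul]
      rw [lm_sum]
      simp only [Finsupp.sum, Finset.sum_neg_distrib, mul_assoc]
    rw [Finset.sum_congr rfl (fun a _ => h2 a), Finset.sum_neg_distrib]
    rw [h1]
    simp
  | mul g h ihg ihh =>
    have h1 := ihg η
    have h2 := ihh (fun u => η (g * u))
    simp only [fox_mul]
    have h3 : ∀ a : Fin n, (fox a g + lm g (fox a h)).sum (fun u c => c • (η (u * gen a) - η u)) =
        (fox a g).sum (fun u c => c • (η (u * gen a) - η u)) +
        (fox a h).sum (fun u c => c • (η (g * (u * gen a)) - η (g * u))) := by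
      intro a
      rw [Finsupp.sum_add_index' (by intro; simp) (by intro u c d; rw [add_smul])]
      rw [lm_sum]
      simp only [mul_assoc]
    rw [Finset.sum_congr rfl (fun a _ => h3 a), Finset.sum_add_distrib, h1, h2]
    simp

/-- the Fox derivative, extended to rational coefficients, as a finitely supported function -/
theorem tree (z : Fin n → F n → ℚ) (hz : ∀ a, (Function.support (z a)).Finite)
    (h : ∀ w, ∑ a, (z a (w * (gen a)⁻¹) - z a w) = 0) : ∀ a w, z a w = 0 := by
  -- turn into finsupps
  set Z : Fin n → (F n →₀ ℚ) := fun a => Finsupp.ofSupportFinite (z a) (hz a) with hZ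
  have hZa : ∀ a w, Z a w = z a w := fun a w => rfl
  -- the relation in the group ring : ∑ Z_a (x_a - 1) = 0
  have hrel : ∑ a, ((Z a).mapDomain (fun u => u * gen a) - Z a) = 0 := by
    ext w
    rw [Finsupp.finsetSum_apply, Finsupp.zero_apply, ← h w]
    refine Finset.sum_congr rfl fun a _ => ?_
    rw [Finsupp.sub_apply]
    have : (Finsupp.mapDomain (fun u => u * gen a) (Z a)) w = Z a (w * (gen a)⁻¹) := by
      have h2 := Finsupp.mapDomain_apply (f := fun u : F n => u * gen a)
        (fun u v huv => mul_right_cancel huv) (Z a) (w * (gen a)⁻¹)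
      simpa using h2
    rw [this, hZa, hZa]
  intro b w
  -- apply the linear extension of the Fox derivative
  let Φ : (F n →₀ ℚ) →ₗ[ℚ] (F n →₀ ℚ) :=
    Finsupp.lsum ℚ (fun u => LinearMap.toSpanSingleton ℚ _ ((fox b u).mapRange (fun c : ℤ => (c : ℚ)) (by simp)))
  have hΦ : ∀ f : F n →₀ ℚ, Φ f = f.sum fun u c => c • ((fox b u).mapRange (fun c : ℤ => (c : ℚ)) (by simp)) := by
    intro f
    rw [show Φ f = f.sum (fun u c => (LinearMap.toSpanSingleton ℚ (F n →₀ ℚ)
      ((fox b u).mapRange (fun c : ℤ => (c : ℚ)) (by simp))) c) from Finsupp.lsum_apply ℚ _ f]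
    rfl
  have h3 := congrArg Φ hrel
  rw [map_zero, map_sum] at h3
  have h4 : ∀ a, Φ ((Z a).mapDomain (fun u => u * gen a) - Z a) = if b = a then Z a else 0 := by
    intro a
    rw [map_sub, hΦ, hΦ]
    rw [Finsupp.sum_mapDomain_index (by intro; simp) (by intro u c d; rw [add_smul])]
    rw [← Finsupp.sum_sub]
    have h5 : ∀ u : F n, ∀ c : ℚ, c • ((fox b (u * gen a)).mapRange (fun c : ℤ => (c : ℚ)) (by simp)) -
        c • ((fox b u).mapRange (fun c : ℤ => (c : ℚ)) (by simp)) =
        if b = a then Finsupp.single u c else 0 := by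
      intro u c
      rw [← smul_sub]
      ext w
      rw [Finsupp.smul_apply, Finsupp.sub_apply, Finsupp.mapRange_apply, Finsupp.mapRange_apply,
        fox_mul_apply, fox_of]
      split_ifs with hab
      · rw [Finsupp.single_apply, Finsupp.single_apply]
        have : (1 = u⁻¹ * w) ↔ (u = w) := by
          constructor
          · intro h
            have := congrArg (fun t => u * t) h
            simpa using this
          · rintro rfl
            simp
        simp only [this]
        split_ifs <;> simp
      · simp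
    simp only [h5]
    split_ifs with hab
    · exact Finsupp.sum_single _
    · simp
  simp only [h4, Finset.sum_ite_eq, Finset.mem_univ, if_true] at h3
  have := DFunLike.congr_fun h3 w
  rw [hZa] at this
  simpa using this

section

variable {o : BO (F n)} (M : MF o)

theorem cf_nab (g : F n) (a : Fin n) (w : F n) : M.cf (nab M g a) w = (fox a g w : ℚ) := M.cf_io _ _

theorem nab_mul (g h : F n) : nab M (g * h) = nab M g + M.of g • nab M h := by
  funext a
  apply M.ext'
  intro w
  rw [cf_nab, Pi.add_apply, M.add, cf_nab, Pi.smul_apply, smul_eq_mul, M.cf_of_mul, cf_nab,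
    fox_mul_apply]
  push_cast
  rfl

theorem nab_one : nab M (1 : F n) = 0 := by
  funext a
  apply M.ext'
  intro w
  rw [cf_nab, fox_one]
  simp [M.cf_zero]

end

end DL
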