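import Pool.Agent.Helper14.DL.Base
import Pool.Agent.Helper14.DL.Fox

set_option autoImplicit false

/-!
Project DL (MP_2bc838_lc, S14533): statements of all modules. Paper proof: /team-store/MP_2bc838-h14-fullproof.md
-/

namespace DL

open scoped Classical

/-! ### Part 1: Malcev-Neumann fields, Magnus -/

/-- Malcev-Neumann field exists for every bi-ordered group. -/
def StMNF : Prop := ∀ (G : Type) [Group G] (o : BO G), Nonempty (MF o)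

/-- Magnus coefficients of elements of the free group. -/
structure Magnus (n : ℕ) where
  mag : List (Fin n) → F n → ℤ
  nil : ∀ g, mag [] g = 1
  mul : ∀ w g h, mag w (g * h) =
    ∑ i ∈ Finset.range (w.length + 1), mag (w.take i) g * mag (w.drop i) h
  gen1 : ∀ a b, mag [a] (gen b) = if a = b then 1 else 0
  gen2 : ∀ w b, 2 ≤ w.length → mag w (gen b) = 0
  inj : ∀ g, (∀ w, w ≠ [] → mag w g = 0) → g = 1

def StMag : Prop := ∀ n, Nonempty (Magnus n)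

/-- the Magnus order: a bi-order of the free group preserved by all IA endomorphisms -/
def StMord : Prop := ∀ n, ∃ o : BO (F n), ∀ θ : F n →* F n,
  (∀ g, Abelianization.of (θ g) = Abelianization.of g) → ∀ a b, o.lt a b → o.lt (θ a) (θ b)

/-- Malcev uniqueness: two homomorphisms to a free group which agree on a rationally full subgroup are equal. -/
def StMalc : Prop := ∀ (n : ℕ) (H : Type) [Group H] (T : Subgroup H) (g h : H →* F n),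
  (∀ x ∈ T, g x = h x) →
  (∀ f : H →* Multiplicative ℚ, (∀ x ∈ T, f x = 1) → ∀ x, f x = 1) → ∀ x, g x = h x

/-! ### Part 2: Theorem A -/

/-- the closure `cl_E(L) = {x ∈ E : nab x ∈ V_E(L)}` as a set (it is a subgroup) -/
def clSet {n : ℕ} {o : BO (F n)} (M : MF o) (E L : Subgroup (F n)) : Set (F n) :=
  {x | x ∈ E ∧ nab M x ∈ V M E L}

/-- (1a) -/
def StA1 : Prop := ∀ (n : ℕ) (E : Subgroup (F n)) (Ω : Type) [AddCommGroup Ω] [Module ℚ Ω]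
  (act : F n → Ω →ₗ[ℚ] Ω) (δ : F n → Ω) (Λ : Set (Ω →ₗ[ℚ] ℚ)) (I : Type) [Fintype I]
  (κ : I → F n → ℚ) (y : I → F n) (a : F n →₀ ℚ),
  (∀ e ∈ E, ∀ f ∈ E, act (e * f) = (act e).comp (act f)) → act 1 = LinearMap.id →
  (∀ e ∈ E, ∀ f ∈ E, δ (e * f) = δ e + act e (δ f)) →
  (∀ ω, (∀ l ∈ Λ, l ω = 0) → ω = 0) →
  (∀ i g, κ i g ≠ 0 → g ∈ E) →
  (∀ i, ∀ l ∈ Λ, ∀ ω, {f | κ i f ≠ 0 ∧ l (act f ω) ≠ 0}.Finite) →
  (∀ i, y i ∈ E) → (∀ i, δ (y i) = 0) →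
  (∀ g, a g ≠ 0 → g ∈ E) → a.sum (fun _ c => c) = 0 → a.sum (fun g c => c • δ g) = 0 →
  (∀ x w, a.sum (fun g c => c * (fox x g w : ℚ)) =
    ∑ i, (fox x (y i)).sum (fun u m => (m : ℚ) * κ i (w * u⁻¹))) →
  ∀ l ∈ Λ, a.sum (fun g c => (c * l (δ g)) • δ g) = 0

/-- (1b) Dedekind independence: the distinct non-zero values of `δ` on `E` are linearly independent -/
def StA2 : Prop := ∀ (n : ℕ) (E : Subgroup (F n)) (Ω : Type) [AddCommGroup Ω] [Module ℚ Ω]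
  (δ : F n → Ω) (Λ : Set (Ω →ₗ[ℚ] ℚ)), δ 1 = 0 →
  (∀ ω, (∀ l ∈ Λ, l ω = 0) → ω = 0) →
  (∀ a : F n →₀ ℚ, (∀ g, a g ≠ 0 → g ∈ E) → a.sum (fun _ c => c) = 0 →
    a.sum (fun g c => c • δ g) = 0 → ∀ l ∈ Λ, a.sum (fun g c => (c * l (δ g)) • δ g) = 0) →
  ∀ b : F n →₀ ℚ, (∀ g, b g ≠ 0 → g ∈ E) → b.sum (fun g c => c • δ g) = 0 →
    ∀ ω : Ω, ω ≠ 0 → b.sum (fun g c => if δ g = ω then c else 0) = 0

/-- (1c), first part -/
def StA3 : Prop := ∀ (n : ℕ) (E C : Subgroup (F n)) (Ω : Type) [AddCommGroup Ω] [Module ℚ Ω]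
  (act : F n → Ω →ₗ[ℚ] Ω) (δ : F n → Ω) (Λ : Set (Ω →ₗ[ℚ] ℚ)) (I : Type) [Fintype I]
  (κ : I → F n → ℚ) (y : I → F n),
  (∀ e ∈ E, ∀ f ∈ E, act (e * f) = (act e).comp (act f)) → act 1 = LinearMap.id →
  (∀ e ∈ E, ∀ f ∈ E, δ (e * f) = δ e + act e (δ f)) →
  (∀ x, x ∈ C ↔ x ∈ E ∧ δ x = 0) →
  (∀ ω, (∀ l ∈ Λ, l ω = 0) → ω = 0) →
  (∀ i g, κ i g ≠ 0 → g ∈ E) →
  (∀ i, ∀ l ∈ Λ, ∀ ω, {f | κ i f ≠ 0 ∧ l (act f ω) ≠ 0}.Finite) →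
  (∀ i, y i ∈ C) →
  (∀ b : F n →₀ ℚ, (∀ g, b g ≠ 0 → g ∈ E) → b.sum (fun g c => c • δ g) = 0 →
    ∀ ω : Ω, ω ≠ 0 → b.sum (fun g c => if δ g = ω then c else 0) = 0) →
  (∀ x w, ∑ i, (fox x (y i)).sum (fun u m => (m : ℚ) * κ i (w * u⁻¹)) = 0) →
  ∀ x w u₀, ∑ i, (fox x (y i)).sum
    (fun u m => if u * u₀⁻¹ ∈ C then (m : ℚ) * κ i (w * u⁻¹) else 0) = 0

/-- (1c), second part -/
def StA4 : Prop := ∀ (n : ℕ) (o : BO (F n)) (M : MF o) (C : Subgroup (F n)) (ι : Type)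
  (B : FreeGroupBasis ι C) (s : Finset ι) (κ : ι → M.K),
  (∀ x w u₀, ∑ i ∈ s, (fox x (B i : F n)).sum
    (fun u m => if u * u₀⁻¹ ∈ C then (m : ℚ) * M.cf (κ i) (w * u⁻¹) else 0) = 0) →
  ∀ i ∈ s, κ i = 0

/-- Theorem A -/
def StA : Prop := ∀ (n : ℕ) (o : BO (F n)) (M : MF o) (E L : Subgroup (F n)), L ≤ E →
  ∀ r, IsRho M E L r → ∃ b : Fin r → F n,
    ((Subgroup.closure (Set.range b) : Subgroup (F n)) : Set (F n)) = clSet M E L ∧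
    LinearIndependent (M.sub E) (fun i => nab M (b i))

/-! ### Part 3: consequences -/

/-- `rho = pi` -/
def StPi : Prop := ∀ (n : ℕ) (o : BO (F n)) (M : MF o) (E L : Subgroup (F n)), L ≤ E →
  ∀ r, (IsRho M E L r ↔ Pi E L r)

/-- existence -/
def StEx : Prop := ∀ (n : ℕ) (E L : Subgroup (F n)) (M : Subgroup (F n)) (s : ℕ), L ≤ M → M ≤ E →
  dle M s → ∃ r, r ≤ s ∧ Pi E L r

/-- join -/
def StJoin : Prop := ∀ (n : ℕ) (E L : Subgroup (F n)) (r : ℕ), L ≤ E → Pi E L r →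
  ∃ C : Subgroup (F n), L ≤ C ∧ C ≤ E ∧ dle C r ∧ ∀ M, L ≤ M → M ≤ E → dle M r → M ≤ C

/-- hull: the smallest `r`-generated overgroup -/
def Hull {n : ℕ} (E L : Subgroup (F n)) (r : ℕ) (N : Subgroup (F n)) : Prop :=
  L ≤ N ∧ N ≤ E ∧ dle N r ∧ ∀ M, L ≤ M → M ≤ E → dle M r → N ≤ M

def StHull : Prop := ∀ (n : ℕ) (E L : Subgroup (F n)) (r : ℕ), L ≤ E → Pi E L r →
  ∃ N, Hull E L r N

/-- unions: a subgroup all of whose finite subsets lie in `r`-generated subgroups of it containing `L`, `pi(L) = r`,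
is `r`-generated -/
def StUnion : Prop := ∀ (n : ℕ) (H L : Subgroup (F n)) (r : ℕ), L ≤ H → Pi ⊤ L r →
  (∀ x ∈ H, ∃ M, L ≤ M ∧ M ≤ H ∧ x ∈ M ∧ dle M r) → dle H r

/-- invariance -/
def StInv : Prop := ∀ (n m : ℕ) (P : Subgroup (F n)) (v : ℕ) (g : F n →* F m), dle P v →
  Pi ⊤ P v → Pi ⊤ (P.map g) v →
  (∀ x ∈ P, g x = 1 → x = 1) ∧ ∀ S : Subgroup (F n), S ≤ P → ∀ r, Pi ⊤ S r → Pi ⊤ (S.map g) r

/-- the free group of rank `v` -/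
def StTop : Prop := ∀ v, Pi (⊤ : Subgroup (F v)) ⊤ v

/-- hull and maps -/
def StHullMap : Prop := ∀ (n m : ℕ) (P : Subgroup (F n)) (v : ℕ) (g : F n →* F m), dle P v →
  Pi ⊤ P v → Pi ⊤ (P.map g) v →
  ∀ S N : Subgroup (F n), N ≤ P → Pi ⊤ S v → Hull ⊤ S v N → Hull ⊤ (S.map g) v (N.map g)

/-- minimality criterion (G) -/
def StG : Prop := ∀ (v : ℕ) (L E : Subgroup (F v)), L ≤ E → Pi ⊤ L v →
  (∀ M, L ≤ M → dle M v → M = ⊤) → ∀ (o : BO (F v)) (M : MF o) (x : Fin v → F v),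
  (∀ i, x i ∈ L) → LinearIndependent M.K (fun i => nab M (x i)) →
  (∀ y ∈ L, ∃ c : Fin v → M.K, nab M y = ∑ i, c i • nab M (x i) ∧ ∀ i, c i ∈ M.sub E) → E = ⊤

/-- existence of a basis for one order, independence of the order -/
def StBas : Prop := ∀ (v : ℕ) (L : Subgroup (F v)), Pi ⊤ L v → ∃ x : Fin v → F v,
  (∀ i, x i ∈ L) ∧ ∀ (o : BO (F v)) (M : MF o), LinearIndependent M.K (fun i => nab M (x i))

/-! ### Part 4: Claim B -/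

/-- exponent sum vector -/
noncomputable def ev {v : ℕ} (g : F v) : Fin v → ℤ :=
  Multiplicative.toAdd ((FreeGroup.lift (fun a => Multiplicative.ofAdd (Pi.single a (1 : ℤ))) :
    F v →* Multiplicative (Fin v → ℤ)) g)

/-- equivariance of the coefficients -/
def StEq : Prop := ∀ (v : ℕ) (o o' : BO (F v)) (M : MF o) (M' : MF o') (θ : F v ≃* F v),
  (∀ a b, o.lt a b ↔ o'.lt (θ a) (θ b)) → ∀ (x : Fin v → F v) (y : F v), (∀ i, θ (x i) = x i) →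
  θ y = y → ∀ (c : Fin v → M.K) (c' : Fin v → M'.K), (∀ i g, M'.cf (c' i) (θ g) = M.cf (c i) g) →
  nab M y = ∑ i, c i • nab M (x i) → nab M' y = ∑ i, c' i • nab M' (x i)

/-- uniform Ore representation -/
def StB1a : Prop := ∀ (v : ℕ) (x : Fin v → F v) (y : F v), ∃ d : ℕ, ∀ (o : BO (F v)) (M : MF o),
  LinearIndependent M.K (fun i => nab M (x i)) → ∀ c : Fin v → M.K,
  nab M y = ∑ i, c i • nab M (x i) → ∃ Q : M.K, Q ≠ 0 ∧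
    (∀ g, M.cf Q g ≠ 0 → ∀ a, |ev g a| ≤ d) ∧
    ∀ i g, M.cf (Q * c i) g ≠ 0 → ∀ a, |ev g a| ≤ d

/-- the support of the expansion, stage by stage -/
def StB1b : Prop := ∀ (v d : ℕ) (o : BO (F v)) (M : MF o) (φ : (Fin v → ℤ) →+ ℝ),
  Function.Injective φ → (∀ g h, φ (ev g) < φ (ev h) → o.lt g h) → ∀ Q c : M.K, Q ≠ 0 →
  (∀ g, M.cf Q g ≠ 0 → ∀ a, |ev g a| ≤ d) → (∀ g, M.cf (Q * c) g ≠ 0 → ∀ a, |ev g a| ≤ d) →
  ∀ g, M.cf c g ≠ 0 →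
    {u | (∃ h, M.cf c h ≠ 0 ∧ ev h = u) ∧ φ u < φ (ev g)}.Finite ∧
    ∀ a, |ev g a| ≤ 2 * d * (1 + {u | (∃ h, M.cf c h ≠ 0 ∧ ev h = u) ∧ φ u < φ (ev g)}.ncard)

def StB1 : Prop := ∀ (v : ℕ) (L : Subgroup (F v)), Pi ⊤ L v →
  (∀ M, L ≤ M → dle M v → M = ⊤) → ∀ θ : MulAut (F v), (∀ x ∈ L, θ x = x) →
  ∃ m, 1 ≤ m ∧ ∀ x, Abelianization.of ((θ ^ m) x) = Abelianization.of x

def StB2 : Prop := ∀ (v : ℕ) (L : Subgroup (F v)), Pi ⊤ L v →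
  (∀ M, L ≤ M → dle M v → M = ⊤) → ∀ θ : MulAut (F v), (∀ x ∈ L, θ x = x) →
  (∀ x, Abelianization.of (θ x) = Abelianization.of x) → θ = 1

/-- the fixed subgroup -/
def fixS {v : ℕ} (θ : MulAut (F v)) : Subgroup (F v) where
  carrier := {x | θ x = x}
  mul_mem' := by
    intro a b ha hb
    simp only [Set.mem_ofPred_eq, map_mul] at *
    rw [ha, hb]
  one_mem' := map_one θ
  inv_mem' := by
    intro a ha
    simp only [Set.mem_ofPred_eq, map_inv] at *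
    rw [ha]

def StB3a : Prop := ∀ (v p : ℕ) (θ : MulAut (F v)), p.Prime → θ ^ p = 1 → ∀ (a : Fin v) (u : F v),
  ∃ ψ : F v →* Multiplicative ℤ, ∀ x ∈ fixS θ,
    (p : ℤ) ∣ Multiplicative.toAdd (ψ x) -
      (fox a x).sum (fun w m => if w * u⁻¹ ∈ fixS θ then m else 0)

def StB3 : Prop := ∀ (v p : ℕ) (θ : MulAut (F v)), p.Prime → θ ^ p = 1 → dle (fixS θ) v

def StB : Prop := ∀ (v : ℕ) (L : Subgroup (F v)), Pi ⊤ L v →
  (∀ M, L ≤ M → dle M v → M = ⊤) → ∀ θ : MulAut (F v), (∀ x ∈ L, θ x = x) → θ = 1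

/-! ### Part 5: dynamics -/

/-- tails -/
def tl {n : ℕ} (g : F n →* F n) (w : F n) (i : ℕ) : Subgroup (F n) :=
  Subgroup.closure {x | ∃ j, i ≤ j ∧ x = (g^[j]) w}

/-- windows starting at the axiom -/
def wi {n : ℕ} (g : F n →* F n) (w : F n) (l : ℕ) : Subgroup (F n) :=
  Subgroup.closure {x | ∃ j, j < l ∧ x = (g^[j]) w}

/-- (5a) -/
def StD1 : Prop := ∀ (n : ℕ) (g : F n →* F n) (w : F n), ∃ i v : ℕ, i + v ≤ n ∧
  Pi ⊤ (tl g w i) v ∧ ∃ P : Subgroup (F n), dle P v ∧ tl g w i ≤ P ∧ P.map g ≤ P ∧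
    Pi ⊤ P v ∧ Pi ⊤ (P.map g) v

/-- (5b) -/
def StD2 : Prop := ∀ (n v : ℕ) (g : F n →* F n) (w : F n) (P : Subgroup (F n)), dle P v →
  w ∈ P → P.map g ≤ P → Pi ⊤ P v → Pi ⊤ (P.map g) v → Pi ⊤ (tl g w 0) v →
  ∀ l, Pi ⊤ (wi g w l) (min l v)

/-- (5c)-(5f) -/
def StD3 : Prop := ∀ (n v : ℕ) (g h : F n →* F n) (w : F n) (P : Subgroup (F n)), 1 ≤ v → dle P v →
  w ∈ P → P.map g ≤ P → Pi ⊤ P v → Pi ⊤ (P.map g) v → Pi ⊤ (tl g w 0) v →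
  (∃ f : F n →* Multiplicative ℚ, f w ≠ 1) →
  (∀ j, j + 1 < 2 * v → h ((g^[j]) w) = g ((g^[j]) w)) →
  ∀ j, h ((g^[j]) w) = g ((g^[j]) w)

/-- the group form of the result, positivity only through `f` -/
def StD : Prop := ∀ (n : ℕ) (g h : F n →* F n) (w : F n),
  (∀ j, (g^[j]) w = 1 ∨ ∃ f : F n →* Multiplicative ℚ, f ((g^[j]) w) ≠ 1) →
  (∀ j, j + 1 < 2 * n → h ((g^[j]) w) = g ((g^[j]) w)) →
  ∀ j, h ((g^[j]) w) = g ((g^[j]) w)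

end DL
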